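import Pool.Agent.Helper49.LT.Base

/-!
# Project RC: Fourier averages of the rational shift

`bla a z = (1 + conj a * conj z)/(1 + a * z)` for `|z| = 1`, `|a| < 1` is unimodular. With `z = ee (3 θ)` and
`psi θ = d + 4 arg (1 + a z)` one has `ee (-psi/2) = ee (-d/2) * bla a z`.
-/

open MeasureTheory Set Filter

namespace Helper95.RC

open Helper97.CB Helper49.LT

/-- the unimodular function of the shift -/
noncomputable def bla (a z : ℂ) : ℂ :=
  (1 + (starRingEnd ℂ) a * (starRingEnd ℂ) z) / (1 + a * z)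

theorem one_add_ne {a z : ℂ} (ha : ‖a‖ < 1) (hz : ‖z‖ = 1) : 1 + a * z ≠ 0 := by
  intro h
  have h1 : a * z = -1 := by linear_combination h
  have h2 : ‖a * z‖ = 1 := by rw [h1]; simp
  rw [norm_mul, hz, mul_one] at h2
  linarith

theorem norm_bla {a z : ℂ} (ha : ‖a‖ < 1) (hz : ‖z‖ = 1) : ‖bla a z‖ = 1 := by
  unfold bla
  have h : 1 + (starRingEnd ℂ) a * (starRingEnd ℂ) z = (starRingEnd ℂ) (1 + a * z) := by
    simp [map_add, map_mul]
  rw [h, norm_div, RCLike.norm_conj, div_self]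
  exact norm_ne_zero_iff.2 (one_add_ne ha hz)

theorem conj_bla {a z : ℂ} (ha : ‖a‖ < 1) (hz : ‖z‖ = 1) :
    (starRingEnd ℂ) (bla a z) = (bla a z)⁻¹ := by
  have h := norm_bla ha hz
  have h0 : bla a z ≠ 0 := by
    intro h'; rw [h'] at h; simp at h
  apply mul_left_cancel₀ h0
  rw [mul_inv_cancel₀ h0, Complex.mul_conj, Complex.normSq_eq_norm_sq, h]
  simp

/-- mean over the period -/
noncomputable def av (f : ℝ → ℂ) : ℂ :=
  (1 / (2 * Real.pi) : ℂ) * ∫ θ in (0 : ℝ)..(2 * Real.pi), f θ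

theorem av_ee (n : ℤ) : av (fun θ => ee ((n : ℝ) * θ)) = if n = 0 then 1 else 0 := by
  unfold av
  have hpi : (Real.pi : ℂ) ≠ 0 := by exact_mod_cast Real.pi_ne_zero
  by_cases hn : n = 0
  · simp only [hn, Int.cast_zero, zero_mul, ee_zero, intervalIntegral.integral_const,
      sub_zero, if_true]
    rw [Complex.real_smul, mul_one]
    push_cast
    rw [one_div, inv_mul_cancel₀]
    exact mul_ne_zero two_ne_zero hpi
  · rw [if_neg hn]
    have hc : ((n : ℝ) : ℂ) * Complex.I ≠ 0 := by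
      apply mul_ne_zero _ Complex.I_ne_zero
      exact_mod_cast hn
    have h1 : ∫ θ in (0 : ℝ)..(2 * Real.pi), ee ((n : ℝ) * θ) = 0 := by
      have h2 : ∀ x ∈ uIcc (0 : ℝ) (2 * Real.pi),
          HasDerivAt (fun s : ℝ => ee ((n : ℝ) * s) / (((n : ℝ) : ℂ) * Complex.I))
            (ee ((n : ℝ) * x)) x := by
        intro x _
        have h3 := (hasDerivAt_ee (n : ℝ) x).div_const (((n : ℝ) : ℂ) * Complex.I)
        rw [mul_div_cancel_left₀ _ hc] at h3
        exact h3
      rw [intervalIntegral.integral_eq_sub_of_hasDerivAt h2]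
      · have h4 := ee_int n 0
        rw [zero_add] at h4
        rw [h4]; simp
      · apply Continuous.intervalIntegrable
        exact continuous_ee.comp (by fun_prop)
    rw [h1, mul_zero]

/-- the coefficient of `U ^ n` in `(1 + a U) ^ (-p)` -/
noncomputable def cn (p n : ℕ) (a : ℂ) : ℂ := ((p + n - 1).choose n : ℂ) * (-a) ^ n

theorem cn_zero (n : ℕ) (a : ℂ) : cn 0 n a = if n = 0 then 1 else 0 := by
  unfold cn
  rcases n with _ | n
  · simp
  · simp

theorem hasSum_cn (p : ℕ) {a z : ℂ} (ha : ‖a‖ < 1) (hz : ‖z‖ = 1) :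
    HasSum (fun n : ℕ => cn p n a * z ^ n) ((1 + a * z)⁻¹ ^ p) := by
  rcases p with _ | p
  · have h : (fun n : ℕ => cn 0 n a * z ^ n) = fun n => if n = 0 then 1 else 0 := by
      funext n
      rw [cn_zero]
      split_ifs with h
      · simp [h]
      · simp
    rw [h, pow_zero]
    exact hasSum_ite_eq 0 1
  · have hr : ‖-(a * z)‖ < 1 := by rw [norm_neg, norm_mul, hz, mul_one]; exact ha
    have h := hasSum_choose_mul_geometric_of_norm_lt_one p hr
    have e : (fun n : ℕ => cn (p + 1) n a * z ^ n) =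
        fun n : ℕ => ((n + p).choose p : ℂ) * (-(a * z)) ^ n := by
      funext n
      unfold cn
      have h1 : (p + 1 + n - 1).choose n = (n + p).choose p := by
        have : p + 1 + n - 1 = n + p := by omega
        rw [this]
        exact (Nat.choose_symm_add).symm ▸ rfl
      rw [h1, neg_mul_eq_neg_mul, mul_pow]
      ring
    rw [e]
    have e2 : (1 + a * z)⁻¹ ^ (p + 1) = 1 / (1 - -(a * z)) ^ (p + 1) := by
      rw [sub_neg_eq_add, one_div, inv_pow]
    rw [e2]
    exact h

theorem summable_cn (p : ℕ) {a : ℂ} (ha : ‖a‖ < 1) : Summable (fun n : ℕ => ‖cn p n a‖) := by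
  rcases p with _ | p
  · have h : (fun n : ℕ => ‖cn 0 n a‖) = fun n => if n = 0 then 1 else 0 := by
      funext n
      rw [cn_zero]
      split_ifs <;> simp
    rw [h]
    exact (hasSum_ite_eq 0 (1 : ℝ)).summable
  · have h := summable_choose_mul_geometric_of_norm_lt_one p
      (r := (‖a‖ : ℝ)) (by rw [norm_norm]; exact ha)
    refine h.congr fun n => ?_
    unfold cn
    rw [norm_mul, norm_pow, norm_neg, Complex.norm_natCast]
    have : p + 1 + n - 1 = n + p := by omega
    rw [this]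
    congr 2
    exact Nat.choose_symm_add.symm ▸ rfl

/-- the mean of `ee (q θ) * bla a (ee (m θ)) ^ p`, as a finite sum -/
noncomputable def cc (a : ℂ) (p : ℕ) (j : ℤ) : ℂ :=
  ∑ i ∈ Finset.range (p + 1), if j ≤ i then
    (p.choose i : ℂ) * (starRingEnd ℂ) a ^ i * cn p ((i - j : ℤ).toNat) a else 0

theorem bla_pow (a z : ℂ) (p : ℕ) : bla a z ^ p = (∑ i ∈ Finset.range (p + 1),
    (p.choose i : ℂ) * (starRingEnd ℂ) a ^ i * (starRingEnd ℂ) z ^ i) * (1 + a * z)⁻¹ ^ p := by
  unfold bla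
  rw [div_eq_mul_inv, mul_pow, add_comm, add_pow]
  congr 1
  apply Finset.sum_congr rfl
  intro i _
  rw [one_pow, mul_one, mul_pow]
  ring

theorem av_const_mul (c : ℂ) (f : ℝ → ℂ) : av (fun θ => c * f θ) = c * av f := by
  unfold av
  rw [intervalIntegral.integral_const_mul]
  ring

theorem ee_zpow_conj (m i : ℕ) (θ : ℝ) :
    (starRingEnd ℂ) (ee ((m : ℝ) * θ)) ^ i = ee ((((-(m * i) : ℤ)) : ℝ) * θ) := by
  rw [← ee_neg, ee_int_mul, ← neg_mul]
  have h : ee (-(m : ℝ) * θ) = ee θ ^ (-(m : ℤ)) := by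
    rw [← ee_int_mul]; congr 1; push_cast; ring
  rw [h, ← zpow_natCast, ← zpow_mul]
  congr 1
  ring

theorem ee_npow (m n : ℕ) (θ : ℝ) :
    ee ((m : ℝ) * θ) ^ n = ee ((((m * n : ℤ)) : ℝ) * θ) := by
  have h : ee ((m : ℝ) * θ) = ee θ ^ (m : ℤ) := by
    rw [← ee_int_mul]; congr 1
  rw [h, ee_int_mul, ← zpow_natCast, ← zpow_mul]

/-- one term of the double expansion -/
theorem av_term (m i n : ℕ) (q : ℤ) (c : ℂ) :
    av (fun θ => c * (ee ((q : ℝ) * θ) * (starRingEnd ℂ) (ee ((m : ℝ) * θ)) ^ i *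
      ee ((m : ℝ) * θ) ^ n)) = if q - m * i + m * n = 0 then c else 0 := by
  rw [av_const_mul]
  have h : (fun θ => ee ((q : ℝ) * θ) * (starRingEnd ℂ) (ee ((m : ℝ) * θ)) ^ i *
      ee ((m : ℝ) * θ) ^ n) = fun θ => ee (((q - m * i + m * n : ℤ) : ℝ) * θ) := by
    funext θ
    rw [ee_zpow_conj, ee_npow, ← ee_add, ← ee_add]
    congr 1
    push_cast
    ring
  rw [h, av_ee]
  split_ifs <;> simp

/-- MAIN LEMMA: Fourier averages of the powers of the shift function, base `m ≥ 1` -/
theorem av_bla (m : ℕ) (hm : 1 ≤ m) (p : ℕ) (q : ℤ) {a : ℂ} (ha : ‖a‖ < 1) :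
    av (fun θ => ee ((q : ℝ) * θ) * bla a (ee ((m : ℝ) * θ)) ^ p) =
      if (m : ℤ) ∣ q then cc a p (q / m) else 0 := by
  set F : ℕ → ℝ → ℂ := fun n θ => ∑ i ∈ Finset.range (p + 1),
    ((p.choose i : ℂ) * (starRingEnd ℂ) a ^ i * cn p n a) *
      (ee ((q : ℝ) * θ) * (starRingEnd ℂ) (ee ((m : ℝ) * θ)) ^ i * ee ((m : ℝ) * θ) ^ n) with hF
  set K : ℝ := ∑ i ∈ Finset.range (p + 1), (p.choose i : ℝ) * ‖a‖ ^ i with hK
  have hcont : ∀ c : ℝ, Continuous fun θ : ℝ => ee (c * θ) := fun c =>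
    continuous_ee.comp (by fun_prop)
  have hFc : ∀ n, Continuous (F n) := by
    intro n
    rw [hF]
    apply continuous_finsetSum
    intro i _
    exact continuous_const.mul (((hcont _).mul
      ((Complex.continuous_conj.comp (hcont _)).pow i)).mul ((hcont _).pow n))
  have hb : ∀ n θ, ‖F n θ‖ ≤ K * ‖cn p n a‖ := by
    intro n θ
    rw [hF, hK, Finset.sum_mul]
    refine (norm_sum_le _ _).trans (Finset.sum_le_sum fun i _ => ?_)
    simp only [norm_mul, norm_pow, RCLike.norm_conj, norm_ee, Complex.norm_natCast, one_pow,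
      mul_one]
    exact le_of_eq (by ring)
  have hs : ∀ θ, HasSum (fun n => F n θ)
      (ee ((q : ℝ) * θ) * bla a (ee ((m : ℝ) * θ)) ^ p) := by
    intro θ
    have h1 := (hasSum_cn p ha (norm_ee ((m : ℝ) * θ))).mul_left
      (ee ((q : ℝ) * θ) * ∑ i ∈ Finset.range (p + 1), (p.choose i : ℂ) * (starRingEnd ℂ) a ^ i *
        (starRingEnd ℂ) (ee ((m : ℝ) * θ)) ^ i)
    have e : (fun n => F n θ) = fun n => (ee ((q : ℝ) * θ) *
        ∑ i ∈ Finset.range (p + 1), (p.choose i : ℂ) * (starRingEnd ℂ) a ^ i *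
        (starRingEnd ℂ) (ee ((m : ℝ) * θ)) ^ i) * (cn p n a * ee ((m : ℝ) * θ) ^ n) := by
      funext n
      rw [hF]
      simp only [Finset.mul_sum, Finset.sum_mul]
      apply Finset.sum_congr rfl
      intro i _
      ring
    rw [bla_pow, ← mul_assoc, e]
    exact h1
  have hint : HasSum (fun n => ∫ θ in (0 : ℝ)..(2 * Real.pi), F n θ)
      (∫ θ in (0 : ℝ)..(2 * Real.pi), ee ((q : ℝ) * θ) * bla a (ee ((m : ℝ) * θ)) ^ p) := by
    apply intervalIntegral.hasSum_integral_of_dominated_convergence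
      (fun n _ => K * ‖cn p n a‖)
    · intro n
      exact (hFc n).aestronglyMeasurable
    · intro n
      exact Eventually.of_forall fun θ _ => hb n θ
    · exact Eventually.of_forall fun θ _ => (summable_cn p ha).mul_left K
    · exact intervalIntegrable_const
    · exact Eventually.of_forall fun θ _ => hs θ
  have hav : HasSum (fun n => av (F n))
      (av fun θ => ee ((q : ℝ) * θ) * bla a (ee ((m : ℝ) * θ)) ^ p) := by
    unfold av
    exact hint.mul_left _
  have hterm : ∀ n, av (F n) = ∑ i ∈ Finset.range (p + 1), if q - m * i + m * n = 0 then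
      (p.choose i : ℂ) * (starRingEnd ℂ) a ^ i * cn p n a else 0 := by
    intro n
    have h1 : av (F n) = ∑ i ∈ Finset.range (p + 1), av (fun θ =>
        ((p.choose i : ℂ) * (starRingEnd ℂ) a ^ i * cn p n a) *
          (ee ((q : ℝ) * θ) * (starRingEnd ℂ) (ee ((m : ℝ) * θ)) ^ i * ee ((m : ℝ) * θ) ^ n)) := by
      unfold av
      rw [hF]
      simp only
      rw [intervalIntegral.integral_finsetSum, Finset.mul_sum]
      intro i _
      apply Continuous.intervalIntegrable
      exact continuous_const.mul (((hcont _).mul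
        ((Complex.continuous_conj.comp (hcont _)).pow i)).mul ((hcont _).pow n))
    rw [h1]
    apply Finset.sum_congr rfl
    intro i _
    rw [av_term]
  have hmz : (m : ℤ) ≠ 0 := by positivity
  have hfin : HasSum (fun n : ℕ => ∑ i ∈ Finset.range (p + 1), if q - m * i + m * n = 0 then
      (p.choose i : ℂ) * (starRingEnd ℂ) a ^ i * cn p n a else 0)
      (if (m : ℤ) ∣ q then cc a p (q / m) else 0) := by
    have hi : ∀ i ∈ Finset.range (p + 1), HasSum (fun n : ℕ => if q - m * i + m * n = 0 then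
        (p.choose i : ℂ) * (starRingEnd ℂ) a ^ i * cn p n a else 0)
        (if (m : ℤ) ∣ q then (if q / m ≤ i then
          (p.choose i : ℂ) * (starRingEnd ℂ) a ^ i * cn p ((i - q / m : ℤ).toNat) a else 0)
          else 0) := by
      intro i _
      by_cases hd : (m : ℤ) ∣ q
      · obtain ⟨j, rfl⟩ := hd
        have hj : (m : ℤ) * j / m = j := Int.mul_ediv_cancel_left _ hmz
        rw [if_pos (dvd_mul_right _ _), hj]
        have hiff : ∀ n : ℕ, ((m : ℤ) * j - m * i + m * n = 0) ↔ (j ≤ i ∧ n = (i - j : ℤ).toNat) := by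
          intro n
          have e : (m : ℤ) * j - m * i + m * n = m * (j - i + n) := by ring
          rw [e, mul_eq_zero]
          constructor
          · rintro (h | h)
            · exact absurd h hmz
            · constructor <;> omega
          · rintro ⟨h1, h2⟩
            right; omega
        by_cases hji : j ≤ i
        · rw [if_pos hji]
          have h2 := hasSum_ite_eq ((i - j : ℤ).toNat)
            ((p.choose i : ℂ) * (starRingEnd ℂ) a ^ i * cn p ((i - j : ℤ).toNat) a)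
          convert h2 using 1
          funext n
          by_cases hn : n = (i - j : ℤ).toNat
          · rw [if_pos ((hiff n).2 ⟨hji, hn⟩), if_pos hn, hn]
          · rw [if_neg (fun h => hn ((hiff n).1 h).2), if_neg hn]
        · rw [if_neg hji]
          convert hasSum_zero using 1
          funext n
          rw [if_neg (fun h => hji ((hiff n).1 h).1)]
      · rw [if_neg hd]
        convert hasSum_zero using 1
        funext n
        rw [if_neg]
        intro h
        apply hd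
        exact ⟨i - n, by linear_combination h⟩
    have h3 := hasSum_sum hi
    convert h3 using 1
    by_cases hd : (m : ℤ) ∣ q
    · simp only [if_pos hd, cc]
    · simp only [if_neg hd, Finset.sum_const_zero]
  rw [show (fun n => av (F n)) = fun n : ℕ => ∑ i ∈ Finset.range (p + 1),
    if q - m * i + m * n = 0 then (p.choose i : ℂ) * (starRingEnd ℂ) a ^ i * cn p n a else 0
    from funext hterm] at hav
  exact hav.unique hfin

/-- negative powers, by conjugation -/
theorem av_bla_inv (m : ℕ) (hm : 1 ≤ m) (p : ℕ) (q : ℤ) {a : ℂ} (ha : ‖a‖ < 1) :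
    av (fun θ => ee ((q : ℝ) * θ) * (bla a (ee ((m : ℝ) * θ)))⁻¹ ^ p) =
      if (m : ℤ) ∣ q then (starRingEnd ℂ) (cc a p (-(q / m))) else 0 := by
  have h := congrArg (starRingEnd ℂ) (av_bla m hm p (-q) ha)
  have h1 : (starRingEnd ℂ) (av (fun θ => ee (((-q : ℤ) : ℝ) * θ) *
      bla a (ee ((m : ℝ) * θ)) ^ p)) =
      av (fun θ => ee ((q : ℝ) * θ) * (bla a (ee ((m : ℝ) * θ)))⁻¹ ^ p) := by
    unfold av
    rw [map_mul]
    congr 1
    · simp [Complex.conj_ofReal, Complex.conj_ofNat]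
    · rw [intervalIntegral.integral_of_le (by positivity),
        intervalIntegral.integral_of_le (by positivity), ← integral_conj]
      apply integral_congr_ae
      apply Eventually.of_forall
      intro θ
      simp only [map_mul, map_pow]
      rw [conj_bla ha (norm_ee _), ← ee_neg]
      congr 2
      push_cast
      ring
  rw [← h1, h]
  by_cases hd : (m : ℤ) ∣ q
  · rw [if_pos hd, if_pos (hd.neg_right)]
    congr 2
    exact Int.neg_ediv_of_dvd hd
  · rw [if_neg hd, if_neg (fun h => hd ((Int.dvd_neg).1 h)), map_zero]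

/-- the average of a function of norm at most one has norm at most one -/
theorem norm_av_le {f : ℝ → ℂ} {C : ℝ} (h : ∀ θ, ‖f θ‖ ≤ C) : ‖av f‖ ≤ C := by
  unfold av
  rw [norm_mul]
  have h1 : ‖∫ θ in (0 : ℝ)..(2 * Real.pi), f θ‖ ≤ C * |2 * Real.pi - 0| :=
    intervalIntegral.norm_integral_le_of_norm_le_const fun θ _ => h θ
  have hpi := Real.pi_pos
  have h2 : ‖(1 / (2 * Real.pi) : ℂ)‖ = 1 / (2 * Real.pi) := by
    rw [norm_div, norm_mul, norm_one, Complex.norm_real, Complex.norm_ofNat,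
      Real.norm_of_nonneg hpi.le]
  rw [h2]
  rw [sub_zero, abs_of_pos (by positivity)] at h1
  calc 1 / (2 * Real.pi) * ‖∫ θ in (0 : ℝ)..(2 * Real.pi), f θ‖
      ≤ 1 / (2 * Real.pi) * (C * (2 * Real.pi)) := by
        apply mul_le_mul_of_nonneg_left h1 (by positivity)
    _ = C := by field_simp

theorem norm_cc_le {a : ℂ} (ha : ‖a‖ < 1) (p : ℕ) (j : ℤ) : ‖cc a p j‖ ≤ 1 := by
  have h := av_bla 1 le_rfl p j ha
  rw [if_pos (by simp)] at h
  simp only [Nat.cast_one, Int.ediv_one] at h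
  rw [← h]
  apply norm_av_le
  intro θ
  rw [norm_mul, norm_pow, norm_ee, norm_bla ha (norm_ee _)]
  simp

/-- the phase -/
noncomputable def psi (d : ℝ) (a : ℂ) (θ : ℝ) : ℝ := d + 4 * (1 + a * ee (3 * θ)).arg

theorem measurable_psi (d : ℝ) (a : ℂ) : Measurable (psi d a) := by
  unfold psi
  have h : Continuous fun θ : ℝ => 1 + a * ee (3 * θ) :=
    continuous_const.add (continuous_const.mul (continuous_ee.comp (by fun_prop)))
  exact measurable_const.add ((Complex.measurable_arg.comp h.measurable).const_mul 4)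

theorem ee_psi_half (d : ℝ) {a : ℂ} (ha : ‖a‖ < 1) (θ : ℝ) :
    ee (psi d a θ / 2) = ee (d / 2) * (bla a (ee (3 * θ)))⁻¹ := by
  have hne := one_add_ne ha (norm_ee (3 * θ))
  set z := 1 + a * ee (3 * θ) with hz
  have e1 : psi d a θ / 2 = d / 2 + (z.arg + z.arg) := by
    unfold psi; rw [← hz]; ring
  rw [e1, ee_add, ee_add]
  congr 1
  have h1 : ee z.arg = z / (‖z‖ : ℂ) := by
    have h2 : (‖z‖ : ℂ) ≠ 0 := by exact_mod_cast norm_ne_zero_iff.2 hne
    rw [eq_div_iff h2, mul_comm]
    exact Complex.norm_mul_exp_arg_mul_I z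
  have h3 : bla a (ee (3 * θ)) = (starRingEnd ℂ) z / z := by
    unfold bla; rw [hz]; simp [map_add, map_mul]
  have h4 : (starRingEnd ℂ) z ≠ 0 := (map_ne_zero _).2 hne
  have h5 : (‖z‖ : ℂ) * (‖z‖ : ℂ) = z * (starRingEnd ℂ) z := by
    rw [Complex.mul_conj, Complex.normSq_eq_norm_sq]; push_cast; ring
  rw [h1, h3, inv_div, div_mul_div_comm, h5, mul_div_mul_left _ _ hne]

theorem abs_psi_le (d : ℝ) {a : ℂ} (ha : ‖a‖ < 1) (θ : ℝ) :
    |psi d a θ - d| ≤ 4 * Real.arcsin ‖a‖ := by
  have hne := one_add_ne ha (norm_ee (3 * θ))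
  set z := 1 + a * ee (3 * θ) with hz
  have e1 : psi d a θ - d = 4 * z.arg := by unfold psi; rw [← hz]; ring
  rw [e1, abs_mul, abs_of_pos (by norm_num : (0 : ℝ) < 4)]
  apply mul_le_mul_of_nonneg_left _ (by norm_num)
  have hn : ‖a * ee (3 * θ)‖ = ‖a‖ := by rw [norm_mul, norm_ee, mul_one]
  have hsq : (z.re - 1) ^ 2 + z.im ^ 2 = ‖a‖ ^ 2 := by
    rw [← hn, ← Complex.normSq_eq_norm_sq, Complex.normSq_apply, hz]
    simp only [Complex.add_re, Complex.one_re, Complex.add_im, Complex.one_im]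
    ring
  have hre : 0 < z.re := by
    have h0 := norm_nonneg a
    nlinarith [sq_nonneg z.im]
  have hzn : ‖z‖ ^ 2 = z.re ^ 2 + z.im ^ 2 := by
    rw [← Complex.normSq_eq_norm_sq, Complex.normSq_apply]; ring
  have hzp : 0 < ‖z‖ := norm_pos_iff.2 hne
  rw [Complex.arg_of_re_nonneg hre.le]
  have key : |z.im / ‖z‖| ≤ ‖a‖ := by
    rw [abs_div, abs_of_pos hzp, div_le_iff₀ hzp]
    apply abs_le_of_sq_le_sq _ (by positivity)
    rw [mul_pow, hzn]
    nlinarith [sq_nonneg (z.re - 1 + ‖a‖ ^ 2)]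
  rw [abs_le]
  obtain ⟨k1, k2⟩ := abs_le.1 key
  constructor
  · rw [← Real.arcsin_neg]; exact Real.monotone_arcsin k1
  · exact Real.monotone_arcsin k2

theorem psi_periodic (d : ℝ) (a : ℂ) (θ : ℝ) : psi d a (θ + 2 * Real.pi / 3) = psi d a θ := by
  unfold psi
  have : ee (3 * (θ + 2 * Real.pi / 3)) = ee (3 * θ) := by
    rw [← ee_per (3 * θ)]
    congr 1
    ring
  rw [this]

end Helper95.RC
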