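import Pool.Agent.Helper44.RC.M_MID
import Pool.Agent.Helper87.RC.M_BIL
import Pool.Agent.Helper95.RC.M_BLA

/-!
# Project RC, SHARP, link 3: Fourier evaluation of the shifted selection (statements)

`SH ψ f g`: the (complex) shift form; `shiftG` says `N0 A B v - 2 Im (SH ψ (G1 A v) (G2 B v)) ≤ AQQG A B v`.
`Kc ψ m n`: its entry for the pure harmonics `ee (m φ)`, `ee (n φ)`.
-/

open MeasureTheory Set Filter Topology

namespace Helper95.RC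

open Helper49.LT hiding sg
open Helper87.RC (Fam BM)
open Helper56.RC (fc)
open Helper44.RCG (G1 G2 N0)

/-- the shift form -/
noncomputable def SH (ψ : ℝ → ℝ) (f g : ℝ → ℂ) : ℂ :=
  (1 / (2 * Real.pi) : ℂ) * ∫ φ in (0 : ℝ)..(2 * Real.pi), ∫ u in (0 : ℝ)..(ψ φ),
    f (φ + u / 2) * (starRingEnd ℂ) (g (φ - u / 2))

/-- the mean of the square -/
noncomputable def ms (f : ℝ → ℂ) : ℝ :=
  (1 / (2 * Real.pi)) * ∫ t in (0 : ℝ)..(2 * Real.pi), ‖f t‖ ^ 2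

/-- the entry of the shift form for pure harmonics -/
noncomputable def Kc (ψ : ℝ → ℝ) (m n : ℤ) : ℂ :=
  if m + n = 0 then av (fun φ => (ψ φ : ℂ) * ee (((m - n : ℤ) : ℝ) * φ))
  else (2 / (Complex.I * ((m + n : ℤ) : ℂ))) *
    (av (fun φ => ee (((m - n : ℤ) : ℝ) * φ) * ee (((m + n : ℤ) : ℝ) * (ψ φ / 2)))
      - if m = n then 1 else 0)

/-- SHB (helper95). Continuity of the shift form in the quadratic mean. -/
def StSHB : Prop := ∀ (f g : ℝ → ℂ) (C D P : ℝ) (ψ : ℝ → ℝ), BM f C → BM g D →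
  (∀ t, f (t + 2 * Real.pi) = f t) → (∀ t, g (t + 2 * Real.pi) = g t) → Measurable ψ → (∀ t, |ψ t| ≤ P) →
  ‖SH ψ f g‖ ≤ 2 * P * (Real.sqrt (ms f) * Real.sqrt (ms g))

/-- SHL (helper95). The shift form is the limit of its trigonometric sections. -/
def StSHL : Prop := ∀ (f g : ℝ → ℂ) (C D P : ℝ) (ψ : ℝ → ℝ), BM f C → BM g D →
  (∀ t, f (t + 2 * Real.pi) = f t) → (∀ t, g (t + 2 * Real.pi) = g t) → Measurable ψ → (∀ t, |ψ t| ≤ P) →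
  Tendsto (fun N : ℕ => ∑ m ∈ Finset.Icc (-(N : ℤ)) N, ∑ n ∈ Finset.Icc (-(N : ℤ)) N,
    fc f m * (starRingEnd ℂ) (fc g n) * Kc ψ m n) atTop (𝓝 (SH ψ f g))

/-- NZ (helper87). The natural part: with `Y = Y2 A B v θ θ` one has `fc Y m = (2/(i m)) (fc G1 m + fc G2 m)` for `m ≠ 0`
(odd `m`: `A t = (G1 (t + π/3) - G1 (t + 4π/3))/2`; even `m`: `G1 θ = v (θ - π/3)`, `G2 θ = -v (θ - 2π/3)` up to odd
harmonics) and `fc G1 0 + fc G2 0 = 0`; then Parseval (`pars2`). The term `m = 0` is zero (division by zero). -/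
def StNZ : Prop := ∀ (A B v : ℝ → ℂ) (C : ℝ), Fam A B v C →
  HasSum (fun m : ℤ => ‖fc (G1 A v) m + fc (G2 B v) m‖ ^ 2 / (m : ℝ)) (N0 A B v)

/-- the section of order `N` of `N0 - 2 Im SH` in terms of the coefficients `a = fc G1`, `b = fc G2` -/
noncomputable def NF (ψ : ℝ → ℝ) (N : ℕ) (a b : ℤ → ℂ) : ℝ :=
  ∑ m ∈ Finset.Icc (-(N : ℤ)) N, ‖a m + b m‖ ^ 2 / (m : ℝ)
  - 2 * (∑ m ∈ Finset.Icc (-(N : ℤ)) N, ∑ n ∈ Finset.Icc (-(N : ℤ)) N,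
      a m * (starRingEnd ℂ) (b n) * Kc ψ m n).im

/-- LINK 3: every lower bound for the sections is a lower bound for `AQQG`. -/
def StL3 : Prop := ∀ (A B v : ℝ → ℂ) (C : ℝ) (ψ : ℝ → ℝ), Fam A B v C → Helper87.RC.QQ A B v →
  Measurable ψ → (∀ φ, ψ (φ + 2 * Real.pi) = ψ φ) → (∀ φ, |ψ φ| ≤ Real.pi / 3) →
  ∃ L : ℝ, Tendsto (fun N : ℕ => NF ψ N (fc (G1 A v)) (fc (G2 B v))) atTop (𝓝 L) ∧
    L ≤ Helper44.RCG.AQQG A B v

end Helper95.RC
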