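import Pool.Agent.Helper95.RC.Lim
import Pool.Agent.Helper87.RC.M_NZ
import Pool.Agent.Helper87.RC.M_EV
import Pool.Agent.Helper44.RC.M_BRQ

/-!
# Project RC, SHARP: the Fourier coefficients of the families in the gauge `q`

`wc, pc, rc, sc`: the coefficients of `w`, `w b₂`, `w b₃`, `w z`. The coefficients of the families 1 and 2 are
the linear expressions `c1`, `c2` in these four sequences.
-/

open MeasureTheory Set Filter Topology

namespace Helper95.RC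

open Helper49.LT hiding sg
open Helper49.RC (om)
open Helper87.RC (Fam BM intg_of_bddC intg_of_bdd fc_eq fc_sub fc_cmul fc_add fc_conj pars pars2 fc_G1 fc_G2)
open Helper56.RC (fc)
open Helper44.RCG (G1 G2 N0 Hex)
open Helper44.GQ (aQ cQ AdmQ A0Q AAQ BBQ FMQ mQ Rq F1Q F2Q)
open Helper49.RC (vvS Wgt)

/-- the coefficients of `w` -/
noncomputable def wc (w : ℝ → ℝ) : ℤ → ℂ := fc fun t => (w t : ℂ)
/-- the coefficients of `w b₂` -/
noncomputable def pc (w : ℝ → ℝ) (b : ℝ → ℂ) : ℤ → ℂ := fc fun t => ((w t * (b t).re : ℝ) : ℂ)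
/-- the coefficients of `w b₃` -/
noncomputable def rc (w : ℝ → ℝ) (b : ℝ → ℂ) : ℤ → ℂ := fc fun t => ((w t * (b t).im : ℝ) : ℂ)
/-- the coefficients of `w z` -/
noncomputable def sc (w : ℝ → ℝ) (z : ℝ → ℂ) : ℤ → ℂ := fc fun t => (w t : ℂ) * z t

/-- the coefficient of `b₃` in the edge 1 -/
noncomputable def kq (q : ℝ) : ℂ := ((q * (Real.sqrt 3 / 2) : ℝ) : ℂ) + Complex.I * ((1 / (2 * q) : ℝ) : ℂ)

/-- the coefficients of the family 1 -/
noncomputable def c1 (q : ℝ) (W p r s : ℤ → ℂ) (m : ℤ) : ℂ :=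
  ee (-(m : ℝ) * (Real.pi / 3)) *
    (om * W (m - 1) + (starRingEnd ℂ) om * p (m - 1) + kq q * r (m - 1) + s (m - 1))

/-- the coefficients of the family 2 -/
noncomputable def c2 (q : ℝ) (W p r s : ℤ → ℂ) (m : ℤ) : ℂ :=
  ee (-(m : ℝ) * (2 * Real.pi / 3)) *
    (om ^ 2 * W (m - 1) + (starRingEnd ℂ) om ^ 2 * p (m - 1) + (starRingEnd ℂ) (kq q) * r (m - 1) - s (m - 1))

theorem om_val : om = (1 / 2 : ℂ) + Complex.I * ((Real.sqrt 3 / 2 : ℝ) : ℂ) := by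
  unfold om
  apply Complex.ext
  · rw [ee_re, Real.cos_pi_div_three]; simp
  · rw [ee_im, Real.sin_pi_div_three]; simp

theorem om_conj : (starRingEnd ℂ) om = (1 / 2 : ℂ) - Complex.I * ((Real.sqrt 3 / 2 : ℝ) : ℂ) := by
  rw [om_val]
  simp only [map_add, map_mul, Complex.conj_I, Complex.conj_ofReal, map_div₀, map_one, Complex.conj_ofNat]
  ring

theorem s3C : ((Real.sqrt 3 / 2 : ℝ) : ℂ) ^ 2 = 3 / 4 := by
  rw [← Complex.ofReal_pow, div_pow, Real.sq_sqrt (by norm_num)]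
  push_cast
  norm_num

theorem om_sq : om ^ 2 = -(1 / 2 : ℂ) + Complex.I * ((Real.sqrt 3 / 2 : ℝ) : ℂ) := by
  rw [om_val]
  have h := s3C
  have hI := Complex.I_sq
  linear_combination ((Real.sqrt 3 / 2 : ℝ) : ℂ) ^ 2 * hI - h

theorem om_conj_sq : (starRingEnd ℂ) om ^ 2 = -(1 / 2 : ℂ) - Complex.I * ((Real.sqrt 3 / 2 : ℝ) : ℂ) := by
  rw [om_conj]
  have h := s3C
  have hI := Complex.I_sq
  linear_combination ((Real.sqrt 3 / 2 : ℝ) : ℂ) ^ 2 * hI - h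

theorem edge1 {q : ℝ} (b : ℂ) : cQ q b + 1 / 2 * aQ q b =
    om + (starRingEnd ℂ) om * (b.re : ℂ) + kq q * (b.im : ℂ) := by
  rw [om_conj, om_val]
  unfold cQ aQ kq
  push_cast
  ring

theorem edge2 {q : ℝ} (b : ℂ) : cQ q b - 1 / 2 * aQ q b =
    om ^ 2 + (starRingEnd ℂ) om ^ 2 * (b.re : ℂ) + (starRingEnd ℂ) (kq q) * (b.im : ℂ) := by
  rw [om_conj_sq, om_sq]
  unfold cQ aQ kq
  simp only [map_add, map_mul, Complex.conj_I, Complex.conj_ofReal]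
  push_cast
  ring

theorem bm_real {u : ℝ → ℝ} {C : ℝ} (hm : Measurable u) (hb : ∀ t, |u t| ≤ C) :
    BM (fun t => (u t : ℂ)) C :=
  ⟨Complex.measurable_ofReal.comp hm, fun t => by rw [Complex.norm_real, Real.norm_eq_abs]; exact hb t⟩

section

variable {q : ℝ} {b z : ℝ → ℂ} {w : ℝ → ℝ}

theorem bmw (hw : Wgt w) : ∃ C, BM (fun t => (w t : ℂ)) C := by
  obtain ⟨C, hC⟩ := hw.bd
  exact ⟨C, bm_real hw.m fun t => by rw [abs_of_nonneg (hw.nonneg t)]; exact hC t⟩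

theorem bmp (h : AdmQ q b z) (hw : Wgt w) : ∃ C, BM (fun t => ((w t * (b t).re : ℝ) : ℂ)) C := by
  obtain ⟨C, hC⟩ := hw.bd
  obtain ⟨δ, hδ, hb⟩ := h.bdb
  refine ⟨C * 1, bm_real (hw.m.mul (Complex.measurable_re.comp h.mb)) fun t => ?_⟩
  show |w t * (b t).re| ≤ C * 1
  rw [abs_mul, abs_of_nonneg (hw.nonneg t)]
  exact mul_le_mul (hC t) ((Complex.abs_re_le_norm _).trans (by linarith [hb t])) (abs_nonneg _)
    ((hw.nonneg t).trans (hC t))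

theorem bmr (h : AdmQ q b z) (hw : Wgt w) : ∃ C, BM (fun t => ((w t * (b t).im : ℝ) : ℂ)) C := by
  obtain ⟨C, hC⟩ := hw.bd
  obtain ⟨δ, hδ, hb⟩ := h.bdb
  refine ⟨C * 1, bm_real (hw.m.mul (Complex.measurable_im.comp h.mb)) fun t => ?_⟩
  show |w t * (b t).im| ≤ C * 1
  rw [abs_mul, abs_of_nonneg (hw.nonneg t)]
  exact mul_le_mul (hC t) ((Complex.abs_im_le_norm _).trans (by linarith [hb t])) (abs_nonneg _)
    ((hw.nonneg t).trans (hC t))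

theorem bms (hq : 0 < q) (h : AdmQ q b z) (hw : Wgt w) : ∃ C, BM (fun t => (w t : ℂ) * z t) C := by
  obtain ⟨C, hC⟩ := Helper44.GQ.hexQ hq h hw
  refine ⟨C, ⟨(Complex.measurable_ofReal.comp hw.m).mul h.mz, fun t => ?_⟩⟩
  have h1 := hC.q.bv t
  unfold vvS at h1
  rw [norm_mul, norm_mul, norm_ee, one_mul] at h1
  rw [norm_mul]
  exact h1

theorem fc_AAQ (h : AdmQ q b z) (hw : Wgt w) (n : ℤ) : fc (AAQ w q b) n =
    om * wc w (n - 1) + (starRingEnd ℂ) om * pc w b (n - 1) + kq q * rc w b (n - 1) := by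
  obtain ⟨C1, h1⟩ := bmw hw
  obtain ⟨C2, h2⟩ := bmp h hw
  obtain ⟨C3, h3⟩ := bmr h hw
  have e : AAQ w q b = fun t => ee (((1 : ℤ) : ℝ) * t) * (((om * (w t : ℂ)) +
      (starRingEnd ℂ) om * ((w t * (b t).re : ℝ) : ℂ)) + kq q * ((w t * (b t).im : ℝ) : ℂ)) := by
    funext t
    unfold AAQ
    rw [edge1]
    push_cast
    rw [one_mul]
    ring
  rw [e, Helper87.RC.fc_ee, fc_add ((h1.cmul om).add (h2.cmul _)) (h3.cmul _), fc_add (h1.cmul om) (h2.cmul _),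
    fc_cmul, fc_cmul, fc_cmul]
  rfl

theorem fc_BBQ (h : AdmQ q b z) (hw : Wgt w) (n : ℤ) : fc (BBQ w q b) n =
    om ^ 2 * wc w (n - 1) + (starRingEnd ℂ) om ^ 2 * pc w b (n - 1) + (starRingEnd ℂ) (kq q) * rc w b (n - 1) := by
  obtain ⟨C1, h1⟩ := bmw hw
  obtain ⟨C2, h2⟩ := bmp h hw
  obtain ⟨C3, h3⟩ := bmr h hw
  have e : BBQ w q b = fun t => ee (((1 : ℤ) : ℝ) * t) * (((om ^ 2 * (w t : ℂ)) +
      (starRingEnd ℂ) om ^ 2 * ((w t * (b t).re : ℝ) : ℂ)) + (starRingEnd ℂ) (kq q) * ((w t * (b t).im : ℝ) : ℂ)) := by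
    funext t
    unfold BBQ
    rw [edge2]
    push_cast
    rw [one_mul]
    ring
  rw [e, Helper87.RC.fc_ee, fc_add ((h1.cmul _).add (h2.cmul _)) (h3.cmul _), fc_add (h1.cmul _) (h2.cmul _),
    fc_cmul, fc_cmul, fc_cmul]
  rfl

theorem fc_vvS (n : ℤ) : fc (vvS w z) n = sc w z (n - 1) := by
  have e : vvS w z = fun t => ee (((1 : ℤ) : ℝ) * t) * ((w t : ℂ) * z t) := by
    funext t
    unfold vvS
    push_cast
    rw [one_mul]
    ring
  rw [e, Helper87.RC.fc_ee]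
  rfl

/-- the coefficients of the family 1 -/
theorem fc_F1Q (hq : 0 < q) (h : AdmQ q b z) (hw : Wgt w) (m : ℤ) :
    fc (F1Q w q b z) m = c1 q (wc w) (pc w b) (rc w b) (sc w z) m := by
  obtain ⟨C, hC⟩ := Helper44.GQ.hexQ hq h hw
  unfold F1Q c1
  rw [fc_G1 hC.q, fc_AAQ h hw, fc_vvS]

/-- the coefficients of the family 2 -/
theorem fc_F2Q (hq : 0 < q) (h : AdmQ q b z) (hw : Wgt w) (m : ℤ) :
    fc (F2Q w q b z) m = c2 q (wc w) (pc w b) (rc w b) (sc w z) m := by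
  obtain ⟨C, hC⟩ := Helper44.GQ.hexQ hq h hw
  unfold F2Q c2
  rw [fc_G2 hC.q, fc_BBQ h hw, fc_vvS]

/-- parity -/
theorem pc_odd (h : AdmQ q b z) (hw : Wgt w) {n : ℤ} (hn : ¬ Even n) : pc w b n = 0 := by
  obtain ⟨C2, h2⟩ := bmp h hw
  exact Helper87.RC.fc_perpi h2 (fun t => by
    show ((w (t + Real.pi) * (b (t + Real.pi)).re : ℝ) : ℂ) = _
    rw [hw.per, h.perb]) (Int.not_even_iff_odd.1 hn)

theorem rc_odd (h : AdmQ q b z) (hw : Wgt w) {n : ℤ} (hn : ¬ Even n) : rc w b n = 0 := by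
  obtain ⟨C2, h2⟩ := bmr h hw
  exact Helper87.RC.fc_perpi h2 (fun t => by
    show ((w (t + Real.pi) * (b (t + Real.pi)).im : ℝ) : ℂ) = _
    rw [hw.per, h.perb]) (Int.not_even_iff_odd.1 hn)

theorem sc_even (hq : 0 < q) (h : AdmQ q b z) (hw : Wgt w) {n : ℤ} (hn : Even n) : sc w z n = 0 := by
  obtain ⟨C2, h2⟩ := bms hq h hw
  exact Helper87.RC.fc_anti h2 (fun t => by
    show (w (t + Real.pi) : ℂ) * z (t + Real.pi) = -((w t : ℂ) * z t)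
    rw [hw.per, h.perz]; ring) hn

theorem fc_real_neg (u : ℝ → ℝ) (n : ℤ) :
    fc (fun t => (u t : ℂ)) (-n) = (starRingEnd ℂ) (fc (fun t => (u t : ℂ)) n) := by
  have h := fc_conj (fun t => (u t : ℂ)) (-n)
  simp only [Complex.conj_ofReal, neg_neg] at h
  exact h

theorem pc_neg (n : ℤ) : pc w b (-n) = (starRingEnd ℂ) (pc w b n) := fc_real_neg _ n
theorem rc_neg (n : ℤ) : rc w b (-n) = (starRingEnd ℂ) (rc w b n) := fc_real_neg _ n
theorem wc_neg (n : ℤ) : wc w (-n) = (starRingEnd ℂ) (wc w n) := fc_real_neg _ n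

end

/-- LINK 3 in the gauge `q`: the sections of the quadrilateral part in terms of `wc, pc, rc, sc` -/
theorem link3Q {q : ℝ} (hq : 0 < q) {b z : ℝ → ℂ} (h : AdmQ q b z) {w : ℝ → ℝ} (hw : Wgt w)
    {ψ : ℝ → ℝ} (hψ : Measurable ψ) (hp : ∀ φ, ψ (φ + 2 * Real.pi) = ψ φ)
    (hb : ∀ φ, |ψ φ| ≤ Real.pi / 3) :
    ∃ L : ℝ, Tendsto (fun N : ℕ => NF ψ N (c1 q (wc w) (pc w b) (rc w b) (sc w z))
      (c2 q (wc w) (pc w b) (rc w b) (sc w z))) atTop (𝓝 L) ∧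
      L ≤ Helper44.RCG.AQQG (AAQ w q b) (BBQ w q b) (vvS w z) := by
  obtain ⟨C, hC⟩ := Helper44.GQ.hexQ hq h hw
  obtain ⟨L, h1, h2⟩ := hL3 Helper87.RC.hNZ _ _ _ C ψ hC.q (Helper44.GQ.qqQ hq h hw) hψ hp hb
  refine ⟨L, ?_, h2⟩
  have e1 : fc (G1 (AAQ w q b) (vvS w z)) = c1 q (wc w) (pc w b) (rc w b) (sc w z) :=
    funext fun m => fc_F1Q hq h hw m
  have e2 : fc (G2 (BBQ w q b) (vvS w z)) = c2 q (wc w) (pc w b) (rc w b) (sc w z) :=
    funext fun m => fc_F2Q hq h hw m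
  rw [e1, e2] at h1
  exact h1

end Helper95.RC
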