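import Pool.Agent.Helper95.RC.Exp

/-!
# Project RC, SHARP: the frame on truncated sequences

`frameT`: the sections of the frame may be taken for the truncated rests `tr N p, tr N r, tr N s` with the window `N + 1`;
on finitely supported sequences all windows `≥ N + 1` give the same value, so the sections are the full forms.
-/

open MeasureTheory Set Filter Topology

namespace Helper95.RC

open Helper49.LT hiding sg
open Helper49.RC (om)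
open Helper87.RC (Fam BM intg_of_bddC intg_of_bdd fc_eq fc_sub fc_cmul fc_add fc_conj pars pars2)
open Helper56.RC (fc)
open Helper44.RCG (G1 G2 N0 Hex A00G A0QG AQQG sgG)
open Helper44.GQ (aQ cQ AdmQ A0Q AAQ BBQ FMQ mQ Rq F1Q F2Q hexQ splQ)
open Helper49.RC (vvS Wgt)
open Pool.Agent.Helper20.RC (alQ wR wR_wgt alQ_bm alQ_per A0Q_form wt wt_wR L2w L2b L2r link2Q rg al al_ee al_abs al_meas
  im_rough int_meas target_wR link1_rot bm_wt rg_intg)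

/-- truncation -/
noncomputable def tr (N : ℕ) (f : ℤ → ℂ) (n : ℤ) : ℂ := if n ∈ Finset.Icc (-(N : ℤ)) N then f n else 0

theorem tr_sup (N : ℕ) (f : ℤ → ℂ) : Sup N (tr N f) := by
  intro n hn
  unfold tr
  rw [if_neg hn]

theorem tr_mem {N : ℕ} {f : ℤ → ℂ} {n : ℤ} (hn : n ∈ Finset.Icc (-(N : ℤ)) N) : tr N f n = f n := by
  unfold tr
  rw [if_pos hn]

/-- tails -/
theorem tail {f : ℤ → ℂ} (h : Summable fun n => ‖f n‖ ^ 2) (k : ℕ) :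
    Tendsto (fun N : ℕ => ∑ n ∈ Finset.Icc (-((N + k : ℕ) : ℤ)) ((N + k : ℕ) : ℤ), ‖f n - tr N f n‖ ^ 2)
      atTop (𝓝 0) := by
  obtain ⟨L, hL⟩ := h
  have h1 : Tendsto (fun N : ℕ => ∑ n ∈ Finset.Icc (-(N : ℤ)) N, ‖f n‖ ^ 2) atTop (𝓝 L) :=
    hL.comp tendsto_Icc_int
  have h2 := h1.comp (tendsto_add_atTop_nat k)
  have h3 := h2.sub h1
  rw [sub_self] at h3
  refine h3.congr fun N => ?_
  show (∑ n ∈ Finset.Icc (-((N + k : ℕ) : ℤ)) ((N + k : ℕ) : ℤ), ‖f n‖ ^ 2) -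
    ∑ n ∈ Finset.Icc (-(N : ℤ)) N, ‖f n‖ ^ 2 = _
  have hsub : Finset.Icc (-(N : ℤ)) N ⊆ Finset.Icc (-((N + k : ℕ) : ℤ)) ((N + k : ℕ) : ℤ) := by
    apply Finset.Icc_subset_Icc <;> push_cast <;> omega
  rw [← Finset.sum_sdiff hsub, add_sub_cancel_right, ← Finset.sum_sdiff hsub]
  have e1 : ∑ n ∈ Finset.Icc (-(N : ℤ)) N, ‖f n - tr N f n‖ ^ 2 = 0 := by
    apply Finset.sum_eq_zero
    intro n hn
    rw [tr_mem hn, sub_self, norm_zero]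
    norm_num
  rw [e1, add_zero]
  apply Finset.sum_congr rfl
  intro n hn
  rw [Finset.mem_sdiff] at hn
  rw [tr_sup N f n hn.2, sub_zero]

theorem ms_tp (S : Finset ℤ) (a : ℤ → ℂ) : ms (tp S a) = ∑ m ∈ S, ‖a m‖ ^ 2 := by
  classical
  have h1 := pars (tp_BM S a)
  have h2 : HasSum (fun n => ‖fc (tp S a) n‖ ^ 2) (∑ n ∈ S, ‖fc (tp S a) n‖ ^ 2) :=
    hasSum_sum_of_ne_finset_zero (fun n hn => by simp [fc_tp, hn])
  have h3 : ∑ n ∈ S, ‖fc (tp S a) n‖ ^ 2 = ∑ n ∈ S, ‖a n‖ ^ 2 :=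
    Finset.sum_congr rfl fun n hn => by simp [fc_tp, hn]
  rw [h3] at h2
  exact h1.unique h2

/-- the bound for the shift form on sequences -/
theorem Kc_le {ψ : ℝ → ℝ} {P : ℝ} (hψ : Measurable ψ) (hP : ∀ t, |ψ t| ≤ P) (S : Finset ℤ) (a b : ℤ → ℂ) :
    ‖∑ m ∈ S, ∑ n ∈ S, a m * (starRingEnd ℂ) (b n) * Kc ψ m n‖ ≤
      2 * P * (Real.sqrt (∑ m ∈ S, ‖a m‖ ^ 2) * Real.sqrt (∑ m ∈ S, ‖b m‖ ^ 2)) := by
  rw [← SH_tp hψ hP, ← ms_tp, ← ms_tp]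
  exact hSHB _ _ _ _ P ψ (tp_BM S a) (tp_BM S b) (tp_per S a) (tp_per S b) hψ hP

/-- the bound for the bilinear part of link 2 on sequences -/
theorem Bc_le {φ : ℝ → ℝ} (hφ : Measurable φ) (S : Finset ℤ) (a g : ℤ → ℂ)
    (hs : ∀ m ∈ S, ¬ Even m → a m = 0) :
    ‖∑ m ∈ S, ∑ n ∈ S, g n * (starRingEnd ℂ) (a m) * Bc φ m n‖ ≤
      Real.pi * (Real.sqrt (∑ m ∈ S, ‖a m‖ ^ 2) * Real.sqrt (∑ m ∈ S, ‖g m‖ ^ 2)) := by
  rw [← BA_tp hφ S S a g hs, ← ms_tp, ← ms_tp]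
  exact BA_le (tp_BM S a) (tp_pi S a hs) (tp_BM S g) hφ

theorem sq_bound {A : ℝ} (w : ℤ → ℝ) (hw : ∀ n, |w n| ≤ 1) (S : Finset ℤ) (a a' : ℤ → ℂ)
    (hA : ∑ n ∈ S, ‖a n‖ ^ 2 ≤ A) :
    |∑ n ∈ S, ‖a n‖ ^ 2 * w n - ∑ n ∈ S, ‖a' n‖ ^ 2 * w n| ≤
      2 * (Real.sqrt A * Real.sqrt (∑ n ∈ S, ‖a n - a' n‖ ^ 2)) + ∑ n ∈ S, ‖a n - a' n‖ ^ 2 := by
  rw [← Finset.sum_sub_distrib]
  have h1 : |∑ n ∈ S, (‖a n‖ ^ 2 * w n - ‖a' n‖ ^ 2 * w n)| ≤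
      ∑ n ∈ S, (2 * (‖a n‖ * ‖a n - a' n‖) + ‖a n - a' n‖ ^ 2) := by
    refine (Finset.abs_sum_le_sum_abs _ _).trans (Finset.sum_le_sum fun n _ => ?_)
    have e : ‖a n‖ ^ 2 * w n - ‖a' n‖ ^ 2 * w n = (‖a n‖ - ‖a' n‖) * (‖a n‖ + ‖a' n‖) * w n := by ring
    rw [e, abs_mul, abs_mul]
    have h2 : |‖a n‖ - ‖a' n‖| ≤ ‖a n - a' n‖ := abs_norm_sub_norm_le _ _
    have h3 : |‖a n‖ + ‖a' n‖| ≤ 2 * ‖a n‖ + ‖a n - a' n‖ := by
      rw [abs_of_nonneg (by positivity)]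
      have := norm_sub_norm_le (a' n) (a n)
      rw [norm_sub_rev] at this
      linarith
    calc |‖a n‖ - ‖a' n‖| * |‖a n‖ + ‖a' n‖| * |w n| ≤
        ‖a n - a' n‖ * (2 * ‖a n‖ + ‖a n - a' n‖) * 1 := by
          apply mul_le_mul _ (hw n) (abs_nonneg _) (by positivity)
          exact mul_le_mul h2 h3 (abs_nonneg _) (norm_nonneg _)
      _ = _ := by ring
  refine h1.trans ?_
  rw [Finset.sum_add_distrib, ← Finset.mul_sum]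
  apply add_le_add _ le_rfl
  apply mul_le_mul_of_nonneg_left _ (by norm_num)
  have h4 := Real.sum_mul_le_sqrt_mul_sqrt S (fun n => ‖a n‖) (fun n => ‖a n - a' n‖)
  refine h4.trans ?_
  apply mul_le_mul_of_nonneg_right (Real.sqrt_le_sqrt hA) (Real.sqrt_nonneg _)

/-- abstract perturbation of a bilinear expression -/
theorem bil_bound {Φ : (ℤ → ℂ) → (ℤ → ℂ) → ℂ} {P : ℝ} (hP : 0 ≤ P) (S : Finset ℤ)
    (Q : (ℤ → ℂ) → Prop)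
    (h1 : ∀ a a' b, Φ (fun n => a n - a' n) b = Φ a b - Φ a' b)
    (h2 : ∀ a b b', Φ a (fun n => b n - b' n) = Φ a b - Φ a b')
    (hb : ∀ a b, Q a → ‖Φ a b‖ ≤ P * (Real.sqrt (∑ m ∈ S, ‖a m‖ ^ 2) * Real.sqrt (∑ m ∈ S, ‖b m‖ ^ 2)))
    {a a' b b' : ℤ → ℂ} {A B : ℝ} (hA : ∑ n ∈ S, ‖a n‖ ^ 2 ≤ A) (hB : ∑ n ∈ S, ‖b n‖ ^ 2 ≤ B)
    (q1 : Q a) (q2 : Q (fun n => a n - a' n)) :
    ‖Φ a b - Φ a' b'‖ ≤ P * (Real.sqrt (∑ n ∈ S, ‖a n - a' n‖ ^ 2) * Real.sqrt B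
      + Real.sqrt A * Real.sqrt (∑ n ∈ S, ‖b n - b' n‖ ^ 2)
      + Real.sqrt (∑ n ∈ S, ‖a n - a' n‖ ^ 2) * Real.sqrt (∑ n ∈ S, ‖b n - b' n‖ ^ 2)) := by
  have e : Φ a b - Φ a' b' = Φ (fun n => a n - a' n) b + Φ a (fun n => b n - b' n)
      - Φ (fun n => a n - a' n) (fun n => b n - b' n) := by
    rw [h2, h2, h1, h1]; ring
  rw [e]
  have k1 := hb _ b q2
  have k2 := hb a (fun n => b n - b' n) q1
  have k3 := hb _ (fun n => b n - b' n) q2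
  have k1' : ‖Φ (fun n => a n - a' n) b‖ ≤ P * (Real.sqrt (∑ n ∈ S, ‖a n - a' n‖ ^ 2) * Real.sqrt B) := by
    refine k1.trans (mul_le_mul_of_nonneg_left ?_ hP)
    exact mul_le_mul_of_nonneg_left (Real.sqrt_le_sqrt hB) (Real.sqrt_nonneg _)
  have k2' : ‖Φ a (fun n => b n - b' n)‖ ≤
      P * (Real.sqrt A * Real.sqrt (∑ n ∈ S, ‖b n - b' n‖ ^ 2)) := by
    refine k2.trans (mul_le_mul_of_nonneg_left ?_ hP)
    exact mul_le_mul_of_nonneg_right (Real.sqrt_le_sqrt hA) (Real.sqrt_nonneg _)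
  refine (norm_sub_le _ _).trans ?_
  refine (add_le_add (norm_add_le _ _) le_rfl).trans ?_
  have := add_le_add (add_le_add k1' k2') k3
  refine this.trans (le_of_eq ?_)
  ring

/-- limits: the perturbed bilinear sections -/
theorem bil_lim {Φ : ℕ → (ℤ → ℂ) → (ℤ → ℂ) → ℂ} {P : ℝ} (hP : 0 ≤ P) (S : ℕ → Finset ℤ)
    (Q : (ℤ → ℂ) → Prop)
    (h1 : ∀ N a a' b, Φ N (fun n => a n - a' n) b = Φ N a b - Φ N a' b)
    (h2 : ∀ N a b b', Φ N a (fun n => b n - b' n) = Φ N a b - Φ N a b')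
    (hb : ∀ N a b, Q a → ‖Φ N a b‖ ≤
      P * (Real.sqrt (∑ m ∈ S N, ‖a m‖ ^ 2) * Real.sqrt (∑ m ∈ S N, ‖b m‖ ^ 2)))
    {a b : ℤ → ℂ} {a' b' : ℕ → ℤ → ℂ} {A B : ℝ} (hA : ∀ N, ∑ n ∈ S N, ‖a n‖ ^ 2 ≤ A)
    (hB : ∀ N, ∑ n ∈ S N, ‖b n‖ ^ 2 ≤ B) (q1 : Q a) (q2 : ∀ N, Q (fun n => a n - a' N n))
    (ta : Tendsto (fun N => ∑ n ∈ S N, ‖a n - a' N n‖ ^ 2) atTop (𝓝 0))
    (tb : Tendsto (fun N => ∑ n ∈ S N, ‖b n - b' N n‖ ^ 2) atTop (𝓝 0)) :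
    Tendsto (fun N => Φ N a b - Φ N (a' N) (b' N)) atTop (𝓝 0) := by
  have sa : Tendsto (fun N => Real.sqrt (∑ n ∈ S N, ‖a n - a' N n‖ ^ 2)) atTop (𝓝 0) := by
    have := ta.sqrt
    rwa [Real.sqrt_zero] at this
  have sb : Tendsto (fun N => Real.sqrt (∑ n ∈ S N, ‖b n - b' N n‖ ^ 2)) atTop (𝓝 0) := by
    have := tb.sqrt
    rwa [Real.sqrt_zero] at this
  apply squeeze_zero_norm (a := fun N => P * (Real.sqrt (∑ n ∈ S N, ‖a n - a' N n‖ ^ 2) * Real.sqrt B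
      + Real.sqrt A * Real.sqrt (∑ n ∈ S N, ‖b n - b' N n‖ ^ 2)
      + Real.sqrt (∑ n ∈ S N, ‖a n - a' N n‖ ^ 2) * Real.sqrt (∑ n ∈ S N, ‖b n - b' N n‖ ^ 2)))
  · intro N
    exact bil_bound hP (S N) Q (h1 N) (h2 N) (hb N) (hA N) (hB N) q1 (q2 N)
  · have := (((sa.mul_const (Real.sqrt B)).add (sb.const_mul (Real.sqrt A))).add (sa.mul sb)).const_mul P
    simpa using this

theorem sq_lim (w : ℤ → ℝ) (hw : ∀ n, |w n| ≤ 1) (S : ℕ → Finset ℤ) {a : ℤ → ℂ} {a' : ℕ → ℤ → ℂ} {A : ℝ}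
    (hA : ∀ N, ∑ n ∈ S N, ‖a n‖ ^ 2 ≤ A)
    (ta : Tendsto (fun N => ∑ n ∈ S N, ‖a n - a' N n‖ ^ 2) atTop (𝓝 0)) :
    Tendsto (fun N => ∑ n ∈ S N, ‖a n‖ ^ 2 * w n - ∑ n ∈ S N, ‖a' N n‖ ^ 2 * w n) atTop (𝓝 0) := by
  have sa : Tendsto (fun N => Real.sqrt (∑ n ∈ S N, ‖a n - a' N n‖ ^ 2)) atTop (𝓝 0) := by
    have := ta.sqrt
    rwa [Real.sqrt_zero] at this
  apply squeeze_zero_norm (a := fun N => 2 * (Real.sqrt A * Real.sqrt (∑ n ∈ S N, ‖a n - a' N n‖ ^ 2))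
    + ∑ n ∈ S N, ‖a n - a' N n‖ ^ 2)
  · intro N
    exact sq_bound w hw (S N) a (a' N) (hA N)
  · have := ((sa.const_mul (Real.sqrt A)).const_mul 2).add ta
    simpa using this

theorem inv_le_one (n : ℤ) : |1 / (n : ℝ)| ≤ 1 := by
  by_cases h0 : n = 0
  · subst h0; simp
  · have h3 : (1 : ℤ) ≤ |n| := Int.one_le_abs h0
    have h4 : (1 : ℝ) ≤ |(n : ℝ)| := by
      have h5 : ((|n| : ℤ) : ℝ) = |(n : ℝ)| := by push_cast; rfl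
      rw [← h5]
      exact_mod_cast h3
    rw [abs_div, abs_one]
    exact (div_le_one (by linarith)).2 h4

/-- perturbation of `NF` -/
theorem NF_lim {ψ : ℝ → ℝ} {P : ℝ} (hψ : Measurable ψ) (hP : ∀ t, |ψ t| ≤ P) (k : ℕ)
    {a b : ℤ → ℂ} {a' b' : ℕ → ℤ → ℂ}
    (sa : Summable fun n => ‖a n‖ ^ 2) (sb : Summable fun n => ‖b n‖ ^ 2)
    (ta : Tendsto (fun N : ℕ => ∑ n ∈ Finset.Icc (-((N + k : ℕ) : ℤ)) ((N + k : ℕ) : ℤ), ‖a n - a' N n‖ ^ 2)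
      atTop (𝓝 0))
    (tb : Tendsto (fun N : ℕ => ∑ n ∈ Finset.Icc (-((N + k : ℕ) : ℤ)) ((N + k : ℕ) : ℤ), ‖b n - b' N n‖ ^ 2)
      atTop (𝓝 0)) :
    Tendsto (fun N : ℕ => NF ψ (N + k) a b - NF ψ (N + k) (a' N) (b' N)) atTop (𝓝 0) := by
  set S : ℕ → Finset ℤ := fun N => Finset.Icc (-((N + k : ℕ) : ℤ)) ((N + k : ℕ) : ℤ) with hS
  have hP0 : 0 ≤ P := (abs_nonneg _).trans (hP 0)
  have hA : ∀ N, ∑ n ∈ S N, ‖a n‖ ^ 2 ≤ ∑' n, ‖a n‖ ^ 2 := fun N =>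
    sa.sum_le_tsum _ (fun n _ => by positivity)
  have hB : ∀ N, ∑ n ∈ S N, ‖b n‖ ^ 2 ≤ ∑' n, ‖b n‖ ^ 2 := fun N =>
    sb.sum_le_tsum _ (fun n _ => by positivity)
  have e2 : ∀ x y : ℂ, ‖x + y‖ ^ 2 ≤ 2 * ‖x‖ ^ 2 + 2 * ‖y‖ ^ 2 := by
    intro x y
    have h := norm_add_le x y
    have h0 := norm_nonneg (x + y)
    nlinarith [sq_nonneg (‖x‖ - ‖y‖), norm_nonneg x, norm_nonneg y]
  -- the natural part
  have hAB : ∀ N, ∑ n ∈ S N, ‖a n + b n‖ ^ 2 ≤ 2 * (∑' n, ‖a n‖ ^ 2) + 2 * ∑' n, ‖b n‖ ^ 2 := by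
    intro N
    refine (Finset.sum_le_sum fun n _ => e2 (a n) (b n)).trans ?_
    rw [Finset.sum_add_distrib, ← Finset.mul_sum, ← Finset.mul_sum]
    linarith [hA N, hB N]
  have tab : Tendsto (fun N => ∑ n ∈ S N, ‖(a n + b n) - (a' N n + b' N n)‖ ^ 2) atTop (𝓝 0) := by
    have h := (ta.const_mul 2).add (tb.const_mul 2)
    rw [mul_zero, add_zero] at h
    refine squeeze_zero (fun N => Finset.sum_nonneg fun n _ => by positivity) (fun N => ?_) h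
    show ∑ n ∈ S N, ‖(a n + b n) - (a' N n + b' N n)‖ ^ 2 ≤
      2 * (∑ n ∈ S N, ‖a n - a' N n‖ ^ 2) + 2 * ∑ n ∈ S N, ‖b n - b' N n‖ ^ 2
    rw [Finset.mul_sum, Finset.mul_sum, ← Finset.sum_add_distrib]
    apply Finset.sum_le_sum
    intro n _
    have e : (a n + b n) - (a' N n + b' N n) = (a n - a' N n) + (b n - b' N n) := by ring
    rw [e]
    exact e2 _ _
  have l1 := sq_lim (fun n : ℤ => 1 / (n : ℝ)) inv_le_one S (a := fun n => a n + b n)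
    (a' := fun N n => a' N n + b' N n) hAB tab
  -- the shift part
  have l2 := bil_lim (Φ := fun N a b => ∑ m ∈ S N, ∑ n ∈ S N, a m * (starRingEnd ℂ) (b n) * Kc ψ m n)
    (P := 2 * P) (by positivity) S (fun _ => True)
    (by
      intro N a a' b
      simp only
      rw [← Finset.sum_sub_distrib]
      apply Finset.sum_congr rfl
      intro m _
      rw [← Finset.sum_sub_distrib]
      apply Finset.sum_congr rfl
      intro n _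
      ring)
    (by
      intro N a b b'
      simp only
      rw [← Finset.sum_sub_distrib]
      apply Finset.sum_congr rfl
      intro m _
      rw [← Finset.sum_sub_distrib]
      apply Finset.sum_congr rfl
      intro n _
      rw [map_sub]
      ring)
    (fun N a b _ => Kc_le hψ hP (S N) a b) hA hB trivial (fun _ => trivial) ta tb
  have l3 := (Complex.continuous_im.tendsto _).comp l2
  rw [Complex.zero_im] at l3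
  have l4 := l1.sub (l3.const_mul 2)
  rw [mul_zero, sub_zero] at l4
  refine l4.congr fun N => ?_
  unfold NF
  show (∑ n ∈ S N, ‖a n + b n‖ ^ 2 * (1 / (n : ℝ)) - ∑ n ∈ S N, ‖a' N n + b' N n‖ ^ 2 * (1 / (n : ℝ)))
    - 2 * ((∑ m ∈ S N, ∑ n ∈ S N, a m * (starRingEnd ℂ) (b n) * Kc ψ m n) -
      ∑ m ∈ S N, ∑ n ∈ S N, a' N m * (starRingEnd ℂ) (b' N n) * Kc ψ m n).im = _
  rw [Complex.sub_im]
  simp only [mul_one_div]
  ring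

/-- perturbation of the bilinear part of link 2 -/
theorem LB_lim {φ1 φ2 : ℝ → ℝ} (m1 : Measurable φ1) (m2 : Measurable φ2) (k : ℕ)
    {a g1 g2 : ℤ → ℂ} {a' g1' g2' : ℕ → ℤ → ℂ}
    (oa : ∀ n, ¬ Even n → a n = 0) (oa' : ∀ N n, ¬ Even n → a' N n = 0)
    (sa : Summable fun n => ‖a n‖ ^ 2) (s1 : Summable fun n => ‖g1 n‖ ^ 2) (s2 : Summable fun n => ‖g2 n‖ ^ 2)
    (ta : Tendsto (fun N : ℕ => ∑ n ∈ Finset.Icc (-((N + k : ℕ) : ℤ)) ((N + k : ℕ) : ℤ), ‖a n - a' N n‖ ^ 2)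
      atTop (𝓝 0))
    (t1 : Tendsto (fun N : ℕ => ∑ n ∈ Finset.Icc (-((N + k : ℕ) : ℤ)) ((N + k : ℕ) : ℤ), ‖g1 n - g1' N n‖ ^ 2)
      atTop (𝓝 0))
    (t2 : Tendsto (fun N : ℕ => ∑ n ∈ Finset.Icc (-((N + k : ℕ) : ℤ)) ((N + k : ℕ) : ℤ), ‖g2 n - g2' N n‖ ^ 2)
      atTop (𝓝 0)) :
    Tendsto (fun N : ℕ => LB φ1 φ2 (N + k) a g1 g2 - LB φ1 φ2 (N + k) (a' N) (g1' N) (g2' N)) atTop (𝓝 0) := by
  set S : ℕ → Finset ℤ := fun N => Finset.Icc (-((N + k : ℕ) : ℤ)) ((N + k : ℕ) : ℤ) with hS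
  have hA : ∀ N, ∑ n ∈ S N, ‖a n‖ ^ 2 ≤ ∑' n, ‖a n‖ ^ 2 := fun N =>
    sa.sum_le_tsum _ (fun n _ => by positivity)
  have hB1 : ∀ N, ∑ n ∈ S N, ‖g1 n‖ ^ 2 ≤ ∑' n, ‖g1 n‖ ^ 2 := fun N =>
    s1.sum_le_tsum _ (fun n _ => by positivity)
  have hB2 : ∀ N, ∑ n ∈ S N, ‖g2 n‖ ^ 2 ≤ ∑' n, ‖g2 n‖ ^ 2 := fun N =>
    s2.sum_le_tsum _ (fun n _ => by positivity)
  have key : ∀ {φ : ℝ → ℝ}, Measurable φ → ∀ {g : ℤ → ℂ} {g' : ℕ → ℤ → ℂ} {B : ℝ},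
      (∀ N, ∑ n ∈ S N, ‖g n‖ ^ 2 ≤ B) →
      Tendsto (fun N => ∑ n ∈ S N, ‖g n - g' N n‖ ^ 2) atTop (𝓝 0) →
      Tendsto (fun N => (∑ m ∈ S N, ∑ n ∈ S N, g n * (starRingEnd ℂ) (a m) * Bc φ m n) -
        ∑ m ∈ S N, ∑ n ∈ S N, g' N n * (starRingEnd ℂ) (a' N m) * Bc φ m n) atTop (𝓝 0) := by
    intro φ hφ g g' B hB tg
    exact bil_lim (Φ := fun N a g => ∑ m ∈ S N, ∑ n ∈ S N, g n * (starRingEnd ℂ) (a m) * Bc φ m n)
      (P := Real.pi) Real.pi_pos.le S (fun a => ∀ n, ¬ Even n → a n = 0)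
      (by
        intro N a a' b
        simp only
        rw [← Finset.sum_sub_distrib]
        apply Finset.sum_congr rfl
        intro m _
        rw [← Finset.sum_sub_distrib]
        apply Finset.sum_congr rfl
        intro n _
        rw [map_sub]
        ring)
      (by
        intro N a b b'
        simp only
        rw [← Finset.sum_sub_distrib]
        apply Finset.sum_congr rfl
        intro m _
        rw [← Finset.sum_sub_distrib]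
        apply Finset.sum_congr rfl
        intro n _
        ring)
      (fun N a g ha => Bc_le hφ (S N) a g (fun m _ h => ha m h)) hA hB oa
      (fun N n hn => by
        show a n - a' N n = 0
        rw [oa n hn, oa' N n hn, sub_zero]) ta tg
  have l := (key m1 hB1 t1).add (key m2 hB2 t2)
  rw [add_zero] at l
  refine l.congr fun N => ?_
  unfold LB
  have e : ∀ (a g1 g2 : ℤ → ℂ), ∑ m ∈ S N, ∑ n ∈ S N,
      (g1 n * (starRingEnd ℂ) (a m) * Bc φ1 m n + g2 n * (starRingEnd ℂ) (a m) * Bc φ2 m n) =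
      ∑ m ∈ S N, ∑ n ∈ S N, g1 n * (starRingEnd ℂ) (a m) * Bc φ1 m n +
      ∑ m ∈ S N, ∑ n ∈ S N, g2 n * (starRingEnd ℂ) (a m) * Bc φ2 m n := by
    intro a g1 g2
    rw [← Finset.sum_add_distrib]
    apply Finset.sum_congr rfl
    intro m _
    rw [← Finset.sum_add_distrib]
  show _ = (∑ m ∈ S N, ∑ n ∈ S N, _) - ∑ m ∈ S N, ∑ n ∈ S N, _
  rw [e, e]
  ring

end Helper95.RC
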