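import Pool.Agent.Helper95.RC.Frame
import Pool.Agent.Helper61.RC.NFB

/-!
# Project RC, SHARP: expansion of the quadratic frame about the base

`EN = EV + EL + EQ` (value, linear part, quadratic part in the rest `p, r, s`), and the gradient lists `GP, GR, GS`
of the linear part for finitely supported rests.
-/

open MeasureTheory Set Filter Topology

namespace Helper95.RC

open Helper49.LT hiding sg
open Helper49.RC (om)
open Pool.Agent.Helper61.RC (NFB NF_add nsq_add)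

/-- the coefficients of `α` from those of `w b₂`, `w b₃` -/
noncomputable def ah (q : ℝ) (p r : ℤ → ℂ) (m : ℤ) : ℂ := p m + Complex.I / (q : ℂ) * r m

/-- the bilinear part of link 2 on the window `S` -/
noncomputable def LB (φ1 φ2 : ℝ → ℝ) (N : ℕ) (a g1 g2 : ℤ → ℂ) : ℂ :=
  ∑ m ∈ Finset.Icc (-(N : ℤ)) N, ∑ n ∈ Finset.Icc (-(N : ℤ)) N,
    (g1 n * (starRingEnd ℂ) (a m) * Bc φ1 m n + g2 n * (starRingEnd ℂ) (a m) * Bc φ2 m n)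

/-- the value at the base -/
noncomputable def EV (q : ℝ) (ψ : ℝ → ℝ) (N : ℕ) (W p0 r0 s0 : ℤ → ℂ) : ℝ :=
  ∑ n ∈ Finset.Icc (-(N : ℤ)) N, ‖W n + ah q p0 r0 n‖ ^ 2 / ((n : ℝ) + 1)
  + NF ψ N (c1 q W p0 r0 s0) (c2 q W p0 r0 s0)

/-- the linear part -/
noncomputable def EL (q : ℝ) (ψ φ1 φ2 : ℝ → ℝ) (N : ℕ) (W p0 r0 s0 p r s : ℤ → ℂ) : ℝ :=
  2 * ∑ n ∈ Finset.Icc (-(N : ℤ)) N,
    ((W n + ah q p0 r0 n) * (starRingEnd ℂ) (ah q p r n)).re / ((n : ℝ) + 1)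
  + (LB φ1 φ2 N (ah q p r) (c1 q W p0 r0 s0) (c2 q W p0 r0 s0)).im
  + 2 * NFB ψ N (c1 q W p0 r0 s0) (c2 q W p0 r0 s0) (c1 q 0 p r s) (c2 q 0 p r s)

/-- the quadratic part -/
noncomputable def EQ (q : ℝ) (ψ φ1 φ2 : ℝ → ℝ) (N : ℕ) (p r s : ℤ → ℂ) : ℝ :=
  ∑ n ∈ Finset.Icc (-(N : ℤ)) N, ‖ah q p r n‖ ^ 2 / ((n : ℝ) + 1)
  + (LB φ1 φ2 N (ah q p r) (c1 q 0 p r s) (c2 q 0 p r s)).im
  + NF ψ N (c1 q 0 p r s) (c2 q 0 p r s)

theorem c1_add (q : ℝ) (W p0 r0 s0 p r s : ℤ → ℂ) :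
    c1 q W (p0 + p) (r0 + r) (s0 + s) = fun m => c1 q W p0 r0 s0 m + c1 q 0 p r s m := by
  funext m
  unfold c1
  simp only [Pi.add_apply, Pi.zero_apply]
  ring

theorem c2_add (q : ℝ) (W p0 r0 s0 p r s : ℤ → ℂ) :
    c2 q W (p0 + p) (r0 + r) (s0 + s) = fun m => c2 q W p0 r0 s0 m + c2 q 0 p r s m := by
  funext m
  unfold c2
  simp only [Pi.add_apply, Pi.zero_apply]
  ring

theorem LB_add (φ1 φ2 : ℝ → ℝ) (N : ℕ) (a g1 g2 h1 h2 : ℤ → ℂ) :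
    LB φ1 φ2 N a (fun m => g1 m + h1 m) (fun m => g2 m + h2 m) = LB φ1 φ2 N a g1 g2 + LB φ1 φ2 N a h1 h2 := by
  unfold LB
  rw [← Finset.sum_add_distrib]
  apply Finset.sum_congr rfl
  intro m _
  rw [← Finset.sum_add_distrib]
  apply Finset.sum_congr rfl
  intro n _
  ring

/-- **expansion of the frame** -/
theorem EN_exp (q : ℝ) (ψ φ1 φ2 : ℝ → ℝ) (N : ℕ) (W p0 r0 s0 p r s : ℤ → ℂ) :
    EN q ψ φ1 φ2 N W p0 r0 s0 p r s =
      EV q ψ N W p0 r0 s0 + EL q ψ φ1 φ2 N W p0 r0 s0 p r s + EQ q ψ φ1 φ2 N p r s := by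
  unfold EN EV EL EQ
  have h1 : ∑ n ∈ Finset.Icc (-(N : ℤ)) N,
      ‖W n + (p0 n + p n) + Complex.I / (q : ℂ) * (r0 n + r n)‖ ^ 2 / ((n : ℝ) + 1) =
      ∑ n ∈ Finset.Icc (-(N : ℤ)) N, ‖W n + ah q p0 r0 n‖ ^ 2 / ((n : ℝ) + 1)
      + 2 * ∑ n ∈ Finset.Icc (-(N : ℤ)) N,
        ((W n + ah q p0 r0 n) * (starRingEnd ℂ) (ah q p r n)).re / ((n : ℝ) + 1)
      + ∑ n ∈ Finset.Icc (-(N : ℤ)) N, ‖ah q p r n‖ ^ 2 / ((n : ℝ) + 1) := by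
    rw [Finset.mul_sum, ← Finset.sum_add_distrib, ← Finset.sum_add_distrib]
    apply Finset.sum_congr rfl
    intro n _
    have e : W n + (p0 n + p n) + Complex.I / (q : ℂ) * (r0 n + r n) =
        (W n + ah q p0 r0 n) + ah q p r n := by
      unfold ah; ring
    rw [e, nsq_add]
    ring
  have h2 : (∑ m ∈ Finset.Icc (-(N : ℤ)) N, ∑ n ∈ Finset.Icc (-(N : ℤ)) N,
      (c1 q W (p0 + p) (r0 + r) (s0 + s) n * (starRingEnd ℂ) (p m + Complex.I / (q : ℂ) * r m) * Bc φ1 m n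
      + c2 q W (p0 + p) (r0 + r) (s0 + s) n * (starRingEnd ℂ) (p m + Complex.I / (q : ℂ) * r m) * Bc φ2 m n)) =
      LB φ1 φ2 N (ah q p r) (c1 q W p0 r0 s0) (c2 q W p0 r0 s0)
      + LB φ1 φ2 N (ah q p r) (c1 q 0 p r s) (c2 q 0 p r s) := by
    rw [← LB_add, ← c1_add, ← c2_add]
    rfl
  rw [h1, h2, c1_add, c2_add, NF_add, Complex.add_im]
  ring

/-! ### the gradient -/

/-- rows of the gradient of `NF`: coefficient of `h1 m` and of `conj (h2 n)` -/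
noncomputable def KA (ψ : ℝ → ℝ) (N : ℕ) (g1 g2 : ℤ → ℂ) (m : ℤ) : ℂ :=
  (starRingEnd ℂ) (g1 m + g2 m) / (m : ℂ)
    + Complex.I * ∑ n ∈ Finset.Icc (-(N : ℤ)) N, (starRingEnd ℂ) (g2 n) * Kc ψ m n
noncomputable def KB (ψ : ℝ → ℝ) (N : ℕ) (g1 g2 : ℤ → ℂ) (n : ℤ) : ℂ :=
  (g1 n + g2 n) / (n : ℂ)
    + Complex.I * ∑ m ∈ Finset.Icc (-(N : ℤ)) N, g1 m * Kc ψ m n

theorem NFB_grad (ψ : ℝ → ℝ) (N : ℕ) (g1 g2 h1 h2 : ℤ → ℂ) :
    NFB ψ N g1 g2 h1 h2 = ∑ m ∈ Finset.Icc (-(N : ℤ)) N, (h1 m * KA ψ N g1 g2 m).re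
      + ∑ n ∈ Finset.Icc (-(N : ℤ)) N, ((starRingEnd ℂ) (h2 n) * KB ψ N g1 g2 n).re := by
  have hA : ∀ m, (h1 m * KA ψ N g1 g2 m).re = ((g1 m + g2 m) * (starRingEnd ℂ) (h1 m)).re / (m : ℝ)
      - (∑ n ∈ Finset.Icc (-(N : ℤ)) N, h1 m * (starRingEnd ℂ) (g2 n) * Kc ψ m n).im := by
    intro m
    unfold KA
    rw [mul_add, Complex.add_re]
    have e1 : h1 m * ((starRingEnd ℂ) (g1 m + g2 m) / (m : ℂ)) =
        (h1 m * (starRingEnd ℂ) (g1 m + g2 m)) / ((m : ℝ) : ℂ) := by push_cast; ring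
    have e2 : h1 m * (Complex.I * ∑ n ∈ Finset.Icc (-(N : ℤ)) N, (starRingEnd ℂ) (g2 n) * Kc ψ m n) =
        Complex.I * ∑ n ∈ Finset.Icc (-(N : ℤ)) N, h1 m * (starRingEnd ℂ) (g2 n) * Kc ψ m n := by
      rw [Finset.mul_sum, Finset.mul_sum, Finset.mul_sum]
      apply Finset.sum_congr rfl
      intro n _
      ring
    rw [e1, Complex.div_ofReal_re, e2, Complex.I_mul_re]
    have e3 : (h1 m * (starRingEnd ℂ) (g1 m + g2 m)).re = ((g1 m + g2 m) * (starRingEnd ℂ) (h1 m)).re := by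
      rw [Complex.mul_re, Complex.mul_re, Complex.conj_re, Complex.conj_re, Complex.conj_im, Complex.conj_im]
      ring
    rw [e3]
    ring
  have hB : ∀ n, ((starRingEnd ℂ) (h2 n) * KB ψ N g1 g2 n).re =
      ((g1 n + g2 n) * (starRingEnd ℂ) (h2 n)).re / (n : ℝ)
      - (∑ m ∈ Finset.Icc (-(N : ℤ)) N, g1 m * (starRingEnd ℂ) (h2 n) * Kc ψ m n).im := by
    intro n
    unfold KB
    rw [mul_add, Complex.add_re]
    have e1 : (starRingEnd ℂ) (h2 n) * ((g1 n + g2 n) / (n : ℂ)) =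
        ((g1 n + g2 n) * (starRingEnd ℂ) (h2 n)) / ((n : ℝ) : ℂ) := by push_cast; ring
    have e2 : (starRingEnd ℂ) (h2 n) * (Complex.I * ∑ m ∈ Finset.Icc (-(N : ℤ)) N, g1 m * Kc ψ m n) =
        Complex.I * ∑ m ∈ Finset.Icc (-(N : ℤ)) N, g1 m * (starRingEnd ℂ) (h2 n) * Kc ψ m n := by
      rw [Finset.mul_sum, Finset.mul_sum, Finset.mul_sum]
      apply Finset.sum_congr rfl
      intro m _
      ring
    rw [e1, Complex.div_ofReal_re, e2, Complex.I_mul_re]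
    ring
  simp_rw [hA, hB]
  unfold NFB
  rw [Finset.sum_sub_distrib, Finset.sum_sub_distrib]
  have h3 : (∑ m ∈ Finset.Icc (-(N : ℤ)) N, ∑ n ∈ Finset.Icc (-(N : ℤ)) N,
      (g1 m * (starRingEnd ℂ) (h2 n) + h1 m * (starRingEnd ℂ) (g2 n)) * Kc ψ m n).im =
      ∑ n ∈ Finset.Icc (-(N : ℤ)) N, (∑ m ∈ Finset.Icc (-(N : ℤ)) N, g1 m * (starRingEnd ℂ) (h2 n) * Kc ψ m n).im
      + ∑ m ∈ Finset.Icc (-(N : ℤ)) N,
        (∑ n ∈ Finset.Icc (-(N : ℤ)) N, h1 m * (starRingEnd ℂ) (g2 n) * Kc ψ m n).im := by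
    rw [← Complex.im_sum, ← Complex.im_sum, Finset.sum_comm (s := Finset.Icc (-(N : ℤ)) N)
      (t := Finset.Icc (-(N : ℤ)) N) (f := fun n m => g1 m * (starRingEnd ℂ) (h2 n) * Kc ψ m n),
      ← Complex.add_im, ← Finset.sum_add_distrib]
    congr 1
    apply Finset.sum_congr rfl
    intro m _
    rw [← Finset.sum_add_distrib]
    apply Finset.sum_congr rfl
    intro n _
    ring
  have h4 : ∑ m ∈ Finset.Icc (-(N : ℤ)) N, ((g1 m + g2 m) * (starRingEnd ℂ) (h1 m + h2 m)).re / (m : ℝ) =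
      ∑ m ∈ Finset.Icc (-(N : ℤ)) N, ((g1 m + g2 m) * (starRingEnd ℂ) (h1 m)).re / (m : ℝ)
      + ∑ m ∈ Finset.Icc (-(N : ℤ)) N, ((g1 m + g2 m) * (starRingEnd ℂ) (h2 m)).re / (m : ℝ) := by
    rw [← Finset.sum_add_distrib]
    apply Finset.sum_congr rfl
    intro m _
    rw [map_add, mul_add, Complex.add_re, add_div]
  rw [h3, h4]
  ring

/-- the rows of the gradient of link 1 and of the bilinear part of link 2: coefficient of `ah m` -/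
noncomputable def KC (q : ℝ) (φ1 φ2 : ℝ → ℝ) (N : ℕ) (W p0 r0 g1 g2 : ℤ → ℂ) (m : ℤ) : ℂ :=
  2 * (starRingEnd ℂ) (W m + ah q p0 r0 m) / ((m : ℂ) + 1)
    + Complex.I * (starRingEnd ℂ) (∑ n ∈ Finset.Icc (-(N : ℤ)) N, (g1 n * Bc φ1 m n + g2 n * Bc φ2 m n))

theorem EL_grad (q : ℝ) (ψ φ1 φ2 : ℝ → ℝ) (N : ℕ) (W p0 r0 s0 p r s : ℤ → ℂ) :
    EL q ψ φ1 φ2 N W p0 r0 s0 p r s =
      ∑ m ∈ Finset.Icc (-(N : ℤ)) N,
        (ah q p r m * KC q φ1 φ2 N W p0 r0 (c1 q W p0 r0 s0) (c2 q W p0 r0 s0) m).re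
      + 2 * (∑ m ∈ Finset.Icc (-(N : ℤ)) N,
          (c1 q 0 p r s m * KA ψ N (c1 q W p0 r0 s0) (c2 q W p0 r0 s0) m).re
        + ∑ n ∈ Finset.Icc (-(N : ℤ)) N,
          ((starRingEnd ℂ) (c2 q 0 p r s n) * KB ψ N (c1 q W p0 r0 s0) (c2 q W p0 r0 s0) n).re) := by
  unfold EL
  rw [NFB_grad]
  congr 1
  generalize c1 q W p0 r0 s0 = g1
  generalize c2 q W p0 r0 s0 = g2
  unfold LB
  rw [Complex.im_sum, Finset.mul_sum, ← Finset.sum_add_distrib]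
  apply Finset.sum_congr rfl
  intro m _
  unfold KC
  rw [mul_add, Complex.add_re]
  congr 1
  · have e1 : ah q p r m * (2 * (starRingEnd ℂ) (W m + ah q p0 r0 m) / ((m : ℂ) + 1)) =
        ((2 / ((m : ℝ) + 1) : ℝ) : ℂ) * (ah q p r m * (starRingEnd ℂ) (W m + ah q p0 r0 m)) := by
      push_cast; ring
    rw [e1, Complex.re_ofReal_mul]
    have e3 : (ah q p r m * (starRingEnd ℂ) (W m + ah q p0 r0 m)).re =
        ((W m + ah q p0 r0 m) * (starRingEnd ℂ) (ah q p r m)).re := by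
      rw [Complex.mul_re, Complex.mul_re, Complex.conj_re, Complex.conj_re, Complex.conj_im, Complex.conj_im]
      ring
    rw [e3]
    ring
  · have e2 : ∑ n ∈ Finset.Icc (-(N : ℤ)) N, (g1 n * (starRingEnd ℂ) (ah q p r m) * Bc φ1 m n
        + g2 n * (starRingEnd ℂ) (ah q p r m) * Bc φ2 m n) =
        (starRingEnd ℂ) (ah q p r m) * ∑ n ∈ Finset.Icc (-(N : ℤ)) N, (g1 n * Bc φ1 m n + g2 n * Bc φ2 m n) := by
      rw [Finset.mul_sum]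
      apply Finset.sum_congr rfl
      intro n _
      ring
    rw [e2]
    generalize ∑ n ∈ Finset.Icc (-(N : ℤ)) N, (g1 n * Bc φ1 m n + g2 n * Bc φ2 m n) = Z
    rw [Complex.mul_im, Complex.conj_re, Complex.conj_im, Complex.mul_re, Complex.mul_re, Complex.mul_im,
      Complex.conj_re, Complex.conj_im, Complex.I_re, Complex.I_im]
    ring

/-- gradient lists (pairing `Re (x n * G n)`) -/
noncomputable def GP (q : ℝ) (ψ φ1 φ2 : ℝ → ℝ) (N : ℕ) (W p0 r0 s0 : ℤ → ℂ) (n : ℤ) : ℂ :=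
  KC q φ1 φ2 N W p0 r0 (c1 q W p0 r0 s0) (c2 q W p0 r0 s0) n
    + 2 * ((starRingEnd ℂ) om * ee (-((n + 1 : ℤ) : ℝ) * (Real.pi / 3)) *
        KA ψ N (c1 q W p0 r0 s0) (c2 q W p0 r0 s0) (n + 1)
      + (starRingEnd ℂ) om ^ 2 * ee (-((n + 1 : ℤ) : ℝ) * (2 * Real.pi / 3)) *
        (starRingEnd ℂ) (KB ψ N (c1 q W p0 r0 s0) (c2 q W p0 r0 s0) (n + 1)))
noncomputable def GR (q : ℝ) (ψ φ1 φ2 : ℝ → ℝ) (N : ℕ) (W p0 r0 s0 : ℤ → ℂ) (n : ℤ) : ℂ :=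
  Complex.I / (q : ℂ) * KC q φ1 φ2 N W p0 r0 (c1 q W p0 r0 s0) (c2 q W p0 r0 s0) n
    + 2 * (kq q * ee (-((n + 1 : ℤ) : ℝ) * (Real.pi / 3)) *
        KA ψ N (c1 q W p0 r0 s0) (c2 q W p0 r0 s0) (n + 1)
      + (starRingEnd ℂ) (kq q) * ee (-((n + 1 : ℤ) : ℝ) * (2 * Real.pi / 3)) *
        (starRingEnd ℂ) (KB ψ N (c1 q W p0 r0 s0) (c2 q W p0 r0 s0) (n + 1)))
noncomputable def GS (q : ℝ) (ψ : ℝ → ℝ) (N : ℕ) (W p0 r0 s0 : ℤ → ℂ) (n : ℤ) : ℂ :=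
  2 * (ee (-((n + 1 : ℤ) : ℝ) * (Real.pi / 3)) *
        KA ψ N (c1 q W p0 r0 s0) (c2 q W p0 r0 s0) (n + 1)
      - ee (-((n + 1 : ℤ) : ℝ) * (2 * Real.pi / 3)) *
        (starRingEnd ℂ) (KB ψ N (c1 q W p0 r0 s0) (c2 q W p0 r0 s0) (n + 1)))

/-- sequences supported in `|n| ≤ N` -/
def Sup (N : ℕ) (f : ℤ → ℂ) : Prop := ∀ n : ℤ, n ∉ Finset.Icc (-(N : ℤ)) N → f n = 0

theorem sum_shift {N M : ℕ} (hNM : N + 1 ≤ M) (F : ℤ → ℝ) (hF : ∀ n : ℤ, n ∉ Finset.Icc (-(N : ℤ)) N → F n = 0) :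
    ∑ m ∈ Finset.Icc (-(M : ℤ)) M, F (m - 1) = ∑ n ∈ Finset.Icc (-(N : ℤ)) N, F n := by
  have h1 : ∑ n ∈ Finset.Icc (-(N : ℤ)) N, F n = ∑ m ∈ Finset.Icc (-(N : ℤ) + 1) (N + 1), F (m - 1) := by
    refine Finset.sum_nbij' (fun n => n + 1) (fun m => m - 1) ?_ ?_ ?_ ?_ ?_
    · intro n hn
      rw [Finset.mem_Icc] at hn ⊢
      omega
    · intro n hn
      rw [Finset.mem_Icc] at hn ⊢
      omega
    · intro n _
      ring
    · intro n _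
      ring
    · intro n _
      simp
  rw [h1]
  symm
  apply Finset.sum_subset
  · intro m hm
    rw [Finset.mem_Icc] at hm ⊢
    omega
  · intro m _ hm
    apply hF
    rw [Finset.mem_Icc] at hm ⊢
    omega

theorem sum_ext {N M : ℕ} (hNM : N ≤ M) (F : ℤ → ℝ) (hF : ∀ n : ℤ, n ∉ Finset.Icc (-(N : ℤ)) N → F n = 0) :
    ∑ m ∈ Finset.Icc (-(M : ℤ)) M, F m = ∑ n ∈ Finset.Icc (-(N : ℤ)) N, F n := by
  symm
  apply Finset.sum_subset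
  · intro m hm
    rw [Finset.mem_Icc] at hm ⊢
    omega
  · intro m _ hm
    exact hF m hm

theorem EL_lists {q : ℝ} {ψ φ1 φ2 : ℝ → ℝ} {N M : ℕ} (hNM : N + 1 ≤ M) {W p0 r0 s0 p r s : ℤ → ℂ}
    (hp : Sup N p) (hr : Sup N r) (hs : Sup N s) :
    EL q ψ φ1 φ2 M W p0 r0 s0 p r s = ∑ n ∈ Finset.Icc (-(N : ℤ)) N,
      ((p n * GP q ψ φ1 φ2 M W p0 r0 s0 n).re + (r n * GR q ψ φ1 φ2 M W p0 r0 s0 n).re
        + (s n * GS q ψ M W p0 r0 s0 n).re) := by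
  rw [EL_grad]
  generalize hg1 : c1 q W p0 r0 s0 = g1
  generalize hg2 : c2 q W p0 r0 s0 = g2
  set F1 : ℤ → ℝ := fun n => (ah q p r n * KC q φ1 φ2 M W p0 r0 g1 g2 n).re with hF1
  set F2 : ℤ → ℝ := fun n => (ee (-((n + 1 : ℤ) : ℝ) * (Real.pi / 3)) *
    ((starRingEnd ℂ) om * p n + kq q * r n + s n) * KA ψ M g1 g2 (n + 1)).re with hF2
  set F3 : ℤ → ℝ := fun n => ((starRingEnd ℂ) (ee (-((n + 1 : ℤ) : ℝ) * (2 * Real.pi / 3)) *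
    ((starRingEnd ℂ) om ^ 2 * p n + (starRingEnd ℂ) (kq q) * r n - s n)) * KB ψ M g1 g2 (n + 1)).re with hF3
  have z1 : ∀ n : ℤ, n ∉ Finset.Icc (-(N : ℤ)) N → F1 n = 0 := by
    intro n hn
    rw [hF1]
    simp only [ah, hp n hn, hr n hn, mul_zero, add_zero, zero_mul, Complex.zero_re]
  have z2 : ∀ n : ℤ, n ∉ Finset.Icc (-(N : ℤ)) N → F2 n = 0 := by
    intro n hn
    rw [hF2]
    simp only [hp n hn, hr n hn, hs n hn, mul_zero, add_zero, zero_mul, Complex.zero_re]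
  have z3 : ∀ n : ℤ, n ∉ Finset.Icc (-(N : ℤ)) N → F3 n = 0 := by
    intro n hn
    rw [hF3]
    simp only [hp n hn, hr n hn, hs n hn, mul_zero, add_zero, sub_zero, map_zero, zero_mul, Complex.zero_re]
  have s1 : ∑ m ∈ Finset.Icc (-(M : ℤ)) M, (ah q p r m * KC q φ1 φ2 M W p0 r0 g1 g2 m).re =
      ∑ n ∈ Finset.Icc (-(N : ℤ)) N, F1 n := sum_ext (by omega) F1 z1
  have s2 : ∑ m ∈ Finset.Icc (-(M : ℤ)) M, (c1 q 0 p r s m * KA ψ M g1 g2 m).re =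
      ∑ n ∈ Finset.Icc (-(N : ℤ)) N, F2 n := by
    rw [← sum_shift hNM F2 z2]
    apply Finset.sum_congr rfl
    intro m _
    rw [hF2]
    simp only [sub_add_cancel]
    unfold c1
    simp only [Pi.zero_apply, mul_zero, zero_add]
  have s3 : ∑ m ∈ Finset.Icc (-(M : ℤ)) M, ((starRingEnd ℂ) (c2 q 0 p r s m) * KB ψ M g1 g2 m).re =
      ∑ n ∈ Finset.Icc (-(N : ℤ)) N, F3 n := by
    rw [← sum_shift hNM F3 z3]
    apply Finset.sum_congr rfl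
    intro m _
    rw [hF3]
    simp only [sub_add_cancel]
    unfold c2
    simp only [Pi.zero_apply, mul_zero, zero_add]
  rw [s1, s2, s3, ← Finset.sum_add_distrib, Finset.mul_sum, ← Finset.sum_add_distrib]
  apply Finset.sum_congr rfl
  intro n _
  rw [hF1, hF2, hF3]
  simp only
  unfold GP GR GS ah
  rw [hg1, hg2]
  generalize KC q φ1 φ2 M W p0 r0 g1 g2 n = X
  generalize KA ψ M g1 g2 (n + 1) = Y
  generalize KB ψ M g1 g2 (n + 1) = Z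
  generalize ee (-((n + 1 : ℤ) : ℝ) * (Real.pi / 3)) = E1
  generalize ee (-((n + 1 : ℤ) : ℝ) * (2 * Real.pi / 3)) = E2
  have hre : ∀ x : ℂ, x.re = ((starRingEnd ℂ) x).re := fun x => (Complex.conj_re x).symm
  rw [hre ((starRingEnd ℂ) (E2 * ((starRingEnd ℂ) om ^ 2 * p n + (starRingEnd ℂ) (kq q) * r n - s n)) * Z)]
  rw [map_mul, Complex.conj_conj]
  have e2 : ∀ x y : ℂ, 2 * (x.re + y.re) = ((2 : ℂ) * (x + y)).re := by
    intro x y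
    simp
  rw [e2, ← Complex.add_re, ← Complex.add_re, ← Complex.add_re]
  congr 1
  ring

end Helper95.RC
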