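import Pool.Agent.Helper95.RC.Lim
import Pool.Agent.Helper87.RC.M_KRN

/-!
# Project RC, SHARP, link 2: sections of the bilinear part

`BA φ α G = (1/2π) ∫ G θ conj (∫_{φ θ - π}^{φ θ} ee t α t dt) dθ` for an arbitrary measurable alignment `φ`.
Its entry for `α = ee (m t)` (`m` even), `G = ee (n θ)` is `Bc φ m n`.
-/

open MeasureTheory Set Filter Topology

namespace Helper95.RC

open Helper49.LT hiding sg
open Helper87.RC (Fam BM intg_of_bddC intg_of_bdd fc_eq fc_sub fc_cmul fc_add fc_conj pars pars2 prim_meas)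
open Helper56.RC (fc)

/-- the bilinear part of link 2 -/
noncomputable def BA (φ : ℝ → ℝ) (α G : ℝ → ℂ) : ℂ :=
  (1 / (2 * Real.pi) : ℂ) * ∫ θ in (0 : ℝ)..(2 * Real.pi),
    G θ * (starRingEnd ℂ) (∫ t in (φ θ - Real.pi)..(φ θ), ee t * α t)

/-- the coefficient of `ee (n θ)` in `ee (k φ θ)` -/
noncomputable def Tc (φ : ℝ → ℝ) (k n : ℤ) : ℂ := av fun θ => ee ((k : ℝ) * φ θ) * ee (-(n : ℝ) * θ)

/-- the entry of `BA` -/
noncomputable def Bc (φ : ℝ → ℝ) (m n : ℤ) : ℂ :=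
  (starRingEnd ℂ) (2 / (Complex.I * ((m + 1 : ℤ) : ℂ)) * Tc φ (m + 1) n)

section

variable {α G : ℝ → ℂ} {C E : ℝ} {φ : ℝ → ℝ}

/-- the inner integral -/
noncomputable def iA (φ : ℝ → ℝ) (α : ℝ → ℂ) (θ : ℝ) : ℂ := ∫ t in (φ θ - Real.pi)..(φ θ), ee t * α t

theorem eeA (ha : BM α E) : BM (fun t => ee t * α t) (1 * E) :=
  BM.mul ⟨continuous_ee.measurable, fun t => by rw [norm_ee]⟩ ha

theorem iA_BM (ha : BM α E) (hφ : Measurable φ) : BM (iA φ α) (1 * E * Real.pi) := by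
  have hpi := Real.pi_pos
  constructor
  · exact prim_meas (eeA ha).i (hφ.sub_const _) hφ
  · intro θ
    unfold iA
    refine (intervalIntegral.norm_integral_le_of_norm_le_const (C := 1 * E) fun t _ => (eeA ha).b t).trans ?_
    rw [sub_sub_cancel, abs_of_pos hpi]

/-- Cauchy-Schwarz for the inner integral -/
theorem iA_le (ha : BM α E) (hp : ∀ t, α (t + Real.pi) = α t) (θ : ℝ) :
    ‖iA φ α θ‖ ≤ Real.pi * Real.sqrt (ms α) := by
  have hpi := Real.pi_pos
  have hle : φ θ - Real.pi ≤ φ θ := by linarith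
  have h1 : ‖iA φ α θ‖ ≤ ∫ t in (φ θ - Real.pi)..(φ θ), 1 * ‖α t‖ := by
    unfold iA
    apply intervalIntegral.norm_integral_le_of_norm_le hle
    · apply Eventually.of_forall
      intro t _
      rw [norm_mul, norm_ee]
    · exact ii_bdd (C := E) (by simpa using ha.m.norm) (fun t => by
        rw [one_mul, abs_of_nonneg (norm_nonneg _)]; exact ha.b t) _ _
  have h2 := cs (u := fun _ => (1 : ℝ)) (v := fun t => ‖α t‖) (C := 1) (D := E) measurable_const ha.m.norm
    (fun t => by simp) (fun t => by rw [abs_of_nonneg (norm_nonneg _)]; exact ha.b t) hle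
  have h3 : ∫ t in (φ θ - Real.pi)..(φ θ), ‖α t‖ ^ 2 = Real.pi * ms α := by
    have hper : Function.Periodic (fun t => ‖α t‖ ^ 2) Real.pi := fun t => by
      show ‖α (t + Real.pi)‖ ^ 2 = _
      rw [hp]
    have e1 := hper.intervalIntegral_add_eq (φ θ - Real.pi) 0
    rw [sub_add_cancel, zero_add] at e1
    have i1 : ∀ a b : ℝ, IntervalIntegrable (fun t => ‖α t‖ ^ 2) volume a b := fun a b => by
      apply ii_bdd (C := E ^ 2) (ha.m.norm.pow_const 2)
      intro t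
      rw [abs_pow, abs_of_nonneg (norm_nonneg _)]
      exact pow_le_pow_left₀ (norm_nonneg _) (ha.b t) 2
    have e2 : ∫ t in (0 : ℝ)..(2 * Real.pi), ‖α t‖ ^ 2 = 2 * ∫ t in (0 : ℝ)..Real.pi, ‖α t‖ ^ 2 := by
      rw [← intervalIntegral.integral_add_adjacent_intervals (i1 0 Real.pi) (i1 Real.pi (2 * Real.pi))]
      have e3 := hper.intervalIntegral_add_eq Real.pi 0
      rw [zero_add] at e3
      have e4 : Real.pi + Real.pi = 2 * Real.pi := by ring
      rw [e4] at e3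
      rw [e3]
      ring
    rw [e1]
    unfold ms
    rw [e2]
    field_simp
  rw [h3] at h2
  simp only [one_pow, intervalIntegral.integral_const, sub_sub_cancel, smul_eq_mul, mul_one] at h2
  have h4 : Real.sqrt Real.pi * Real.sqrt (Real.pi * ms α) = Real.pi * Real.sqrt (ms α) := by
    rw [Real.sqrt_mul hpi.le, ← mul_assoc, Real.mul_self_sqrt hpi.le]
  rw [h4] at h2
  exact h1.trans h2

theorem BA_le (ha : BM α E) (hp : ∀ t, α (t + Real.pi) = α t) (hG : BM G C) (hφ : Measurable φ) :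
    ‖BA φ α G‖ ≤ Real.pi * (Real.sqrt (ms α) * Real.sqrt (ms G)) := by
  have hpi := Real.pi_pos
  unfold BA
  rw [norm_mul]
  have hn : ‖(1 / (2 * Real.pi) : ℂ)‖ = 1 / (2 * Real.pi) := by
    rw [norm_div, norm_mul, norm_one, Complex.norm_real, Complex.norm_ofNat,
      Real.norm_of_nonneg hpi.le]
  rw [hn]
  have h1 : ‖∫ θ in (0 : ℝ)..(2 * Real.pi), G θ * (starRingEnd ℂ) (iA φ α θ)‖ ≤
      ∫ θ in (0 : ℝ)..(2 * Real.pi), ‖G θ‖ * (Real.pi * Real.sqrt (ms α)) := by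
    apply intervalIntegral.norm_integral_le_of_norm_le (by positivity)
    · apply Eventually.of_forall
      intro θ _
      rw [norm_mul, RCLike.norm_conj]
      exact mul_le_mul_of_nonneg_left (iA_le ha hp θ) (norm_nonneg _)
    · apply IntervalIntegrable.mul_const
      exact ii_bdd (C := C) hG.m.norm (fun t => by
        rw [abs_of_nonneg (norm_nonneg _)]; exact hG.b t) _ _
  rw [intervalIntegral.integral_mul_const] at h1
  have h2 := cs (u := fun t => ‖G t‖) (v := fun _ => (1 : ℝ)) (C := C) (D := 1) hG.m.norm measurable_const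
    (fun t => by rw [abs_of_nonneg (norm_nonneg _)]; exact hG.b t) (fun t => by simp)
    (show (0 : ℝ) ≤ 2 * Real.pi by positivity)
  simp only [one_pow, intervalIntegral.integral_const, sub_zero, smul_eq_mul, mul_one] at h2
  have h3 : ∫ t in (0 : ℝ)..(2 * Real.pi), ‖G t‖ ^ 2 = (2 * Real.pi) * ms G := by
    unfold ms; field_simp
  rw [h3] at h2
  have h4 : Real.sqrt (2 * Real.pi * ms G) * Real.sqrt (2 * Real.pi) = 2 * Real.pi * Real.sqrt (ms G) := by
    rw [Real.sqrt_mul (show (0 : ℝ) ≤ 2 * Real.pi by positivity) (ms G)]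
    have := Real.mul_self_sqrt (show (0 : ℝ) ≤ 2 * Real.pi by positivity)
    calc _ = (Real.sqrt (2 * Real.pi) * Real.sqrt (2 * Real.pi)) * Real.sqrt (ms G) := by ring
      _ = _ := by rw [this]
  rw [h4] at h2
  have h5 : 0 ≤ Real.pi * Real.sqrt (ms α) := by positivity
  calc 1 / (2 * Real.pi) * ‖∫ θ in (0 : ℝ)..(2 * Real.pi), G θ * (starRingEnd ℂ) (iA φ α θ)‖
      ≤ 1 / (2 * Real.pi) * ((2 * Real.pi * Real.sqrt (ms G)) * (Real.pi * Real.sqrt (ms α))) := by
        apply mul_le_mul_of_nonneg_left _ (by positivity)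
        exact h1.trans (mul_le_mul_of_nonneg_right h2 h5)
    _ = Real.pi * (Real.sqrt (ms α) * Real.sqrt (ms G)) := by field_simp

theorem BA_intg (ha : BM α E) (hG : BM G C) (hφ : Measurable φ) :
    IntervalIntegrable (fun θ => G θ * (starRingEnd ℂ) (iA φ α θ)) volume 0 (2 * Real.pi) :=
  (hG.mul (iA_BM ha hφ).conj).i _ _

theorem BA_sub_left {α' : ℝ → ℂ} {E' : ℝ} (ha : BM α E) (ha' : BM α' E') (hG : BM G C) (hφ : Measurable φ) :
    BA φ (fun t => α t - α' t) G = BA φ α G - BA φ α' G := by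
  unfold BA
  rw [← mul_sub]
  congr 1
  have key := intervalIntegral.integral_sub (BA_intg ha hG hφ) (BA_intg ha' hG hφ)
  refine Eq.trans ?_ key
  apply intervalIntegral.integral_congr
  intro θ _
  show G θ * (starRingEnd ℂ) (∫ t in (φ θ - Real.pi)..(φ θ), ee t * (α t - α' t)) =
    G θ * (starRingEnd ℂ) (iA φ α θ) - G θ * (starRingEnd ℂ) (iA φ α' θ)
  have e : ∀ t, ee t * (α t - α' t) = ee t * α t - ee t * α' t := fun t => by ring
  simp_rw [e]
  rw [intervalIntegral.integral_sub ((eeA ha).i _ _) ((eeA ha').i _ _), map_sub]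
  unfold iA
  ring

theorem BA_sub_right {G' : ℝ → ℂ} {C' : ℝ} (ha : BM α E) (hG : BM G C) (hG' : BM G' C') (hφ : Measurable φ) :
    BA φ α (fun t => G t - G' t) = BA φ α G - BA φ α G' := by
  unfold BA
  rw [← mul_sub]
  congr 1
  have key := intervalIntegral.integral_sub (BA_intg ha hG hφ) (BA_intg ha hG' hφ)
  refine Eq.trans ?_ key
  apply intervalIntegral.integral_congr
  intro θ _
  show (G θ - G' θ) * (starRingEnd ℂ) (iA φ α θ) =
    G θ * (starRingEnd ℂ) (iA φ α θ) - G' θ * (starRingEnd ℂ) (iA φ α θ)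
  ring

end

/-- the inner integral of a pure even harmonic -/
theorem iA_ee {m : ℤ} (hm : Even m) (x : ℝ) :
    ∫ t in (x - Real.pi)..x, ee t * ee ((m : ℝ) * t) =
      2 / (Complex.I * ((m + 1 : ℤ) : ℂ)) * ee (((m + 1 : ℤ) : ℝ) * x) := by
  have hm1 : m + 1 ≠ 0 := by
    obtain ⟨k, hk⟩ := hm
    omega
  have e : ∀ t : ℝ, ee t * ee ((m : ℝ) * t) = ee (((m + 1 : ℤ) : ℝ) * t) := by
    intro t
    rw [← ee_add]; congr 1; push_cast; ring
  simp_rw [e]
  have hc' : ((((m + 1 : ℤ) : ℝ)) : ℂ) * Complex.I ≠ 0 :=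
    mul_ne_zero (by exact_mod_cast hm1) Complex.I_ne_zero
  have h2 : ∀ u ∈ uIcc (x - Real.pi) x,
      HasDerivAt (fun s : ℝ => ee (((m + 1 : ℤ) : ℝ) * s) / (((((m + 1 : ℤ) : ℝ)) : ℂ) * Complex.I))
        (ee (((m + 1 : ℤ) : ℝ) * u)) u := by
    intro u _
    have h3 := (hasDerivAt_ee ((m + 1 : ℤ) : ℝ) u).div_const (((((m + 1 : ℤ) : ℝ)) : ℂ) * Complex.I)
    rw [mul_div_cancel_left₀ _ hc'] at h3
    exact h3
  rw [intervalIntegral.integral_eq_sub_of_hasDerivAt h2]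
  · have e1 : ee (((m + 1 : ℤ) : ℝ) * (x - Real.pi)) = -ee (((m + 1 : ℤ) : ℝ) * x) := by
      obtain ⟨k, hk⟩ := hm
      have e2 : ((m + 1 : ℤ) : ℝ) * (x - Real.pi) =
          ((m + 1 : ℤ) : ℝ) * x + (-Real.pi + ((-k : ℤ) : ℝ) * (2 * Real.pi)) := by
        rw [hk]; push_cast; ring
      have e3 : ee (-Real.pi + ((-k : ℤ) : ℝ) * (2 * Real.pi)) = -1 := by
        rw [ee_add, ee_neg, ee_pi]
        have e4 : ee (((-k : ℤ) : ℝ) * (2 * Real.pi)) = 1 := by
          rw [ee_int_mul, ee_two_pi, one_zpow]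
        rw [e4]; simp
      rw [e2, ee_add, e3]; ring
    rw [e1]
    have hz : ((m + 1 : ℤ) : ℂ) ≠ 0 := by exact_mod_cast hm1
    push_cast at hz ⊢
    field_simp
    ring
  · apply Continuous.intervalIntegrable
    exact continuous_ee.comp (by fun_prop)

theorem tp_pi (S : Finset ℤ) (a : ℤ → ℂ) (hs : ∀ m ∈ S, ¬ Even m → a m = 0) (t : ℝ) :
    tp S a (t + Real.pi) = tp S a t := by
  unfold tp
  apply Finset.sum_congr rfl
  intro m hm
  by_cases he : Even m
  · obtain ⟨k, hk⟩ := he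
    congr 1
    have e : (m : ℝ) * (t + Real.pi) = (m : ℝ) * t + ((k : ℤ) : ℝ) * (2 * Real.pi) := by
      rw [hk]; push_cast; ring
    rw [e, ee_add]
    have e4 : ee (((k : ℤ) : ℝ) * (2 * Real.pi)) = 1 := by
      rw [ee_int_mul, ee_two_pi, one_zpow]
    rw [e4, mul_one]
  · rw [hs m hm he, zero_mul, zero_mul]

theorem BA_tp {φ : ℝ → ℝ} (hφ : Measurable φ) (S T : Finset ℤ) (a g : ℤ → ℂ)
    (hs : ∀ m ∈ S, ¬ Even m → a m = 0) :
    BA φ (tp S a) (tp T g) = ∑ m ∈ S, ∑ n ∈ T, g n * (starRingEnd ℂ) (a m) * Bc φ m n := by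
  have hpi := Real.pi_pos
  have hce : ∀ c : ℝ, Continuous fun u : ℝ => ee (c * u) := fun c => continuous_ee.comp (by fun_prop)
  have hin : ∀ θ : ℝ, ∫ t in (φ θ - Real.pi)..(φ θ), ee t * tp S a t =
      ∑ m ∈ S, a m * (2 / (Complex.I * ((m + 1 : ℤ) : ℂ)) * ee (((m + 1 : ℤ) : ℝ) * φ θ)) := by
    intro θ
    have e : ∀ t : ℝ, ee t * tp S a t = ∑ m ∈ S, a m * (ee t * ee ((m : ℝ) * t)) := by
      intro t
      unfold tp
      rw [Finset.mul_sum]
      apply Finset.sum_congr rfl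
      intro m _
      ring
    simp_rw [e]
    rw [intervalIntegral.integral_finsetSum]
    · apply Finset.sum_congr rfl
      intro m hm
      rw [intervalIntegral.integral_const_mul]
      by_cases he : Even m
      · rw [iA_ee he]
      · rw [hs m hm he, zero_mul, zero_mul]
    · intro m _
      exact (continuous_const.mul (continuous_ee.mul (hce _))).intervalIntegrable _ _
  unfold BA
  simp_rw [hin]
  have e : ∀ θ : ℝ, tp T g θ * (starRingEnd ℂ) (∑ m ∈ S, a m * (2 / (Complex.I * ((m + 1 : ℤ) : ℂ)) *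
      ee (((m + 1 : ℤ) : ℝ) * φ θ))) = ∑ m ∈ S, ∑ n ∈ T, (g n * (starRingEnd ℂ) (a m)) *
        (starRingEnd ℂ) (2 / (Complex.I * ((m + 1 : ℤ) : ℂ)) *
          (ee (((m + 1 : ℤ) : ℝ) * φ θ) * ee (-(n : ℝ) * θ))) := by
    intro θ
    unfold tp
    rw [map_sum, Finset.mul_sum]
    apply Finset.sum_congr rfl
    intro m _
    rw [Finset.sum_mul]
    apply Finset.sum_congr rfl
    intro n _
    have h1 : (starRingEnd ℂ) (ee (-(n : ℝ) * θ)) = ee ((n : ℝ) * θ) := by
      rw [neg_mul, ee_neg, Complex.conj_conj]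
    simp only [map_mul, h1]
    ring
  simp_rw [e]
  have hI : ∀ m n : ℤ, IntervalIntegrable (fun θ => (g n * (starRingEnd ℂ) (a m)) *
        (starRingEnd ℂ) (2 / (Complex.I * ((m + 1 : ℤ) : ℂ)) *
          (ee (((m + 1 : ℤ) : ℝ) * φ θ) * ee (-(n : ℝ) * θ)))) volume 0 (2 * Real.pi) := by
    intro m n
    apply IntervalIntegrable.const_mul
    have hb : BM (fun θ => ee (((m + 1 : ℤ) : ℝ) * φ θ) * ee (-(n : ℝ) * θ)) (1 * 1) :=
      BM.mul ⟨continuous_ee.measurable.comp (hφ.const_mul _), fun t => by rw [norm_ee]⟩ (BM.eec _)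
    exact ((hb.cmul _).conj).i _ _
  rw [intervalIntegral.integral_finsetSum, Finset.mul_sum]
  · apply Finset.sum_congr rfl
    intro m _
    rw [intervalIntegral.integral_finsetSum, Finset.mul_sum]
    · apply Finset.sum_congr rfl
      intro n _
      rw [intervalIntegral.integral_const_mul, ← mul_assoc, mul_comm (1 / (2 * Real.pi) : ℂ), mul_assoc]
      congr 1
      unfold Bc Tc av
      rw [intervalIntegral.intervalIntegral_conj, intervalIntegral.integral_const_mul]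
      have e4 : (starRingEnd ℂ) (1 / (2 * Real.pi) : ℂ) = (1 / (2 * Real.pi) : ℂ) := by
        have : (1 / (2 * Real.pi) : ℂ) = ((1 / (2 * Real.pi) : ℝ) : ℂ) := by push_cast; rfl
        rw [this, Complex.conj_ofReal]
      simp only [map_mul, e4]
      ring
    · intro n _
      exact hI m n
  · intro m _
    have h1 := IntervalIntegrable.sum T fun n _ => hI m n
    rwa [Finset.sum_fn] at h1

/-- the sections of `BA` converge -/
theorem BA_lim {α G : ℝ → ℂ} {C E : ℝ} {φ : ℝ → ℝ} (ha : BM α E) (hp : ∀ t, α (t + Real.pi) = α t)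
    (hG : BM G C) (hφ : Measurable φ) :
    Tendsto (fun N : ℕ => ∑ m ∈ Finset.Icc (-(N : ℤ)) N, ∑ n ∈ Finset.Icc (-(N : ℤ)) N,
      fc G n * (starRingEnd ℂ) (fc α m) * Bc φ m n) atTop (𝓝 (BA φ α G)) := by
  have hpi := Real.pi_pos
  have hodd : ∀ m : ℤ, ¬ Even m → fc α m = 0 := fun m hm =>
    Helper87.RC.fc_perpi ha hp (Int.not_even_iff_odd.1 hm)
  set S : ℕ → Finset ℤ := fun N => Finset.Icc (-(N : ℤ)) N with hS
  set F : ℕ → ℝ → ℂ := fun N => tp (S N) (fc α) with hF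
  set H : ℕ → ℝ → ℂ := fun N => tp (S N) (fc G) with hH
  have hFB : ∀ N, BM (F N) (∑ m ∈ S N, ‖fc α m‖) := fun N => tp_BM _ _
  have hHB : ∀ N, BM (H N) (∑ m ∈ S N, ‖fc G m‖) := fun N => tp_BM _ _
  have hFp : ∀ N t, F N (t + Real.pi) = F N t := fun N t => tp_pi _ _ (fun m _ hm => hodd m hm) t
  have e1 : ∀ N : ℕ, ∑ m ∈ Finset.Icc (-(N : ℤ)) N, ∑ n ∈ Finset.Icc (-(N : ℤ)) N,
      fc G n * (starRingEnd ℂ) (fc α m) * Bc φ m n = BA φ (F N) (H N) := fun N =>
    (BA_tp hφ (S N) (S N) (fc α) (fc G) (fun m _ hm => hodd m hm)).symm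
  simp_rw [e1]
  have hsub : ∀ N, BA φ α G - BA φ (F N) (H N) =
      BA φ (fun t => α t - F N t) G + BA φ (F N) (fun t => G t - H N t) := by
    intro N
    rw [BA_sub_left ha (hFB N) hG hφ, BA_sub_right (hFB N) hG (hHB N) hφ]
    ring
  have hmsF : ∀ N, ms (F N) ≤ ms α := by
    intro N
    have h1 := pars (hFB N)
    have h2 : HasSum (fun n => ‖fc (F N) n‖ ^ 2) (∑ n ∈ S N, ‖fc α n‖ ^ 2) := by
      have h4 : HasSum (fun n => ‖fc (F N) n‖ ^ 2) (∑ n ∈ S N, ‖fc (F N) n‖ ^ 2) :=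
        hasSum_sum_of_ne_finset_zero (fun n hn => by rw [hF]; simp [fc_tp, hn])
      have h5 : ∑ n ∈ S N, ‖fc (F N) n‖ ^ 2 = ∑ n ∈ S N, ‖fc α n‖ ^ 2 :=
        Finset.sum_congr rfl fun n hn => by rw [hF]; simp [fc_tp, hn]
      rwa [h5] at h4
    have h3 : ms (F N) = ∑ n ∈ S N, ‖fc α n‖ ^ 2 := h1.unique h2
    have h4 := ms_nonneg (fun t => α t - tp (S N) (fc α) t)
    rw [ms_section ha] at h4
    linarith
  have hbound : ∀ N, ‖BA φ α G - BA φ (F N) (H N)‖ ≤
      Real.pi * (Real.sqrt (ms (fun t => α t - F N t)) * Real.sqrt (ms G)) +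
      Real.pi * (Real.sqrt (ms α) * Real.sqrt (ms (fun t => G t - H N t))) := by
    intro N
    rw [hsub]
    refine (norm_add_le _ _).trans (add_le_add ?_ ?_)
    · exact BA_le (ha.sub (hFB N)) (fun t => by rw [hp, hFp]) hG hφ
    · refine (BA_le (hFB N) (hFp N) (hG.sub (hHB N)) hφ).trans ?_
      apply mul_le_mul_of_nonneg_left _ hpi.le
      apply mul_le_mul_of_nonneg_right (Real.sqrt_le_sqrt (hmsF N)) (Real.sqrt_nonneg _)
  have t1 : Tendsto (fun N => Real.sqrt (ms (fun t => α t - F N t))) atTop (𝓝 0) := by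
    have := (ms_tendsto ha).sqrt
    rwa [Real.sqrt_zero] at this
  have t2 : Tendsto (fun N => Real.sqrt (ms (fun t => G t - H N t))) atTop (𝓝 0) := by
    have := (ms_tendsto hG).sqrt
    rwa [Real.sqrt_zero] at this
  have t3 : Tendsto (fun N => Real.pi * (Real.sqrt (ms (fun t => α t - F N t)) * Real.sqrt (ms G)) +
      Real.pi * (Real.sqrt (ms α) * Real.sqrt (ms (fun t => G t - H N t)))) atTop (𝓝 0) := by
    have h1 := ((t1.mul_const (Real.sqrt (ms G))).const_mul Real.pi).add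
      ((t2.const_mul (Real.sqrt (ms α))).const_mul Real.pi)
    simpa using h1
  rw [tendsto_iff_norm_sub_tendsto_zero]
  apply squeeze_zero (fun N => norm_nonneg _) _ t3
  intro N
  rw [norm_sub_rev]
  exact hbound N

end Helper95.RC
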