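import Pool.Agent.Helper95.RC.Coef
import Pool.Agent.Helper95.RC.M_BA
import Pool.Agent.Helper20.RC.Frame

/-!
# Project RC, SHARP: the quadratic frame on trigonometric sections

`EN`: the nonlocal part (link 1, bilinear part of link 2, link 3) on the frequencies `|n| ≤ N`, a polynomial of degree two
in the rest sequences `p, r, s` (coefficients of `w (b - b0)₂`, `w (b - b0)₃`, `w (z - z0)`); the base sequences are
`W, p0, r0, s0`. `frameE`: the sections converge to a number `E` and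
`2/3 |sg 2|² + E + 2 (L2w + L2b(base part of α, true angles)) + 2 L2r(rest part) - 9 + 9 ⟨w |b|²⟩ ≤ FMQ - 9 mQ²`.
-/

open MeasureTheory Set Filter Topology

namespace Helper95.RC

open Helper49.LT hiding sg
open Helper49.RC (om)
open Helper87.RC (Fam BM intg_of_bddC intg_of_bdd fc_eq fc_sub fc_cmul fc_add fc_conj pars pars2)
open Helper56.RC (fc)
open Helper44.RCG (G1 G2 N0 Hex A00G A0QG AQQG sgG)
open Helper44.GQ (aQ cQ AdmQ A0Q AAQ BBQ FMQ mQ Rq F1Q F2Q hexQ splQ)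
open Helper49.RC (vvS Wgt)
open Pool.Agent.Helper20.RC (alQ wR wR_wgt alQ_bm alQ_per A0Q_form wt wt_wR L2w L2b L2r link2Q rg al al_ee al_abs al_meas
  im_rough int_meas target_wR link1_rot bm_wt rg_intg)

/-- the nonlocal part on the frequencies `|n| ≤ N` -/
noncomputable def EN (q : ℝ) (ψ φ1 φ2 : ℝ → ℝ) (N : ℕ) (W p0 r0 s0 p r s : ℤ → ℂ) : ℝ :=
  ∑ n ∈ Finset.Icc (-(N : ℤ)) N,
    ‖W n + (p0 n + p n) + Complex.I / (q : ℂ) * (r0 n + r n)‖ ^ 2 / ((n : ℝ) + 1)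
  + (∑ m ∈ Finset.Icc (-(N : ℤ)) N, ∑ n ∈ Finset.Icc (-(N : ℤ)) N,
      (c1 q W (p0 + p) (r0 + r) (s0 + s) n * (starRingEnd ℂ) (p m + Complex.I / (q : ℂ) * r m) * Bc φ1 m n
      + c2 q W (p0 + p) (r0 + r) (s0 + s) n * (starRingEnd ℂ) (p m + Complex.I / (q : ℂ) * r m) * Bc φ2 m n)).im
  + NF ψ N (c1 q W (p0 + p) (r0 + r) (s0 + s)) (c2 q W (p0 + p) (r0 + r) (s0 + s))

/-! ### linearity of the coefficients -/

section

variable {q : ℝ} {b z b0 z0 : ℝ → ℂ} {w : ℝ → ℝ}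

/-- the base functions: measurable and bounded -/
structure BF (f : ℝ → ℂ) : Prop where
  m : Measurable f
  b : ∃ C, ∀ t, ‖f t‖ ≤ C

theorem bm_wre (hw : Wgt w) (h : BF b) : ∃ C, BM (fun t => ((w t * (b t).re : ℝ) : ℂ)) C := by
  obtain ⟨C, hC⟩ := hw.bd
  obtain ⟨D, hD⟩ := h.b
  refine ⟨C * D, bm_real (hw.m.mul (Complex.measurable_re.comp h.m)) fun t => ?_⟩
  show |w t * (b t).re| ≤ C * D
  rw [abs_mul, abs_of_nonneg (hw.nonneg t)]
  exact mul_le_mul (hC t) ((Complex.abs_re_le_norm _).trans (hD t)) (abs_nonneg _) ((hw.nonneg t).trans (hC t))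

theorem bm_wim (hw : Wgt w) (h : BF b) : ∃ C, BM (fun t => ((w t * (b t).im : ℝ) : ℂ)) C := by
  obtain ⟨C, hC⟩ := hw.bd
  obtain ⟨D, hD⟩ := h.b
  refine ⟨C * D, bm_real (hw.m.mul (Complex.measurable_im.comp h.m)) fun t => ?_⟩
  show |w t * (b t).im| ≤ C * D
  rw [abs_mul, abs_of_nonneg (hw.nonneg t)]
  exact mul_le_mul (hC t) ((Complex.abs_im_le_norm _).trans (hD t)) (abs_nonneg _) ((hw.nonneg t).trans (hC t))

theorem bm_wz (hw : Wgt w) (h : BF z) : ∃ C, BM (fun t => (w t : ℂ) * z t) C := by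
  obtain ⟨C, hC⟩ := bmw hw
  obtain ⟨D, hD⟩ := h.b
  exact ⟨C * D, hC.mul ⟨h.m, hD⟩⟩

theorem AdmQ.bfb (h : AdmQ q b z) : BF b := by
  obtain ⟨δ, hδ, hb⟩ := h.bdb
  exact ⟨h.mb, 1 - δ, hb⟩

theorem AdmQ.bfz (hq : 0 < q) (h : AdmQ q b z) : BF z := by
  obtain ⟨D, hD0, hDa, hDc, hDz⟩ := Helper44.GQ.REDQ.data_bdd q hq b z h
  exact ⟨h.mz, D, hDz⟩

theorem BF.sub {f g : ℝ → ℂ} (hf : BF f) (hg : BF g) : BF (fun t => f t - g t) := by
  obtain ⟨C, hC⟩ := hf.b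
  obtain ⟨D, hD⟩ := hg.b
  exact ⟨hf.m.sub hg.m, C + D, fun t => (norm_sub_le _ _).trans (add_le_add (hC t) (hD t))⟩

theorem pc_split (hw : Wgt w) (hb : BF b) (hb0 : BF b0) :
    pc w b = pc w b0 + pc w (fun t => b t - b0 t) := by
  funext n
  obtain ⟨C, hC⟩ := bm_wre hw hb0
  obtain ⟨D, hD⟩ := bm_wre hw (hb.sub hb0)
  rw [Pi.add_apply]
  unfold pc
  rw [← fc_add hC hD]
  congr 1
  funext t
  push_cast
  rw [Complex.sub_re]
  push_cast
  ring

theorem rc_split (hw : Wgt w) (hb : BF b) (hb0 : BF b0) :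
    rc w b = rc w b0 + rc w (fun t => b t - b0 t) := by
  funext n
  obtain ⟨C, hC⟩ := bm_wim hw hb0
  obtain ⟨D, hD⟩ := bm_wim hw (hb.sub hb0)
  rw [Pi.add_apply]
  unfold rc
  rw [← fc_add hC hD]
  congr 1
  funext t
  push_cast
  rw [Complex.sub_im]
  push_cast
  ring

theorem sc_split (hw : Wgt w) (hz : BF z) (hz0 : BF z0) :
    sc w z = sc w z0 + sc w (fun t => z t - z0 t) := by
  funext n
  obtain ⟨C, hC⟩ := bm_wz hw hz0
  obtain ⟨D, hD⟩ := bm_wz hw (hz.sub hz0)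
  rw [Pi.add_apply]
  unfold sc
  rw [← fc_add hC hD]
  congr 1
  funext t
  ring

/-- the coefficients of `α` -/
theorem fc_alQ (hw : Wgt w) (hb : BF b) (n : ℤ) :
    fc (alQ w q b) n = pc w b n + Complex.I / (q : ℂ) * rc w b n := by
  obtain ⟨C, hC⟩ := bm_wre hw hb
  obtain ⟨D, hD⟩ := bm_wim hw hb
  have e : alQ w q b = fun t => ((w t * (b t).re : ℝ) : ℂ) + Complex.I / (q : ℂ) * ((w t * (b t).im : ℝ) : ℂ) := by
    funext t
    unfold alQ
    push_cast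
    ring
  rw [e, fc_add hC (hD.cmul _), fc_cmul]
  rfl

theorem alQ_BM (hw : Wgt w) (hb : BF b) : ∃ E, BM (alQ w q b) E := by
  obtain ⟨C, hC⟩ := bm_wre hw hb
  obtain ⟨D, hD⟩ := bm_wim hw hb
  have e : alQ w q b = fun t => ((w t * (b t).re : ℝ) : ℂ) + Complex.I / (q : ℂ) * ((w t * (b t).im : ℝ) : ℂ) := by
    funext t
    unfold alQ
    push_cast
    ring
  rw [e]
  exact ⟨_, hC.add (hD.cmul _)⟩

theorem alQ_add (w : ℝ → ℝ) (q : ℝ) (b b0 : ℝ → ℂ) (t : ℝ) :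
    alQ w q b t = alQ w q b0 t + alQ w q (fun t => b t - b0 t) t := by
  unfold alQ
  rw [Complex.sub_re, Complex.sub_im]
  push_cast
  ring

end

/-! ### link 2: the bilinear part -/

section

variable {α g1 g2 : ℝ → ℂ} {E D1 D2 : ℝ} {φ1 φ2 : ℝ → ℝ}

/-- `2 L2b` is the imaginary part of `BA` -/
theorem L2b_BA (ha : BM α E) (h1 : BM g1 D1) (h2 : BM g2 D2) (m1 : Measurable φ1) (m2 : Measurable φ2) :
    2 * L2b α g1 g2 φ1 φ2 = (BA φ1 α g1 + BA φ2 α g2).im := by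
  have hpi := Real.pi_pos
  have I1 := BA_intg ha h1 m1
  have I2 := BA_intg ha h2 m2
  unfold L2b
  have e1 : ∫ θ in (0 : ℝ)..(2 * Real.pi),
        ((g1 θ * (starRingEnd ℂ) (∫ t in (φ1 θ - Real.pi)..(φ1 θ), ee t * α t)).im
        + (g2 θ * (starRingEnd ℂ) (∫ t in (φ2 θ - Real.pi)..(φ2 θ), ee t * α t)).im) =
      (∫ θ in (0 : ℝ)..(2 * Real.pi), (g1 θ * (starRingEnd ℂ) (iA φ1 α θ) + g2 θ * (starRingEnd ℂ) (iA φ2 α θ))).im :=
    Complex.imCLM.intervalIntegral_comp_comm (I1.add I2)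
  rw [e1, intervalIntegral.integral_add I1 I2]
  unfold BA
  rw [← mul_add]
  have e4 : (1 / (2 * Real.pi) : ℂ) = ((1 / (2 * Real.pi) : ℝ) : ℂ) := by push_cast; rfl
  rw [e4, Complex.im_ofReal_mul]
  show 2 * (1 / (4 * Real.pi) * _) = 1 / (2 * Real.pi) * ((∫ θ in (0 : ℝ)..(2 * Real.pi),
    g1 θ * (starRingEnd ℂ) (iA φ1 α θ)) + ∫ θ in (0 : ℝ)..(2 * Real.pi), g2 θ * (starRingEnd ℂ) (iA φ2 α θ)).im
  field_simp
  ring

theorem L2b_add {β : ℝ → ℂ} {F : ℝ} (ha : BM α E) (hb : BM β F) (h1 : BM g1 D1) (h2 : BM g2 D2)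
    (m1 : Measurable φ1) (m2 : Measurable φ2) :
    L2b (fun t => α t + β t) g1 g2 φ1 φ2 = L2b α g1 g2 φ1 φ2 + L2b β g1 g2 φ1 φ2 := by
  have e1 := L2b_BA (ha.add hb) h1 h2 m1 m2
  have e2 := L2b_BA ha h1 h2 m1 m2
  have e3 := L2b_BA hb h1 h2 m1 m2
  have k1 := BA_sub_left (ha.add hb) hb h1 m1
  have k2 := BA_sub_left (ha.add hb) hb h2 m2
  simp only [add_sub_cancel_right] at k1 k2
  have l1 : (BA φ1 (fun t => α t + β t) g1).im = (BA φ1 α g1).im + (BA φ1 β g1).im := by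
    have := congrArg Complex.im k1
    rw [Complex.sub_im] at this
    linarith
  have l2 : (BA φ2 (fun t => α t + β t) g2).im = (BA φ2 α g2).im + (BA φ2 β g2).im := by
    have := congrArg Complex.im k2
    rw [Complex.sub_im] at this
    linarith
  rw [Complex.add_im] at e1 e2 e3
  linarith

/-- moving the window of an antiperiodic integral -/
theorem win_move (ha : BM α E) (hp : ∀ t, α (t + Real.pi) = α t) (a φ : ℝ) :
    ∫ t in (a - Real.pi)..a, ee t * α t = (∫ t in (φ - Real.pi)..φ, ee t * α t)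
      + 2 * ∫ t in φ..a, ee t * α t := by
  have hb := eeA ha
  have h3 : ∫ t in (a - Real.pi)..(φ - Real.pi), ee t * α t = ∫ t in φ..a, ee t * α t := by
    have h4 := intervalIntegral.integral_comp_sub_right (a := a) (b := φ)
      (fun t => ee t * α t) Real.pi
    rw [← h4, intervalIntegral.integral_symm, ← intervalIntegral.integral_neg]
    refine intervalIntegral.integral_congr fun t _ => ?_
    show -(ee (t - Real.pi) * α (t - Real.pi)) = ee t * α t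
    have e5 : ee t = -ee (t - Real.pi) := by
      have := ee_add (t - Real.pi) Real.pi
      rw [ee_pi, sub_add_cancel] at this
      rw [this]; ring
    have e6 : α t = α (t - Real.pi) := by
      rw [← hp (t - Real.pi), sub_add_cancel]
    rw [e5, e6]; ring
  rw [← intervalIntegral.integral_add_adjacent_intervals (b := φ - Real.pi) (hb.i _ _) (hb.i _ _),
    ← intervalIntegral.integral_add_adjacent_intervals (a := φ - Real.pi) (b := φ) (hb.i _ _) (hb.i _ _), h3]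
  ring

/-- true angles = explicit alignment + rough term -/
theorem L2b_split (ha : BM α E) (hp : ∀ t, α (t + Real.pi) = α t) (h1 : BM g1 D1) (h2 : BM g2 D2)
    (m1 : Measurable φ1) (m2 : Measurable φ2) {K : ℝ}
    (k1 : ∀ θ, |φ1 θ - θ| ≤ K) (k2 : ∀ θ, |φ2 θ - θ| ≤ K) :
    L2b α g1 g2 (al g1) (al g2) = L2b α g1 g2 φ1 φ2 + L2r α g1 g2 φ1 φ2 := by
  have hpi := Real.pi_pos
  have d1 : ∀ θ, |al g1 θ - φ1 θ| ≤ Real.pi + K := by
    intro θ
    have a1 := abs_le.1 (al_abs g1 θ)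
    have a2 := abs_le.1 (k1 θ)
    rw [abs_le]; constructor <;> linarith
  have d2 : ∀ θ, |al g2 θ - φ2 θ| ≤ Real.pi + K := by
    intro θ
    have a1 := abs_le.1 (al_abs g2 θ)
    have a2 := abs_le.1 (k2 θ)
    rw [abs_le]; constructor <;> linarith
  have R1 := rg_intg ha h1 (al_meas h1.m) m1 (al_ee g1) d1 0 (2 * Real.pi)
  have R2 := rg_intg ha h2 (al_meas h2.m) m2 (al_ee g2) d2 0 (2 * Real.pi)
  have im_i : ∀ {g : ℝ → ℂ} {D : ℝ} {φ : ℝ → ℝ}, BM g D → Measurable φ → IntervalIntegrable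
      (fun θ => (g θ * (starRingEnd ℂ) (∫ t in (φ θ - Real.pi)..(φ θ), ee t * α t)).im) volume 0 (2 * Real.pi) := by
    intro g D φ hg hφ
    have hB := hg.mul (iA_BM ha hφ).conj
    exact intg_of_bdd (Complex.measurable_im.comp hB.m) (fun t => (Complex.abs_im_le_norm _).trans (hB.b t)) _ _
  have I1 := im_i h1 m1
  have I2 := im_i h2 m2
  unfold L2b L2r
  have pt : ∀ θ, (g1 θ * (starRingEnd ℂ) (∫ t in (al g1 θ - Real.pi)..(al g1 θ), ee t * α t)).im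
      + (g2 θ * (starRingEnd ℂ) (∫ t in (al g2 θ - Real.pi)..(al g2 θ), ee t * α t)).im =
      ((g1 θ * (starRingEnd ℂ) (∫ t in (φ1 θ - Real.pi)..(φ1 θ), ee t * α t)).im
      + (g2 θ * (starRingEnd ℂ) (∫ t in (φ2 θ - Real.pi)..(φ2 θ), ee t * α t)).im)
      + 2 * (rg α ‖g1 θ‖ (φ1 θ) (al g1 θ) + rg α ‖g2 θ‖ (φ2 θ) (al g2 θ)) := by
    intro θ
    have key : ∀ (g : ℝ → ℂ) (φ : ℝ → ℝ), (g θ * (starRingEnd ℂ) (∫ t in (al g θ - Real.pi)..(al g θ), ee t * α t)).im =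
        (g θ * (starRingEnd ℂ) (∫ t in (φ θ - Real.pi)..(φ θ), ee t * α t)).im + 2 * rg α ‖g θ‖ (φ θ) (al g θ) := by
      intro g φ
      rw [win_move ha hp (al g θ) (φ θ), map_add, mul_add, Complex.add_im, ← im_rough ha (g θ) _ _ (al_ee g θ)]
      congr 1
      have h8 : (2 : ℂ) = ((2 : ℝ) : ℂ) := by norm_num
      rw [map_mul, h8, Complex.conj_ofReal, ← Complex.im_ofReal_mul]
      congr 1; ring
    rw [key g1 φ1, key g2 φ2]
    ring
  simp_rw [pt]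
  rw [intervalIntegral.integral_add (I1.add I2) ((R1.add R2).const_mul 2), intervalIntegral.integral_const_mul]
  field_simp
  ring

end

/-- THE QUADRATIC FRAME -/
theorem frameE {q : ℝ} (hq : 0 < q) {b z : ℝ → ℂ} (h : AdmQ q b z) {η2 η6 η10 : ℂ}
    (he : ‖η2‖ + ‖η6‖ + ‖η10‖ ≤ 1 / 2) {φ1 φ2 : ℝ → ℝ} (m1 : Measurable φ1) (m2 : Measurable φ2) {K : ℝ}
    (k1 : ∀ θ, |φ1 θ - θ| ≤ K) (k2 : ∀ θ, |φ2 θ - θ| ≤ K)
    {ψ : ℝ → ℝ} (hψ : Measurable ψ) (hp : ∀ φ, ψ (φ + 2 * Real.pi) = ψ φ)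
    (hb : ∀ φ, |ψ φ| ≤ Real.pi / 3) {b0 z0 : ℝ → ℂ} (hb0 : BF b0) (hz0 : BF z0)
    (pb0 : ∀ t, b0 (t + Real.pi) = b0 t) :
    ∃ E : ℝ, Tendsto (fun N : ℕ => EN q ψ φ1 φ2 N (wc (wR η2 η6 η10))
        (pc (wR η2 η6 η10) b0) (rc (wR η2 η6 η10) b0) (sc (wR η2 η6 η10) z0)
        (pc (wR η2 η6 η10) fun t => b t - b0 t) (rc (wR η2 η6 η10) fun t => b t - b0 t)
        (sc (wR η2 η6 η10) fun t => z t - z0 t)) atTop (𝓝 E) ∧
      2 / 3 * ‖sgG (A0Q (wR η2 η6 η10) q b) (AAQ (wR η2 η6 η10) q b) (BBQ (wR η2 η6 η10) q b)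
          (vvS (wR η2 η6 η10) z) 2‖ ^ 2
        + E
        + 2 * (L2w η2 η6 η10 (F1Q (wR η2 η6 η10) q b z) (F2Q (wR η2 η6 η10) q b z)
          + L2b (alQ (wR η2 η6 η10) q b0) (F1Q (wR η2 η6 η10) q b z) (F2Q (wR η2 η6 η10) q b z)
            (al (F1Q (wR η2 η6 η10) q b z)) (al (F2Q (wR η2 η6 η10) q b z))
          + L2r (alQ (wR η2 η6 η10) q fun t => b t - b0 t) (F1Q (wR η2 η6 η10) q b z)
            (F2Q (wR η2 η6 η10) q b z) φ1 φ2)
        - 9 + 9 * (1 / (2 * Real.pi) * ∫ t in (0 : ℝ)..(2 * Real.pi), wR η2 η6 η10 t * ‖b t‖ ^ 2)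
        ≤ FMQ (wR η2 η6 η10) q b z - 9 * 1 * mQ (wR η2 η6 η10) b ^ 2 := by
  set w := wR η2 η6 η10 with hwdef
  have hw : Wgt w := wR_wgt he
  obtain ⟨C, hC⟩ := hexQ hq h hw
  have hbf := AdmQ.bfb h
  have hzf := AdmQ.bfz hq h
  have bF1 : BM (F1Q w q b z) (2 * C) := ⟨Helper44.RCG.G1_meas hC.q, Helper44.RCG.G1_le hC.q⟩
  have bF2 : BM (F2Q w q b z) (2 * C) := ⟨Helper44.RCG.G2_meas hC.q, Helper44.RCG.G2_le hC.q⟩
  obtain ⟨EA, hEA⟩ := alQ_BM (q := q) hw hbf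
  obtain ⟨E0, hE0⟩ := alQ_BM (q := q) hw hb0
  obtain ⟨E1, hE1⟩ := alQ_BM (q := q) hw (hbf.sub hb0)
  have per1 : ∀ t, alQ w q (fun t => b t - b0 t) (t + Real.pi) = alQ w q (fun t => b t - b0 t) t := by
    intro t
    unfold alQ
    simp only [hw.per, h.perb, pb0]
  have hP := pc_split (b0 := b0) hw hbf hb0
  have hR := rc_split (b0 := b0) hw hbf hb0
  have hS := sc_split (z0 := z0) hw hzf hz0
  set p := pc w (fun t => b t - b0 t) with hpd
  set r := rc w (fun t => b t - b0 t) with hrd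
  set s := sc w (fun t => z t - z0 t) with hsd
  -- link 1
  have wtw : (fun t => wt η2 η6 η10 t) = fun t => (w t : ℂ) := by
    funext t; rw [hwdef, wt_wR]
  obtain ⟨CW, hCW⟩ := bmw hw
  have hA := link1_rot hC hCW hEA (fun t => by
    have := A0Q_form q b η2 η6 η10 t
    rw [wt_wR] at this
    exact this)
  have hBMs : BM (fun t => (w t : ℂ) + alQ w q b t) (CW + EA) := hCW.add hEA
  have fcs : ∀ n, fc (fun t => (w t : ℂ) + alQ w q b t) n =
      wc w n + (pc w b0 n + p n) + Complex.I / (q : ℂ) * (rc w b0 n + r n) := by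
    intro n
    rw [fc_add hCW hEA, fc_alQ hw hbf, hP, hR]
    simp only [Pi.add_apply]
    unfold wc
    ring
  have odd0 : ∀ n : ℤ, ¬ Even n → fc (fun t => (w t : ℂ) + alQ w q b t) n = 0 := by
    intro n hn
    exact Helper87.RC.fc_perpi hBMs (fun t => by
      show (w (t + Real.pi) : ℂ) + alQ w q b (t + Real.pi) = (w t : ℂ) + alQ w q b t
      rw [hw.per, alQ_per h hw]) (Int.not_even_iff_odd.1 hn)
  have lim1 : Tendsto (fun N : ℕ => ∑ n ∈ Finset.Icc (-(N : ℤ)) N,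
      ‖wc w n + (pc w b0 n + p n) + Complex.I / (q : ℂ) * (rc w b0 n + r n)‖ ^ 2 / ((n : ℝ) + 1)) atTop
      (𝓝 (∑' j : ℤ, ‖fc (fun t => (w t : ℂ)) (2 * j) + fc (alQ w q b) (2 * j)‖ ^ 2 / (2 * (j : ℝ) + 1))) := by
    have h1 := tend_div hBMs
    rw [tsum_even hBMs odd0] at h1
    simp_rw [fcs] at h1
    have e2 : (∑' j : ℤ, ‖fc (fun t => (w t : ℂ)) (2 * j) + fc (alQ w q b) (2 * j)‖ ^ 2 / (2 * (j : ℝ) + 1)) =
        ∑' j : ℤ, ‖wc w (2 * j) + (pc w b0 (2 * j) + p (2 * j)) +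
          Complex.I / (q : ℂ) * (rc w b0 (2 * j) + r (2 * j))‖ ^ 2 / (2 * (j : ℝ) + 1) := by
      congr 1
      funext j
      rw [← fc_add hCW hEA, fcs]
    rw [e2]
    exact h1
  -- link 2
  have e1 : fc (F1Q w q b z) = c1 q (wc w) (pc w b0 + p) (rc w b0 + r) (sc w z0 + s) := by
    funext m
    rw [fc_F1Q hq h hw, hP, hR, hS]
  have e2 : fc (F2Q w q b z) = c2 q (wc w) (pc w b0 + p) (rc w b0 + r) (sc w z0 + s) := by
    funext m
    rw [fc_F2Q hq h hw, hP, hR, hS]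
  have ea : ∀ m, fc (alQ w q fun t => b t - b0 t) m = p m + Complex.I / (q : ℂ) * r m := fun m =>
    fc_alQ hw (hbf.sub hb0) m
  have lB1 := BA_lim hE1 per1 bF1 m1
  have lB2 := BA_lim hE1 per1 bF2 m2
  simp_rw [e1, ea] at lB1
  simp_rw [e2, ea] at lB2
  have lim2 := (Complex.continuous_im.tendsto _).comp (lB1.add lB2)
  -- link 3
  obtain ⟨L3, hL3a, hL3b⟩ := link3Q hq h hw hψ hp hb
  rw [hP, hR, hS] at hL3a
  refine ⟨(∑' j : ℤ, ‖fc (fun t => (w t : ℂ)) (2 * j) + fc (alQ w q b) (2 * j)‖ ^ 2 / (2 * (j : ℝ) + 1))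
      + (BA φ1 (alQ w q fun t => b t - b0 t) (F1Q w q b z) +
        BA φ2 (alQ w q fun t => b t - b0 t) (F2Q w q b z)).im + L3, ?_, ?_⟩
  · refine ((lim1.add lim2).add hL3a).congr fun N => ?_
    unfold EN
    congr 2
    show (_ + _ : ℂ).im = _
    congr 1
    rw [← Finset.sum_add_distrib]
    apply Finset.sum_congr rfl
    intro m _
    rw [← Finset.sum_add_distrib]
  · have h2 := link2Q (η2 := η2) (η6 := η6) (η10 := η10) hq h he (al_meas bF1.m) (al_meas bF2.m)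
      (al_abs _) (al_abs _)
    rw [← hwdef, Pool.Agent.Helper20.RC.L2r_self, add_zero] at h2
    have hsum : alQ w q b = fun t => alQ w q b0 t + alQ w q (fun t => b t - b0 t) t :=
      funext fun t => alQ_add w q b b0 t
    have h3 := L2b_add hE0 hE1 bF1 bF2 (al_meas bF1.m) (al_meas bF2.m)
    rw [← hsum] at h3
    have h4 := L2b_split hE1 per1 bF1 bF2 m1 m2 k1 k2
    have h5 := L2b_BA hE1 bF1 bF2 m1 m2
    have h6 := target_wR h he
    rw [← hwdef] at h6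
    rw [splQ hq h hw]
    have h7 := hA.2
    linarith

end Helper95.RC
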