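import Pool.Agent.Helper95.RC.Tr

/-!
# Project RC, SHARP: the quadratic frame on truncated sequences (`frameT`)
-/

open MeasureTheory Set Filter Topology

namespace Helper95.RC

open Helper49.LT hiding sg
open Helper49.RC (om)
open Helper87.RC (Fam BM intg_of_bddC intg_of_bdd fc_eq fc_sub fc_cmul fc_add fc_conj pars pars2)
open Helper56.RC (fc)
open Helper44.RCG (G1 G2 N0 Hex A00G A0QG AQQG sgG)
open Helper44.GQ (aQ cQ AdmQ A0Q AAQ BBQ FMQ mQ Rq F1Q F2Q hexQ splQ)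
open Helper49.RC (vvS Wgt)
open Pool.Agent.Helper20.RC (alQ wR wR_wgt alQ_bm alQ_per A0Q_form wt wt_wR L2w L2b L2r link2Q rg al al_ee al_abs al_meas
  im_rough int_meas target_wR link1_rot bm_wt rg_intg)

/-- square summable -/
def S2 (f : ℤ → ℂ) : Prop := Summable fun n => ‖f n‖ ^ 2

theorem nsq2 (x y : ℂ) : ‖x + y‖ ^ 2 ≤ 2 * ‖x‖ ^ 2 + 2 * ‖y‖ ^ 2 := by
  have h := norm_add_le x y
  have h0 := norm_nonneg (x + y)
  nlinarith [sq_nonneg (‖x‖ - ‖y‖), norm_nonneg x, norm_nonneg y]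

theorem S2.add {f g : ℤ → ℂ} (hf : S2 f) (hg : S2 g) : S2 (fun n => f n + g n) := by
  refine Summable.of_nonneg_of_le (fun n => by positivity) (fun n => nsq2 (f n) (g n)) ?_
  exact (Summable.mul_left 2 hf).add (Summable.mul_left 2 hg)

theorem S2.cmul {f : ℤ → ℂ} (hf : S2 f) (c : ℂ) : S2 (fun n => c * f n) := by
  have : (fun n => ‖c * f n‖ ^ 2) = fun n => ‖c‖ ^ 2 * ‖f n‖ ^ 2 := by
    funext n; rw [norm_mul, mul_pow]
  unfold S2
  rw [this]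
  exact Summable.mul_left _ hf

theorem S2.shift {f : ℤ → ℂ} (hf : S2 f) : S2 (fun n => f (n - 1)) :=
  (Equiv.subRight (1 : ℤ)).summable_iff.2 hf

theorem S2.unit {f : ℤ → ℂ} (hf : S2 f) (x : ℤ → ℝ) : S2 (fun n => ee (x n) * f n) := by
  have : (fun n => ‖ee (x n) * f n‖ ^ 2) = fun n => ‖f n‖ ^ 2 := by
    funext n; rw [norm_mul, norm_ee, one_mul]
  unfold S2
  rw [this]
  exact hf

theorem S2_fc {f : ℝ → ℂ} {C : ℝ} (hf : BM f C) : S2 (fc f) := (pars hf).summable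

theorem c1_S2 {q : ℝ} {W p r s : ℤ → ℂ} (hW : S2 W) (hp : S2 p) (hr : S2 r) (hs : S2 s) : S2 (c1 q W p r s) := by
  have h := (((hW.shift.cmul om).add (hp.shift.cmul ((starRingEnd ℂ) om))).add (hr.shift.cmul (kq q))).add hs.shift
  exact h.unit (fun m => -(m : ℝ) * (Real.pi / 3))

theorem c2_S2 {q : ℝ} {W p r s : ℤ → ℂ} (hW : S2 W) (hp : S2 p) (hr : S2 r) (hs : S2 s) : S2 (c2 q W p r s) := by
  have h := (((hW.shift.cmul (om ^ 2)).add (hp.shift.cmul ((starRingEnd ℂ) om ^ 2))).add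
    (hr.shift.cmul ((starRingEnd ℂ) (kq q)))).add (hs.shift.cmul (-1))
  have h2 := h.unit (fun m => -(m : ℝ) * (2 * Real.pi / 3))
  have e : c2 q W p r s = fun m : ℤ => ee (-(m : ℝ) * (2 * Real.pi / 3)) * (om ^ 2 * W (m - 1) +
      (starRingEnd ℂ) om ^ 2 * p (m - 1) + (starRingEnd ℂ) (kq q) * r (m - 1) + -1 * s (m - 1)) := by
    funext m
    unfold c2
    ring
  rw [e]
  exact h2

theorem tail_shift {f : ℤ → ℂ} (h : S2 f) :
    Tendsto (fun N : ℕ => ∑ m ∈ Finset.Icc (-((N + 1 : ℕ) : ℤ)) ((N + 1 : ℕ) : ℤ),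
      ‖f (m - 1) - tr N f (m - 1)‖ ^ 2) atTop (𝓝 0) := by
  refine squeeze_zero (fun N => Finset.sum_nonneg fun n _ => by positivity) (fun N => ?_) (tail h 2)
  have e : ∑ m ∈ Finset.Icc (-((N + 1 : ℕ) : ℤ)) ((N + 1 : ℕ) : ℤ), ‖f (m - 1) - tr N f (m - 1)‖ ^ 2 =
      ∑ n ∈ Finset.Icc (-((N + 1 : ℕ) : ℤ) - 1) (((N + 1 : ℕ) : ℤ) - 1), ‖f n - tr N f n‖ ^ 2 := by
    refine Finset.sum_nbij' (fun n => n - 1) (fun m => m + 1) ?_ ?_ ?_ ?_ ?_
    · intro n hn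
      rw [Finset.mem_Icc] at hn ⊢
      omega
    · intro n hn
      rw [Finset.mem_Icc] at hn ⊢
      omega
    · intro n _
      ring
    · intro n _
      ring
    · intro n _
      rfl
  show ∑ m ∈ Finset.Icc (-((N + 1 : ℕ) : ℤ)) ((N + 1 : ℕ) : ℤ), ‖f (m - 1) - tr N f (m - 1)‖ ^ 2 ≤ _
  rw [e]
  apply Finset.sum_le_sum_of_subset_of_nonneg
  · intro m hm
    rw [Finset.mem_Icc] at hm ⊢
    push_cast at hm ⊢
    omega
  · intro n _ _
    positivity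

theorem tail0 {f : ℤ → ℂ} (h : S2 f) :
    Tendsto (fun N : ℕ => ∑ m ∈ Finset.Icc (-((N + 1 : ℕ) : ℤ)) ((N + 1 : ℕ) : ℤ), ‖f m - tr N f m‖ ^ 2)
      atTop (𝓝 0) := tail h 1

theorem nsq3 (x y z : ℂ) : ‖x + y + z‖ ^ 2 ≤ 3 * (‖x‖ ^ 2 + ‖y‖ ^ 2 + ‖z‖ ^ 2) := by
  have h := norm_add₃_le (a := x) (b := y) (c := z)
  have h0 := norm_nonneg (x + y + z)
  have h1 : ‖x + y + z‖ ^ 2 ≤ (‖x‖ + ‖y‖ + ‖z‖) ^ 2 := pow_le_pow_left₀ h0 h 2
  nlinarith [sq_nonneg (‖x‖ - ‖y‖), sq_nonneg (‖x‖ - ‖z‖), sq_nonneg (‖y‖ - ‖z‖)]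

/-- the tail of a combination -/
theorem tail_comb {f g h : ℕ → ℤ → ℂ} (x y z : ℂ) (u : ℤ → ℝ) {S : ℕ → Finset ℤ}
    (tf : Tendsto (fun N : ℕ => ∑ m ∈ S N, ‖f N m‖ ^ 2) atTop (𝓝 0))
    (tg : Tendsto (fun N : ℕ => ∑ m ∈ S N, ‖g N m‖ ^ 2) atTop (𝓝 0))
    (th : Tendsto (fun N : ℕ => ∑ m ∈ S N, ‖h N m‖ ^ 2) atTop (𝓝 0)) :
    Tendsto (fun N : ℕ => ∑ m ∈ S N, ‖ee (u m) * (x * f N m + y * g N m + z * h N m)‖ ^ 2) atTop (𝓝 0) := by
  have t := ((tf.const_mul (3 * ‖x‖ ^ 2)).add (tg.const_mul (3 * ‖y‖ ^ 2))).add (th.const_mul (3 * ‖z‖ ^ 2))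
  rw [mul_zero, mul_zero, mul_zero, add_zero, add_zero] at t
  refine squeeze_zero (fun N => Finset.sum_nonneg fun n _ => by positivity) (fun N => ?_) t
  rw [Finset.mul_sum, Finset.mul_sum, Finset.mul_sum, ← Finset.sum_add_distrib, ← Finset.sum_add_distrib]
  apply Finset.sum_le_sum
  intro n _
  rw [norm_mul, norm_ee, one_mul]
  refine (nsq3 _ _ _).trans (le_of_eq ?_)
  rw [norm_mul, norm_mul, norm_mul]
  ring

/-- THE QUADRATIC FRAME on truncated sequences -/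
theorem frameT {q : ℝ} (hq : 0 < q) {b z : ℝ → ℂ} (h : AdmQ q b z) {η2 η6 η10 : ℂ}
    (he : ‖η2‖ + ‖η6‖ + ‖η10‖ ≤ 1 / 2) {φ1 φ2 : ℝ → ℝ} (m1 : Measurable φ1) (m2 : Measurable φ2) {K : ℝ}
    (k1 : ∀ θ, |φ1 θ - θ| ≤ K) (k2 : ∀ θ, |φ2 θ - θ| ≤ K)
    {ψ : ℝ → ℝ} (hψ : Measurable ψ) (hp : ∀ φ, ψ (φ + 2 * Real.pi) = ψ φ)
    (hb : ∀ φ, |ψ φ| ≤ Real.pi / 3) {b0 z0 : ℝ → ℂ} (hb0 : BF b0) (hz0 : BF z0)
    (pb0 : ∀ t, b0 (t + Real.pi) = b0 t) :
    ∃ E : ℝ, Tendsto (fun N : ℕ => EN q ψ φ1 φ2 (N + 1) (wc (wR η2 η6 η10))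
        (pc (wR η2 η6 η10) b0) (rc (wR η2 η6 η10) b0) (sc (wR η2 η6 η10) z0)
        (tr N (pc (wR η2 η6 η10) fun t => b t - b0 t)) (tr N (rc (wR η2 η6 η10) fun t => b t - b0 t))
        (tr N (sc (wR η2 η6 η10) fun t => z t - z0 t))) atTop (𝓝 E) ∧
      2 / 3 * ‖sgG (A0Q (wR η2 η6 η10) q b) (AAQ (wR η2 η6 η10) q b) (BBQ (wR η2 η6 η10) q b)
          (vvS (wR η2 η6 η10) z) 2‖ ^ 2
        + E
        + 2 * (L2w η2 η6 η10 (F1Q (wR η2 η6 η10) q b z) (F2Q (wR η2 η6 η10) q b z)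
          + L2b (alQ (wR η2 η6 η10) q b0) (F1Q (wR η2 η6 η10) q b z) (F2Q (wR η2 η6 η10) q b z)
            (al (F1Q (wR η2 η6 η10) q b z)) (al (F2Q (wR η2 η6 η10) q b z))
          + L2r (alQ (wR η2 η6 η10) q fun t => b t - b0 t) (F1Q (wR η2 η6 η10) q b z)
            (F2Q (wR η2 η6 η10) q b z) φ1 φ2)
        - 9 + 9 * (1 / (2 * Real.pi) * ∫ t in (0 : ℝ)..(2 * Real.pi), wR η2 η6 η10 t * ‖b t‖ ^ 2)
        ≤ FMQ (wR η2 η6 η10) q b z - 9 * 1 * mQ (wR η2 η6 η10) b ^ 2 := by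
  obtain ⟨E, hE, hin⟩ := frameE hq h he m1 m2 k1 k2 hψ hp hb hb0 hz0 pb0
  refine ⟨E, ?_, hin⟩
  set w := wR η2 η6 η10 with hwdef
  have hw : Wgt w := wR_wgt he
  have hbf := AdmQ.bfb h
  have hzf := AdmQ.bfz hq h
  have sW : S2 (wc w) := by obtain ⟨C, hC⟩ := bmw hw; exact S2_fc hC
  have sp0 : S2 (pc w b0) := by obtain ⟨C, hC⟩ := bm_wre hw hb0; exact S2_fc hC
  have sr0 : S2 (rc w b0) := by obtain ⟨C, hC⟩ := bm_wim hw hb0; exact S2_fc hC
  have ss0 : S2 (sc w z0) := by obtain ⟨C, hC⟩ := bm_wz hw hz0; exact S2_fc hC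
  have sp : S2 (pc w (fun t => b t - b0 t)) := by
    obtain ⟨C, hC⟩ := bm_wre hw (hbf.sub hb0); exact S2_fc hC
  have sr : S2 (rc w (fun t => b t - b0 t)) := by
    obtain ⟨C, hC⟩ := bm_wim hw (hbf.sub hb0); exact S2_fc hC
  have ss : S2 (sc w (fun t => z t - z0 t)) := by
    obtain ⟨C, hC⟩ := bm_wz hw (hzf.sub hz0); exact S2_fc hC
  have op : ∀ n : ℤ, ¬ Even n → pc w (fun t => b t - b0 t) n = 0 := by
    intro n hn
    obtain ⟨C, hC⟩ := bm_wre hw (hbf.sub hb0)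
    exact Helper87.RC.fc_perpi hC (fun t => by
      show ((w (t + Real.pi) * (b (t + Real.pi) - b0 (t + Real.pi)).re : ℝ) : ℂ) = _
      rw [hw.per, h.perb, pb0]) (Int.not_even_iff_odd.1 hn)
  have or : ∀ n : ℤ, ¬ Even n → rc w (fun t => b t - b0 t) n = 0 := by
    intro n hn
    obtain ⟨C, hC⟩ := bm_wim hw (hbf.sub hb0)
    exact Helper87.RC.fc_perpi hC (fun t => by
      show ((w (t + Real.pi) * (b (t + Real.pi) - b0 (t + Real.pi)).im : ℝ) : ℂ) = _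
      rw [hw.per, h.perb, pb0]) (Int.not_even_iff_odd.1 hn)
  generalize pc w (fun t => b t - b0 t) = p at sp op hE ⊢
  generalize rc w (fun t => b t - b0 t) = r at sr or hE ⊢
  generalize sc w (fun t => z t - z0 t) = s at ss hE ⊢
  generalize pc w b0 = p0 at sp0 hE ⊢
  generalize rc w b0 = r0 at sr0 hE ⊢
  generalize sc w z0 = s0 at ss0 hE ⊢
  generalize wc w = W at sW hE ⊢
  have hE1 := hE.comp (tendsto_add_atTop_nat 1)
  have hpi := Real.pi_pos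
  -- tails
  have tp1 := tail_shift sp
  have tr1 := tail_shift sr
  have ts1 := tail_shift ss
  have z0t : Tendsto (fun N : ℕ => ∑ m ∈ Finset.Icc (-((N + 1 : ℕ) : ℤ)) ((N + 1 : ℕ) : ℤ), ‖(0 : ℂ)‖ ^ 2)
      atTop (𝓝 0) := by simp
  have ta := tail_comb (f := fun N m => p m - tr N p m) (g := fun N m => r m - tr N r m) (h := fun _ _ => 0)
    1 (Complex.I / (q : ℂ)) 0 (fun _ => 0)
    (S := fun N => Finset.Icc (-((N + 1 : ℕ) : ℤ)) ((N + 1 : ℕ) : ℤ)) (tail0 sp) (tail0 sr) z0t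
  have t1 := tail_comb (f := fun N m => p (m - 1) - tr N p (m - 1)) (g := fun N m => r (m - 1) - tr N r (m - 1))
    (h := fun N m => s (m - 1) - tr N s (m - 1))
    ((starRingEnd ℂ) om) (kq q) 1 (fun m => -(m : ℝ) * (Real.pi / 3))
    (S := fun N => Finset.Icc (-((N + 1 : ℕ) : ℤ)) ((N + 1 : ℕ) : ℤ)) tp1 tr1 ts1
  have t2 := tail_comb (f := fun N m => p (m - 1) - tr N p (m - 1)) (g := fun N m => r (m - 1) - tr N r (m - 1))
    (h := fun N m => s (m - 1) - tr N s (m - 1))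
    ((starRingEnd ℂ) om ^ 2) ((starRingEnd ℂ) (kq q)) (-1) (fun m => -(m : ℝ) * (2 * Real.pi / 3))
    (S := fun N => Finset.Icc (-((N + 1 : ℕ) : ℤ)) ((N + 1 : ℕ) : ℤ)) tp1 tr1 ts1
  -- link 1
  have sal : S2 (fun n => W n + (p0 n + p n) + Complex.I / (q : ℂ) * (r0 n + r n)) :=
    (sW.add (sp0.add sp)).add ((sr0.add sr).cmul _)
  have l1 := sq_lim (fun n : ℤ => 1 / ((n : ℝ) + 1)) (fun n => by
      have := inv_le_one (n + 1)
      push_cast at this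
      exact this) (fun N => Finset.Icc (-((N + 1 : ℕ) : ℤ)) ((N + 1 : ℕ) : ℤ))
    (a := fun n => W n + (p0 n + p n) + Complex.I / (q : ℂ) * (r0 n + r n))
    (a' := fun N n => W n + (p0 n + tr N p n) + Complex.I / (q : ℂ) * (r0 n + tr N r n))
    (A := ∑' n, ‖W n + (p0 n + p n) + Complex.I / (q : ℂ) * (r0 n + r n)‖ ^ 2)
    (fun N => sal.sum_le_tsum _ (fun n _ => by positivity)) (by
      refine ta.congr fun N => Finset.sum_congr rfl fun n _ => ?_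
      rw [norm_mul, norm_ee, one_mul]
      congr 2
      ring)
  -- link 2
  have l2 := LB_lim m1 m2 1 (a := ah q p r) (g1 := c1 q W (p0 + p) (r0 + r) (s0 + s))
    (g2 := c2 q W (p0 + p) (r0 + r) (s0 + s)) (a' := fun N => ah q (tr N p) (tr N r))
    (g1' := fun N => c1 q W (p0 + tr N p) (r0 + tr N r) (s0 + tr N s))
    (g2' := fun N => c2 q W (p0 + tr N p) (r0 + tr N r) (s0 + tr N s))
    (fun n hn => by unfold ah; rw [op n hn, or n hn]; ring)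
    (fun N n hn => by
      show ah q (tr N p) (tr N r) n = 0
      unfold ah tr
      rw [op n hn, or n hn]; simp)
    (sp.add (sr.cmul _))
    (c1_S2 sW (sp0.add sp) (sr0.add sr) (ss0.add ss)) (c2_S2 sW (sp0.add sp) (sr0.add sr) (ss0.add ss))
    (by
      refine ta.congr fun N => Finset.sum_congr rfl fun n _ => ?_
      rw [norm_mul, norm_ee, one_mul]
      unfold ah
      congr 2
      ring)
    (by
      refine t1.congr fun N => Finset.sum_congr rfl fun n _ => ?_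
      unfold c1
      simp only [Pi.add_apply]
      congr 2
      ring)
    (by
      refine t2.congr fun N => Finset.sum_congr rfl fun n _ => ?_
      unfold c2
      simp only [Pi.add_apply]
      congr 2
      ring)
  -- link 3
  have l3 := NF_lim hψ hb 1 (a := c1 q W (p0 + p) (r0 + r) (s0 + s))
    (b := c2 q W (p0 + p) (r0 + r) (s0 + s))
    (a' := fun N => c1 q W (p0 + tr N p) (r0 + tr N r) (s0 + tr N s))
    (b' := fun N => c2 q W (p0 + tr N p) (r0 + tr N r) (s0 + tr N s))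
    (c1_S2 sW (sp0.add sp) (sr0.add sr) (ss0.add ss)) (c2_S2 sW (sp0.add sp) (sr0.add sr) (ss0.add ss))
    (by
      refine t1.congr fun N => Finset.sum_congr rfl fun n _ => ?_
      unfold c1
      simp only [Pi.add_apply]
      congr 2
      ring)
    (by
      refine t2.congr fun N => Finset.sum_congr rfl fun n _ => ?_
      unfold c2
      simp only [Pi.add_apply]
      congr 2
      ring)
  have l2' := (Complex.continuous_im.tendsto _).comp l2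
  rw [Complex.zero_im] at l2'
  have l4 := hE1.sub ((l1.add l2').add l3)
  rw [add_zero, add_zero, sub_zero] at l4
  refine l4.congr fun N => ?_
  unfold EN
  simp only [Function.comp_apply, Complex.sub_im]
  have e : ∀ a g1 g2 : ℤ → ℂ, (LB φ1 φ2 (N + 1) a g1 g2) =
    ∑ m ∈ Finset.Icc (-((N + 1 : ℕ) : ℤ)) ((N + 1 : ℕ) : ℤ), ∑ n ∈ Finset.Icc (-((N + 1 : ℕ) : ℤ)) ((N + 1 : ℕ) : ℤ),
    (g1 n * (starRingEnd ℂ) (a m) * Bc φ1 m n + g2 n * (starRingEnd ℂ) (a m) * Bc φ2 m n) := fun _ _ _ => rfl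
  rw [e, e]
  unfold ah
  simp only [mul_one_div]
  ring

end Helper95.RC
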