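import Pool.Agent.Helper95.RC.M_SHL

/-!
# Project RC, SHARP: limits of trigonometric sections (bricks of the quadratic frame)
-/

open MeasureTheory Set Filter Topology

namespace Helper95.RC

open Helper49.LT hiding sg
open Helper87.RC (Fam BM intg_of_bddC intg_of_bdd fc_eq fc_sub fc_cmul fc_add fc_conj pars pars2)
open Helper56.RC (fc)

section

variable {f g : ℝ → ℂ} {C D : ℝ}

/-- sections of the bilinear Parseval formula -/
theorem tend_pars2 (hf : BM f C) (hg : BM g D) :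
    Tendsto (fun N : ℕ => ∑ n ∈ Finset.Icc (-(N : ℤ)) N, fc f n * (starRingEnd ℂ) (fc g n)) atTop
      (𝓝 (av fun t => f t * (starRingEnd ℂ) (g t))) :=
  (pars2 hf hg).comp tendsto_Icc_int

theorem tend_pars2_re (hf : BM f C) (hg : BM g D) :
    Tendsto (fun N : ℕ => ∑ n ∈ Finset.Icc (-(N : ℤ)) N, (fc f n * (starRingEnd ℂ) (fc g n)).re) atTop
      (𝓝 (av fun t => f t * (starRingEnd ℂ) (g t)).re) := by
  have h := (Complex.continuous_re.tendsto _).comp (tend_pars2 hf hg)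
  refine h.congr fun N => ?_
  simp [Complex.re_sum]

/-- sections of `⟨‖f‖²⟩` -/
theorem tend_pars (hf : BM f C) :
    Tendsto (fun N : ℕ => ∑ n ∈ Finset.Icc (-(N : ℤ)) N, ‖fc f n‖ ^ 2) atTop (𝓝 (ms f)) :=
  (pars hf).comp tendsto_Icc_int

/-- sections of `⟨f²⟩` -/
theorem tend_sq (hf : BM f C) :
    Tendsto (fun N : ℕ => ∑ n ∈ Finset.Icc (-(N : ℤ)) N, fc f n * fc f (-n)) atTop
      (𝓝 (av fun t => f t ^ 2)) := by
  have h := tend_pars2 hf hf.conj
  have e1 : (av fun t => f t * (starRingEnd ℂ) ((starRingEnd ℂ) (f t))) = av fun t => f t ^ 2 := by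
    unfold av
    congr 1
    refine intervalIntegral.integral_congr fun t _ => ?_
    show f t * (starRingEnd ℂ) ((starRingEnd ℂ) (f t)) = f t ^ 2
    rw [Complex.conj_conj]; ring
  rw [e1] at h
  refine h.congr fun N => Finset.sum_congr rfl fun n _ => ?_
  rw [fc_conj, Complex.conj_conj]

/-- sections of a weighted Parseval sum (`1/(n+1)`) -/
theorem tend_div (hf : BM f C) :
    Tendsto (fun N : ℕ => ∑ n ∈ Finset.Icc (-(N : ℤ)) N, ‖fc f n‖ ^ 2 / ((n : ℝ) + 1)) atTop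
      (𝓝 (∑' n : ℤ, ‖fc f n‖ ^ 2 / ((n : ℝ) + 1))) := by
  have hs : Summable fun n : ℤ => ‖fc f n‖ ^ 2 / ((n : ℝ) + 1) := by
    refine Summable.of_norm_bounded (pars hf).summable fun n => ?_
    rw [norm_div, Real.norm_of_nonneg (by positivity)]
    by_cases h0 : (n : ℝ) + 1 = 0
    · rw [h0]; simp
    · have h1 : (1 : ℝ) ≤ ‖(n : ℝ) + 1‖ := by
        rw [Real.norm_eq_abs]
        have h2 : n + 1 ≠ 0 := by
          intro h; apply h0; exact_mod_cast h
        have h3 : (1 : ℤ) ≤ |n + 1| := Int.one_le_abs h2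
        have h4 : ((|n + 1| : ℤ) : ℝ) = |(n : ℝ) + 1| := by push_cast; rfl
        rw [← h4]
        exact_mod_cast h3
      exact div_le_self (by positivity) h1
  exact hs.hasSum.comp tendsto_Icc_int

/-- the sum over the even frequencies, in the form of link 1 -/
theorem tsum_even (hf : BM f C) (hp : ∀ n : ℤ, ¬ Even n → fc f n = 0) :
    ∑' n : ℤ, ‖fc f n‖ ^ 2 / ((n : ℝ) + 1) = ∑' j : ℤ, ‖fc f (2 * j)‖ ^ 2 / (2 * (j : ℝ) + 1) := by
  have hinj : Function.Injective (fun j : ℤ => 2 * j) := by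
    intro a b hab; simp only at hab; omega
  have hsup : Function.support (fun n : ℤ => ‖fc f n‖ ^ 2 / ((n : ℝ) + 1)) ⊆ Set.range (fun j : ℤ => 2 * j) := by
    intro n hn
    by_contra hcon
    apply hn
    have h1 : ¬ Even n := by
      rintro ⟨k, hk⟩
      apply hcon
      exact ⟨k, by show 2 * k = n; omega⟩
    show ‖fc f n‖ ^ 2 / ((n : ℝ) + 1) = 0
    rw [hp n h1]; simp
  rw [← hinj.tsum_eq hsup]
  congr 1
  funext j
  push_cast
  rfl

end

/-! ### the isotropic local form -/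

/-- `L(z) = (3/2) (Re z)² + (1/2) (Im z)²` -/
noncomputable def Lf (z : ℂ) : ℝ := 3 / 2 * z.re ^ 2 + 1 / 2 * z.im ^ 2

theorem Lf_eq (z : ℂ) : Lf z = ‖z‖ ^ 2 + 1 / 2 * (z ^ 2).re := by
  rw [Lf, ← Complex.normSq_eq_norm_sq, Complex.normSq_apply, sq z, Complex.mul_re]
  ring

theorem tend_L {f : ℝ → ℂ} {C : ℝ} (hf : BM f C) :
    Tendsto (fun N : ℕ => ∑ n ∈ Finset.Icc (-(N : ℤ)) N,
      (‖fc f n‖ ^ 2 + 1 / 2 * (fc f n * fc f (-n)).re)) atTop
      (𝓝 ((1 / (2 * Real.pi)) * ∫ t in (0 : ℝ)..(2 * Real.pi), Lf (f t))) := by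
  have h1 := tend_pars hf
  have h2 := ((Complex.continuous_re.tendsto _).comp (tend_sq hf)).const_mul (1 / 2)
  have h3 := h1.add h2
  have hi1 : IntervalIntegrable (fun t => ‖f t‖ ^ 2) volume 0 (2 * Real.pi) := by
    refine intg_of_bdd (C := C ^ 2) (hf.m.norm.pow_const 2) (fun t => ?_) _ _
    show |‖f t‖ ^ 2| ≤ C ^ 2
    rw [abs_of_nonneg (by positivity)]
    exact pow_le_pow_left₀ (norm_nonneg _) (hf.b t) 2
  have hi2 : IntervalIntegrable (fun t => f t ^ 2) volume 0 (2 * Real.pi) := by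
    refine intg_of_bddC (C := C ^ 2) (hf.m.pow_const 2) (fun t => ?_) _ _
    show ‖f t ^ 2‖ ≤ C ^ 2
    rw [norm_pow]
    exact pow_le_pow_left₀ (norm_nonneg _) (hf.b t) 2
  have hi3 : IntervalIntegrable (fun t => (f t ^ 2).re) volume 0 (2 * Real.pi) := by
    refine intg_of_bdd (C := C ^ 2) (Complex.continuous_re.measurable.comp (hf.m.pow_const 2))
      (fun t => ?_) _ _
    show |(f t ^ 2).re| ≤ C ^ 2
    refine (Complex.abs_re_le_norm _).trans ?_
    rw [norm_pow]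
    exact pow_le_pow_left₀ (norm_nonneg _) (hf.b t) 2
  have e : (1 / (2 * Real.pi)) * ∫ t in (0 : ℝ)..(2 * Real.pi), Lf (f t) =
      ms f + 1 / 2 * (av fun t => f t ^ 2).re := by
    simp_rw [Lf_eq]
    rw [intervalIntegral.integral_add hi1 (hi3.const_mul _), intervalIntegral.integral_const_mul]
    unfold ms av
    have e4 : (1 / (2 * Real.pi) : ℂ) = ((1 / (2 * Real.pi) : ℝ) : ℂ) := by push_cast; rfl
    rw [e4, Complex.re_ofReal_mul]
    have e5 : (∫ t in (0 : ℝ)..(2 * Real.pi), f t ^ 2).re = ∫ t in (0 : ℝ)..(2 * Real.pi), (f t ^ 2).re :=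
      (Complex.reCLM.intervalIntegral_comp_comm hi2).symm
    rw [e5]
    ring
  rw [e]
  refine h3.congr fun N => ?_
  rw [Finset.sum_add_distrib, ← Finset.mul_sum]
  congr 2
  show (∑ n ∈ Finset.Icc (-(N : ℤ)) N, fc f n * fc f (-n)).re = _
  rw [Complex.re_sum]

end Helper95.RC
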