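import Pool.Agent.Helper95.RC.StF

/-!
# Project RC, SHARP, link 3: the shift form (continuity, sections)
-/

open MeasureTheory Set Filter Topology

namespace Helper95.RC

open Helper49.LT hiding sg
open Helper87.RC (Fam BM intg_of_bddC intg_of_bdd)
open Helper56.RC (fc)
open Helper44.RCG (G1 G2 N0)

/-! ### Cauchy-Schwarz -/

theorem ii_bdd {u : ℝ → ℝ} {C : ℝ} (hu : Measurable u) (bu : ∀ t, |u t| ≤ C) (a b : ℝ) :
    IntervalIntegrable u volume a b :=
  intg_of_bdd hu bu a b

theorem cs {u v : ℝ → ℝ} {C D : ℝ} (hu : Measurable u) (hv : Measurable v) (bu : ∀ t, |u t| ≤ C)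
    (bv : ∀ t, |v t| ≤ D) {a b : ℝ} (hab : a ≤ b) :
    ∫ t in a..b, u t * v t ≤ Real.sqrt (∫ t in a..b, u t ^ 2) * Real.sqrt (∫ t in a..b, v t ^ 2) := by
  have hC : 0 ≤ C := (abs_nonneg _).trans (bu 0)
  have hD : 0 ≤ D := (abs_nonneg _).trans (bv 0)
  have i1 : IntervalIntegrable (fun t => u t ^ 2) volume a b := by
    apply ii_bdd (C := C ^ 2) (hu.pow_const 2)
    intro t
    rw [abs_pow]
    exact pow_le_pow_left₀ (abs_nonneg _) (bu t) 2
  have i2 : IntervalIntegrable (fun t => v t ^ 2) volume a b := by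
    apply ii_bdd (C := D ^ 2) (hv.pow_const 2)
    intro t
    rw [abs_pow]
    exact pow_le_pow_left₀ (abs_nonneg _) (bv t) 2
  have i3 : IntervalIntegrable (fun t => u t * v t) volume a b := by
    apply ii_bdd (C := C * D) (hu.mul hv)
    intro t
    show |u t * v t| ≤ C * D
    rw [abs_mul]
    exact mul_le_mul (bu t) (bv t) (abs_nonneg _) hC
  set U := ∫ t in a..b, u t ^ 2 with hU
  set V := ∫ t in a..b, v t ^ 2 with hV
  set W := ∫ t in a..b, u t * v t with hW
  have hU0 : 0 ≤ U := intervalIntegral.integral_nonneg hab fun t _ => sq_nonneg _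
  have hV0 : 0 ≤ V := intervalIntegral.integral_nonneg hab fun t _ => sq_nonneg _
  have key : ∀ x : ℝ, 0 ≤ U * (x * x) + (-2 * W) * x + V := by
    intro x
    have h1 : 0 ≤ ∫ t in a..b, (x * u t - v t) ^ 2 :=
      intervalIntegral.integral_nonneg hab fun t _ => sq_nonneg _
    have h2 : ∫ t in a..b, (x * u t - v t) ^ 2 = U * (x * x) + (-2 * W) * x + V := by
      have e : ∀ t, (x * u t - v t) ^ 2 = x ^ 2 * u t ^ 2 - 2 * x * (u t * v t) + v t ^ 2 := by
        intro t; ring
      simp_rw [e]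
      rw [intervalIntegral.integral_add ((i1.const_mul _).sub (i3.const_mul _)) i2,
        intervalIntegral.integral_sub (i1.const_mul _) (i3.const_mul _),
        intervalIntegral.integral_const_mul, intervalIntegral.integral_const_mul]
      ring
    rw [h2] at h1
    exact h1
  have hd := discrim_le_zero key
  unfold discrim at hd
  have h3 : W ^ 2 ≤ U * V := by nlinarith
  rw [← Real.sqrt_mul hU0]
  exact Real.le_sqrt_of_sq_le h3

/-! ### The window -/

/-- the sign of `u` in the window between `0` and `x` -/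
noncomputable def wn (x u : ℝ) : ℝ := if 0 < u ∧ u ≤ x then 1 else if x < u ∧ u ≤ 0 then -1 else 0

theorem wn_abs (x u : ℝ) : |wn x u| ≤ 1 := by
  unfold wn
  split_ifs <;> simp

theorem wn_meas : Measurable (fun q : ℝ × ℝ => wn q.1 q.2) := by
  unfold wn
  refine Measurable.ite ?_ measurable_const (Measurable.ite ?_ measurable_const measurable_const)
  · exact (measurableSet_lt measurable_const measurable_snd).inter
      (measurableSet_le measurable_snd measurable_fst)
  · exact (measurableSet_lt measurable_fst measurable_snd).inter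
      (measurableSet_le measurable_snd measurable_const)

theorem wn_int {x P : ℝ} (hx : |x| ≤ P) (h : ℝ → ℂ) :
    ∫ u in (0 : ℝ)..x, h u = ∫ u in (-P)..P, (wn x u : ℂ) * h u := by
  have hx' := abs_le.1 hx
  have hP : -P ≤ P := by linarith [abs_nonneg x]
  rw [intervalIntegral.integral_of_le hP]
  rcases le_total 0 x with h0 | h0
  · rw [intervalIntegral.integral_of_le h0]
    have e : ∀ u, (wn x u : ℂ) * h u = (Ioc 0 x).indicator h u := by
      intro u
      unfold wn
      by_cases hu : 0 < u ∧ u ≤ x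
      · have hm : u ∈ Ioc 0 x := hu
        rw [if_pos hu, indicator_of_mem hm]; simp
      · have hm : u ∉ Ioc 0 x := hu
        rw [if_neg hu, if_neg (by intro h'; linarith [h'.1, h'.2]), indicator_of_notMem hm]; simp
    simp_rw [e]
    rw [setIntegral_indicator measurableSet_Ioc]
    congr 2
    ext u
    simp only [mem_inter_iff, mem_Ioc]
    constructor
    · rintro ⟨a, b⟩; exact ⟨⟨by linarith, by linarith⟩, a, b⟩
    · rintro ⟨_, a⟩; exact a
  · rw [intervalIntegral.integral_symm, intervalIntegral.integral_of_le h0]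
    have e : ∀ u, (wn x u : ℂ) * h u = (Ioc x 0).indicator (fun u => -h u) u := by
      intro u
      unfold wn
      by_cases hu : x < u ∧ u ≤ 0
      · have hm : u ∈ Ioc x 0 := hu
        rw [if_neg (by intro h'; linarith [h'.1, hu.2]), if_pos hu, indicator_of_mem hm]; simp
      · have hm : u ∉ Ioc x 0 := hu
        rw [if_neg (by intro h'; linarith [h'.1, h'.2]), if_neg hu, indicator_of_notMem hm]; simp
    simp_rw [e]
    rw [setIntegral_indicator measurableSet_Ioc, integral_neg]
    congr 3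
    ext u
    simp only [mem_inter_iff, mem_Ioc]
    constructor
    · rintro ⟨a, b⟩; exact ⟨⟨by linarith, by linarith⟩, a, b⟩
    · rintro ⟨_, a⟩; exact a

section

variable {f g : ℝ → ℂ} {C D P : ℝ} {ψ : ℝ → ℝ}

/-- the integrand of the shift form on the rectangle -/
noncomputable def hh (ψ : ℝ → ℝ) (f g : ℝ → ℂ) (φ u : ℝ) : ℂ :=
  (wn (ψ φ) u : ℂ) * (f (φ + u / 2) * (starRingEnd ℂ) (g (φ - u / 2)))

theorem hh_meas (hf : BM f C) (hg : BM g D) (hψ : Measurable ψ) :
    Measurable (fun q : ℝ × ℝ => hh ψ f g q.1 q.2) := by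
  unfold hh
  refine Measurable.mul ?_ (Measurable.mul ?_ ?_)
  · exact Complex.measurable_ofReal.comp
      (wn_meas.comp ((hψ.comp measurable_fst).prodMk measurable_snd))
  · exact hf.m.comp (measurable_fst.add (measurable_snd.div_const 2))
  · exact hg.conj.m.comp (measurable_fst.sub (measurable_snd.div_const 2))

theorem hh_bd (hf : BM f C) (hg : BM g D) (φ u : ℝ) : ‖hh ψ f g φ u‖ ≤ C * D := by
  unfold hh
  rw [norm_mul, norm_mul, RCLike.norm_conj, Complex.norm_real, Real.norm_eq_abs]
  have h1 := wn_abs (ψ φ) u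
  have h2 := mul_le_mul (hf.b (φ + u / 2)) (hg.b (φ - u / 2)) (norm_nonneg _) hf.C0
  calc |wn (ψ φ) u| * (‖f (φ + u / 2)‖ * ‖g (φ - u / 2)‖) ≤ 1 * (C * D) :=
        mul_le_mul h1 h2 (by positivity) zero_le_one
    _ = C * D := one_mul _

theorem SH_eq (hP : ∀ t, |ψ t| ≤ P) : SH ψ f g = (1 / (2 * Real.pi) : ℂ) *
    ∫ φ in (0 : ℝ)..(2 * Real.pi), ∫ u in (-P)..P, hh ψ f g φ u := by
  unfold SH hh
  congr 1
  apply intervalIntegral.integral_congr
  intro φ _
  exact wn_int (hP φ) _

theorem inner_meas (hf : BM f C) (hg : BM g D) (hψ : Measurable ψ) (hP0 : 0 ≤ P) :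
    Measurable (fun φ => ∫ u in (-P)..P, hh ψ f g φ u) := by
  have h1 := (hh_meas hf hg hψ).stronglyMeasurable
  have h2 := h1.integral_prod_right' (ν := volume.restrict (Ioc (-P) P))
  have h3 : (fun φ => ∫ u in (-P)..P, hh ψ f g φ u) =
      fun φ => ∫ u, hh ψ f g φ u ∂(volume.restrict (Ioc (-P) P)) := by
    funext φ
    rw [intervalIntegral.integral_of_le (by linarith)]
  rw [h3]
  exact h2.measurable

theorem inner_bd (hf : BM f C) (hg : BM g D) (φ : ℝ) (hP0 : 0 ≤ P) :
    ‖∫ u in (-P)..P, hh ψ f g φ u‖ ≤ C * D * (2 * P) := by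
  have h := intervalIntegral.norm_integral_le_of_norm_le_const (a := -P) (b := P)
    (fun u _ => hh_bd (ψ := ψ) hf hg φ u)
  have e : |P - -P| = 2 * P := by rw [abs_of_nonneg (by linarith)]; ring
  rwa [e] at h

theorem hh_i (hf : BM f C) (hg : BM g D) (hψ : Measurable ψ) (φ a b : ℝ) :
    IntervalIntegrable (fun u => hh ψ f g φ u) volume a b :=
  intg_of_bddC ((hh_meas hf hg hψ).comp (measurable_const.prodMk measurable_id))
    (fun u => hh_bd hf hg φ u) a b

theorem SH_sub_left {f' : ℝ → ℂ} {C' : ℝ} (hf : BM f C) (hf' : BM f' C') (hg : BM g D)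
    (hψ : Measurable ψ) (hP : ∀ t, |ψ t| ≤ P) :
    SH ψ (fun t => f t - f' t) g = SH ψ f g - SH ψ f' g := by
  have hP0 : 0 ≤ P := (abs_nonneg _).trans (hP 0)
  rw [SH_eq hP, SH_eq hP, SH_eq hP, ← mul_sub]
  congr 1
  rw [← intervalIntegral.integral_sub (intg_of_bddC (inner_meas hf hg hψ hP0)
      (fun φ => inner_bd hf hg φ hP0) _ _) (intg_of_bddC (inner_meas hf' hg hψ hP0)
      (fun φ => inner_bd hf' hg φ hP0) _ _)]
  apply intervalIntegral.integral_congr
  intro φ _
  show (∫ u in (-P)..P, hh ψ (fun t => f t - f' t) g φ u) =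
    (∫ u in (-P)..P, hh ψ f g φ u) - ∫ u in (-P)..P, hh ψ f' g φ u
  rw [← intervalIntegral.integral_sub (hh_i hf hg hψ φ _ _) (hh_i hf' hg hψ φ _ _)]
  apply intervalIntegral.integral_congr
  intro u _
  show hh ψ (fun t => f t - f' t) g φ u = hh ψ f g φ u - hh ψ f' g φ u
  unfold hh
  ring

theorem SH_sub_right {g' : ℝ → ℂ} {D' : ℝ} (hf : BM f C) (hg : BM g D) (hg' : BM g' D')
    (hψ : Measurable ψ) (hP : ∀ t, |ψ t| ≤ P) :
    SH ψ f (fun t => g t - g' t) = SH ψ f g - SH ψ f g' := by
  have hP0 : 0 ≤ P := (abs_nonneg _).trans (hP 0)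
  rw [SH_eq hP, SH_eq hP, SH_eq hP, ← mul_sub]
  congr 1
  rw [← intervalIntegral.integral_sub (intg_of_bddC (inner_meas hf hg hψ hP0)
      (fun φ => inner_bd hf hg φ hP0) _ _) (intg_of_bddC (inner_meas hf hg' hψ hP0)
      (fun φ => inner_bd hf hg' φ hP0) _ _)]
  apply intervalIntegral.integral_congr
  intro φ _
  show (∫ u in (-P)..P, hh ψ f (fun t => g t - g' t) φ u) =
    (∫ u in (-P)..P, hh ψ f g φ u) - ∫ u in (-P)..P, hh ψ f g' φ u
  rw [← intervalIntegral.integral_sub (hh_i hf hg hψ φ _ _) (hh_i hf hg' hψ φ _ _)]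
  apply intervalIntegral.integral_congr
  intro u _
  show hh ψ f (fun t => g t - g' t) φ u = hh ψ f g φ u - hh ψ f g' φ u
  unfold hh
  rw [map_sub]
  ring

theorem ms_nonneg (f : ℝ → ℂ) : 0 ≤ ms f := by
  have hpi := Real.pi_pos
  unfold ms
  apply mul_nonneg (by positivity)
  exact intervalIntegral.integral_nonneg (by positivity) fun t _ => by positivity

theorem ms_shift (hf : ∀ t, f (t + 2 * Real.pi) = f t) (c : ℝ) :
    ∫ t in (0 : ℝ)..(2 * Real.pi), ‖f (t + c)‖ ^ 2 = (2 * Real.pi) * ms f := by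
  have hpi := Real.pi_pos
  rw [intervalIntegral.integral_comp_add_right (fun t => ‖f t‖ ^ 2)]
  have hp : Function.Periodic (fun t => ‖f t‖ ^ 2) (2 * Real.pi) := fun t => by
    show ‖f (t + 2 * Real.pi)‖ ^ 2 = _
    rw [hf]
  have := hp.intervalIntegral_add_eq (0 + c) 0
  rw [zero_add] at this
  rw [zero_add, add_comm (2 * Real.pi) c, this, zero_add]
  unfold ms
  field_simp

theorem hSHB : StSHB := by
  intro f g C D P ψ hf hg pf pg hψ hP
  have hpi := Real.pi_pos
  have hP0 : 0 ≤ P := (abs_nonneg _).trans (hP 0)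
  have hC := hf.C0
  have hD := hg.C0
  rw [SH_eq hP, norm_mul]
  have hn : ‖(1 / (2 * Real.pi) : ℂ)‖ = 1 / (2 * Real.pi) := by
    rw [norm_div, norm_mul, norm_one, Complex.norm_real, Complex.norm_ofNat,
      Real.norm_of_nonneg hpi.le]
  rw [hn]
  set N : ℝ × ℝ → ℝ := fun q => ‖f (q.1 + q.2 / 2)‖ * ‖g (q.1 - q.2 / 2)‖ with hN
  have Nm : Measurable N :=
    (hf.m.comp (measurable_fst.add (measurable_snd.div_const 2))).norm.mul
      (hg.m.comp (measurable_fst.sub (measurable_snd.div_const 2))).norm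
  have Nb : ∀ q, |N q| ≤ C * D := by
    intro q
    rw [hN]
    simp only
    rw [abs_of_nonneg (by positivity)]
    exact mul_le_mul (hf.b _) (hg.b _) (norm_nonneg _) hC
  have h1 : ‖∫ φ in (0 : ℝ)..(2 * Real.pi), ∫ u in (-P)..P, hh ψ f g φ u‖
      ≤ ∫ φ in (0 : ℝ)..(2 * Real.pi), ∫ u in (-P)..P, N (φ, u) := by
    apply intervalIntegral.norm_integral_le_of_norm_le (by positivity)
    · apply Eventually.of_forall
      intro φ _
      apply intervalIntegral.norm_integral_le_of_norm_le (by linarith)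
      · apply Eventually.of_forall
        intro u _
        unfold hh
        rw [norm_mul, norm_mul, RCLike.norm_conj, Complex.norm_real, Real.norm_eq_abs]
        have := wn_abs (ψ φ) u
        rw [hN]
        exact mul_le_of_le_one_left (by positivity) this
      · exact ii_bdd (Nm.comp (measurable_const.prodMk measurable_id)) (fun u => Nb _) _ _
    · have h1 := Nm.stronglyMeasurable
      have h2 := h1.integral_prod_right' (ν := volume.restrict (Ioc (-P) P))
      have h3 : (fun φ => ∫ u in (-P)..P, N (φ, u)) =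
          fun φ => ∫ u, N (φ, u) ∂(volume.restrict (Ioc (-P) P)) := by
        funext φ
        rw [intervalIntegral.integral_of_le (by linarith)]
      rw [h3]
      apply ii_bdd (C := C * D * (2 * P)) h2.measurable
      intro φ
      have h4 : |∫ u in (-P)..P, N (φ, u)| ≤ C * D * |P - -P| := by
        rw [← Real.norm_eq_abs]
        apply intervalIntegral.norm_integral_le_of_norm_le_const
        intro u _
        rw [Real.norm_eq_abs]
        exact Nb _
      have e : |P - -P| = 2 * P := by rw [abs_of_nonneg (by linarith)]; ring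
      rw [e, intervalIntegral.integral_of_le (by linarith)] at h4
      exact h4
  have h2 : ∫ φ in (0 : ℝ)..(2 * Real.pi), ∫ u in (-P)..P, N (φ, u)
      = ∫ u in (-P)..P, ∫ φ in (0 : ℝ)..(2 * Real.pi), N (φ, u) := by
    rw [intervalIntegral_intervalIntegral_swap]
    refine IntegrableOn.of_bound ?_ Nm.aestronglyMeasurable (C * D) ?_
    · rw [Measure.volume_eq_prod, Measure.prod_prod]
      refine ENNReal.mul_lt_top ?_ ?_
      · rw [uIoc_of_le (by positivity), Real.volume_Ioc]; exact ENNReal.ofReal_lt_top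
      · rw [uIoc_of_le (by linarith), Real.volume_Ioc]; exact ENNReal.ofReal_lt_top
    · exact Filter.Eventually.of_forall fun q => by rw [Real.norm_eq_abs]; exact Nb _
  have h3 : ∀ u : ℝ, ∫ φ in (0 : ℝ)..(2 * Real.pi), N (φ, u)
      ≤ (2 * Real.pi) * (Real.sqrt (ms f) * Real.sqrt (ms g)) := by
    intro u
    have h4 := cs (u := fun φ => ‖f (φ + u / 2)‖) (v := fun φ => ‖g (φ - u / 2)‖) (C := C) (D := D)
      (hf.m.comp (measurable_id.add_const _)).norm (hg.m.comp (measurable_id.sub_const _)).norm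
      (fun t => by rw [abs_of_nonneg (norm_nonneg _)]; exact hf.b _)
      (fun t => by rw [abs_of_nonneg (norm_nonneg _)]; exact hg.b _)
      (show (0 : ℝ) ≤ 2 * Real.pi by positivity)
    rw [ms_shift pf (u / 2)] at h4
    have h5 : ∫ t in (0 : ℝ)..(2 * Real.pi), ‖g (t - u / 2)‖ ^ 2 = (2 * Real.pi) * ms g := by
      have := ms_shift pg (-(u / 2))
      simpa [sub_eq_add_neg] using this
    rw [h5, Real.sqrt_mul (show (0 : ℝ) ≤ 2 * Real.pi by positivity) (ms f),
      Real.sqrt_mul (show (0 : ℝ) ≤ 2 * Real.pi by positivity) (ms g)] at h4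
    have h6 : Real.sqrt (2 * Real.pi) * Real.sqrt (2 * Real.pi) = 2 * Real.pi :=
      Real.mul_self_sqrt (by positivity)
    calc ∫ φ in (0 : ℝ)..(2 * Real.pi), N (φ, u)
        ≤ Real.sqrt (2 * Real.pi) * Real.sqrt (ms f) * (Real.sqrt (2 * Real.pi) * Real.sqrt (ms g)) := h4
      _ = (Real.sqrt (2 * Real.pi) * Real.sqrt (2 * Real.pi)) *
          (Real.sqrt (ms f) * Real.sqrt (ms g)) := by ring
      _ = _ := by rw [h6]
  have h4 : ∫ u in (-P)..P, ∫ φ in (0 : ℝ)..(2 * Real.pi), N (φ, u)
      ≤ ∫ u in (-P)..P, (2 * Real.pi) * (Real.sqrt (ms f) * Real.sqrt (ms g)) := by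
    apply intervalIntegral.integral_mono_on (by linarith) _ intervalIntegrable_const
    · intro u _; exact h3 u
    · have h1 := (Nm.comp measurable_swap).stronglyMeasurable
      have h2 := h1.integral_prod_right' (ν := volume.restrict (Ioc 0 (2 * Real.pi)))
      have h3 : (fun u => ∫ φ in (0 : ℝ)..(2 * Real.pi), N (φ, u)) =
          fun u => ∫ φ, (N ∘ Prod.swap) (u, φ) ∂(volume.restrict (Ioc 0 (2 * Real.pi))) := by
        funext u
        rw [intervalIntegral.integral_of_le (by positivity)]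
        rfl
      rw [h3]
      apply ii_bdd (C := C * D * (2 * Real.pi)) h2.measurable
      intro u
      have h4 : |∫ φ in (0 : ℝ)..(2 * Real.pi), N (φ, u)| ≤ C * D * |2 * Real.pi - 0| := by
        rw [← Real.norm_eq_abs]
        apply intervalIntegral.norm_integral_le_of_norm_le_const
        intro u _
        rw [Real.norm_eq_abs]
        exact Nb _
      rw [sub_zero, abs_of_pos (show (0 : ℝ) < 2 * Real.pi by positivity),
        intervalIntegral.integral_of_le (show (0 : ℝ) ≤ 2 * Real.pi by positivity)] at h4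
      exact h4
  rw [intervalIntegral.integral_const, smul_eq_mul] at h4
  calc 1 / (2 * Real.pi) * ‖∫ φ in (0 : ℝ)..(2 * Real.pi), ∫ u in (-P)..P, hh ψ f g φ u‖
      ≤ 1 / (2 * Real.pi) * ((P - -P) * (2 * Real.pi * (Real.sqrt (ms f) * Real.sqrt (ms g)))) := by
        apply mul_le_mul_of_nonneg_left _ (by positivity)
        exact (h1.trans (le_of_eq h2)).trans h4
    _ = 2 * P * (Real.sqrt (ms f) * Real.sqrt (ms g)) := by field_simp; ring

end

end Helper95.RC
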