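import Pool.Agent.Helper95.RC.M_SHF

/-!
# Project RC, SHARP, link 3: the trigonometric sections of the shift form converge
-/

open MeasureTheory Set Filter Topology

namespace Helper95.RC

open Helper49.LT hiding sg
open Helper87.RC (Fam BM intg_of_bddC intg_of_bdd fc_eq fc_sub fc_cmul fc_add pars)
open Helper56.RC (fc)
open Helper44.RCG (G1 G2 N0)

/-- trigonometric polynomials -/
noncomputable def tp (S : Finset ℤ) (a : ℤ → ℂ) (t : ℝ) : ℂ := ∑ m ∈ S, a m * ee ((m : ℝ) * t)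

theorem tp_BM (S : Finset ℤ) (a : ℤ → ℂ) : BM (tp S a) (∑ m ∈ S, ‖a m‖) := by
  constructor
  · unfold tp
    apply Finset.measurable_sum
    intro m _
    exact measurable_const.mul (continuous_ee.measurable.comp (measurable_id.const_mul _))
  · intro t
    unfold tp
    refine (norm_sum_le _ _).trans (Finset.sum_le_sum fun m _ => ?_)
    rw [norm_mul, norm_ee, mul_one]

theorem tp_per (S : Finset ℤ) (a : ℤ → ℂ) (t : ℝ) : tp S a (t + 2 * Real.pi) = tp S a t := by
  unfold tp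
  apply Finset.sum_congr rfl
  intro m _
  rw [ee_int]

theorem fc_ee (m n : ℤ) : fc (fun t => ee ((m : ℝ) * t)) n = if m = n then 1 else 0 := by
  rw [fc_eq]
  have h := av_ee (m - n)
  unfold av at h
  have e : (fun t : ℝ => ee ((m : ℝ) * t) * ee (-(n : ℝ) * t)) =
      fun t => ee (((m - n : ℤ) : ℝ) * t) := by
    funext t
    rw [← ee_add]; congr 1; push_cast; ring
  rw [e, h]
  by_cases hmn : m = n
  · rw [if_pos hmn, if_pos (by omega)]
  · rw [if_neg hmn, if_neg (by omega)]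

theorem fc_tp (S : Finset ℤ) (a : ℤ → ℂ) (n : ℤ) : fc (tp S a) n = if n ∈ S then a n else 0 := by
  classical
  induction S using Finset.induction_on with
  | empty =>
    have : tp ∅ a = fun _ => 0 := by funext t; simp [tp]
    rw [this, fc_eq]; simp
  | insert m S hm ih =>
    have e : tp (insert m S) a = fun t => (a m * ee ((m : ℝ) * t)) + tp S a t := by
      funext t
      unfold tp
      rw [Finset.sum_insert hm]
    have h1 : BM (fun t : ℝ => a m * ee ((m : ℝ) * t)) (‖a m‖ * 1) := (BM.eec (m : ℝ)).cmul (a m)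
    rw [e, fc_add h1 (tp_BM S a), fc_cmul, fc_ee, ih]
    by_cases hn : m = n
    · subst hn
      simp [hm]
    · rw [if_neg hn]
      simp [Finset.mem_insert, Ne.symm hn]

/-- the error of the section -/
theorem ms_section {f : ℝ → ℂ} {C : ℝ} (hf : BM f C) (S : Finset ℤ) :
    ms (fun t => f t - tp S (fc f) t) = ms f - ∑ n ∈ S, ‖fc f n‖ ^ 2 := by
  classical
  have h1 := pars hf
  have h2 := pars (hf.sub (tp_BM S (fc f)))
  have e : ∀ n, ‖fc (fun t => f t - tp S (fc f) t) n‖ ^ 2 =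
      ‖fc f n‖ ^ 2 - if n ∈ S then ‖fc f n‖ ^ 2 else 0 := by
    intro n
    rw [fc_sub hf (tp_BM S (fc f)), fc_tp]
    by_cases hn : n ∈ S
    · rw [if_pos hn, if_pos hn]; simp
    · rw [if_neg hn, if_neg hn]; simp
  simp_rw [e] at h2
  have h3 : HasSum (fun n => if n ∈ S then ‖fc f n‖ ^ 2 else 0) (∑ n ∈ S, ‖fc f n‖ ^ 2) := by
    have h4 : HasSum (fun n => if n ∈ S then ‖fc f n‖ ^ 2 else 0)
        (∑ n ∈ S, (if n ∈ S then ‖fc f n‖ ^ 2 else 0)) :=
      hasSum_sum_of_ne_finset_zero (fun n hn => by simp [hn])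
    have h5 : ∑ n ∈ S, (if n ∈ S then ‖fc f n‖ ^ 2 else 0) = ∑ n ∈ S, ‖fc f n‖ ^ 2 :=
      Finset.sum_congr rfl fun n hn => by simp [hn]
    rwa [h5] at h4
  exact h2.unique (h1.sub h3)

theorem tendsto_Icc_int : Tendsto (fun N : ℕ => Finset.Icc (-(N : ℤ)) N) atTop atTop := by
  apply tendsto_atTop_finset_of_monotone
  · intro M N h
    apply Finset.Icc_subset_Icc
    · simpa using h
    · exact_mod_cast h
  · intro x
    refine ⟨x.natAbs, ?_⟩
    rw [Finset.mem_Icc]
    omega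

theorem ms_tendsto {f : ℝ → ℂ} {C : ℝ} (hf : BM f C) :
    Tendsto (fun N : ℕ => ms (fun t => f t - tp (Finset.Icc (-(N : ℤ)) N) (fc f) t)) atTop (𝓝 0) := by
  have h1 : Tendsto (fun N : ℕ => ∑ n ∈ Finset.Icc (-(N : ℤ)) N, ‖fc f n‖ ^ 2) atTop (𝓝 (ms f)) :=
    (pars hf).comp tendsto_Icc_int
  have h2 := (tendsto_const_nhds (x := ms f)).sub h1
  rw [sub_self] at h2
  refine h2.congr fun N => ?_
  rw [ms_section hf]

/-- the inner integral for pure harmonics -/
theorem inner_ee (m n : ℤ) (φ x : ℝ) :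
    ∫ u in (0 : ℝ)..x, ee ((m : ℝ) * (φ + u / 2)) * (starRingEnd ℂ) (ee ((n : ℝ) * (φ - u / 2))) =
      ee (((m - n : ℤ) : ℝ) * φ) * (if m + n = 0 then (x : ℂ) else
        (2 / (Complex.I * ((m + n : ℤ) : ℂ))) * (ee (((m + n : ℤ) : ℝ) * (x / 2)) - 1)) := by
  have e : ∀ u : ℝ, ee ((m : ℝ) * (φ + u / 2)) * (starRingEnd ℂ) (ee ((n : ℝ) * (φ - u / 2))) =
      ee (((m - n : ℤ) : ℝ) * φ) * ee ((((m + n : ℤ) : ℝ) / 2) * u) := by
    intro u
    rw [← ee_neg, ← ee_add, ← ee_add]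
    congr 1
    push_cast
    ring
  simp_rw [e]
  rw [intervalIntegral.integral_const_mul]
  congr 1
  by_cases h : m + n = 0
  · rw [if_pos h, h]
    simp [ee_zero]
  · rw [if_neg h]
    have hc : (((m + n : ℤ) : ℝ) / 2 : ℝ) ≠ 0 := by
      apply div_ne_zero _ two_ne_zero
      exact_mod_cast h
    have hc' : (((((m + n : ℤ) : ℝ) / 2 : ℝ)) : ℂ) * Complex.I ≠ 0 :=
      mul_ne_zero (by exact_mod_cast hc) Complex.I_ne_zero
    have h2 : ∀ u ∈ uIcc (0 : ℝ) x,
        HasDerivAt (fun s : ℝ => ee ((((m + n : ℤ) : ℝ) / 2) * s) /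
          ((((((m + n : ℤ) : ℝ) / 2 : ℝ)) : ℂ) * Complex.I)) (ee ((((m + n : ℤ) : ℝ) / 2) * u)) u := by
      intro u _
      have h3 := (hasDerivAt_ee (((m + n : ℤ) : ℝ) / 2) u).div_const
        ((((((m + n : ℤ) : ℝ) / 2 : ℝ)) : ℂ) * Complex.I)
      rw [mul_div_cancel_left₀ _ hc'] at h3
      exact h3
    rw [intervalIntegral.integral_eq_sub_of_hasDerivAt h2]
    · rw [mul_zero, ee_zero, ← sub_div]
      have e1 : (((m + n : ℤ) : ℝ) / 2) * x = ((m + n : ℤ) : ℝ) * (x / 2) := by ring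
      rw [e1]
      have hz : ((m + n : ℤ) : ℂ) ≠ 0 := by exact_mod_cast h
      push_cast at hz ⊢
      field_simp
    · apply Continuous.intervalIntegrable
      exact continuous_ee.comp (by fun_prop)

theorem SH_tp {ψ : ℝ → ℝ} {P : ℝ} (hψ : Measurable ψ) (hP : ∀ t, |ψ t| ≤ P) (S T : Finset ℤ)
    (a b : ℤ → ℂ) : SH ψ (tp S a) (tp T b) =
      ∑ m ∈ S, ∑ n ∈ T, a m * (starRingEnd ℂ) (b n) * Kc ψ m n := by
  have hpi := Real.pi_pos
  have hce : ∀ c : ℝ, Continuous fun u : ℝ => ee (c * u) := fun c => continuous_ee.comp (by fun_prop)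
  have hin : ∀ φ : ℝ, ∫ u in (0 : ℝ)..(ψ φ), tp S a (φ + u / 2) * (starRingEnd ℂ) (tp T b (φ - u / 2)) =
      ∑ m ∈ S, ∑ n ∈ T, (a m * (starRingEnd ℂ) (b n)) * (ee (((m - n : ℤ) : ℝ) * φ) *
        (if m + n = 0 then ((ψ φ : ℝ) : ℂ) else
        (2 / (Complex.I * ((m + n : ℤ) : ℂ))) * (ee (((m + n : ℤ) : ℝ) * (ψ φ / 2)) - 1))) := by
    intro φ
    have e : ∀ u : ℝ, tp S a (φ + u / 2) * (starRingEnd ℂ) (tp T b (φ - u / 2)) =
        ∑ m ∈ S, ∑ n ∈ T, (a m * (starRingEnd ℂ) (b n)) *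
          (ee ((m : ℝ) * (φ + u / 2)) * (starRingEnd ℂ) (ee ((n : ℝ) * (φ - u / 2)))) := by
      intro u
      unfold tp
      rw [map_sum, Finset.sum_mul_sum]
      apply Finset.sum_congr rfl
      intro m _
      apply Finset.sum_congr rfl
      intro n _
      rw [map_mul]
      ring
    simp_rw [e]
    have hc1 : ∀ m n : ℤ, Continuous fun u : ℝ => (a m * (starRingEnd ℂ) (b n)) *
        (ee ((m : ℝ) * (φ + u / 2)) * (starRingEnd ℂ) (ee ((n : ℝ) * (φ - u / 2)))) := by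
      intro m n
      refine continuous_const.mul ((continuous_ee.comp (by fun_prop)).mul
        (Complex.continuous_conj.comp (continuous_ee.comp (by fun_prop))))
    rw [intervalIntegral.integral_finsetSum]
    · apply Finset.sum_congr rfl
      intro m _
      rw [intervalIntegral.integral_finsetSum]
      · apply Finset.sum_congr rfl
        intro n _
        rw [intervalIntegral.integral_const_mul, inner_ee]
      · intro n _
        exact (hc1 m n).intervalIntegrable _ _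
    · intro m _
      exact (continuous_finsetSum T fun n _ => hc1 m n).intervalIntegrable _ _
  unfold SH
  simp_rw [hin]
  have hB : ∀ m n : ℤ, IntervalIntegrable (fun φ => (a m * (starRingEnd ℂ) (b n)) *
      (ee (((m - n : ℤ) : ℝ) * φ) * (if m + n = 0 then ((ψ φ : ℝ) : ℂ) else
        (2 / (Complex.I * ((m + n : ℤ) : ℂ))) * (ee (((m + n : ℤ) : ℝ) * (ψ φ / 2)) - 1))))
      volume 0 (2 * Real.pi) := by
    intro m n
    apply IntervalIntegrable.const_mul
    have hψc : Measurable fun φ => ((ψ φ : ℝ) : ℂ) := Complex.measurable_ofReal.comp hψ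
    by_cases h : m + n = 0
    · simp only [if_pos h]
      refine intg_of_bddC (C := P) ((hce _).measurable.mul hψc) (fun t => ?_) _ _
      show ‖ee _ * _‖ ≤ P
      rw [norm_mul, norm_ee, one_mul, Complex.norm_real, Real.norm_eq_abs]
      exact hP t
    · simp only [if_neg h]
      refine intg_of_bddC (C := ‖(2 / (Complex.I * ((m + n : ℤ) : ℂ)) : ℂ)‖ * 2)
        ((hce _).measurable.mul (measurable_const.mul ((continuous_ee.measurable.comp
          (measurable_const.mul (hψ.div_const 2))).sub_const 1))) (fun t => ?_) _ _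
      show ‖ee (((m - n : ℤ) : ℝ) * t) * ((2 / (Complex.I * ((m + n : ℤ) : ℂ))) *
        (ee (((m + n : ℤ) : ℝ) * (ψ t / 2)) - 1))‖ ≤ _
      rw [norm_mul, norm_ee, one_mul, norm_mul]
      apply mul_le_mul_of_nonneg_left _ (norm_nonneg _)
      calc ‖ee (((m + n : ℤ) : ℝ) * (ψ t / 2)) - 1‖ ≤ ‖ee (((m + n : ℤ) : ℝ) * (ψ t / 2))‖ + ‖(1 : ℂ)‖ :=
            norm_sub_le _ _
        _ = 2 := by rw [norm_ee]; norm_num
  rw [intervalIntegral.integral_finsetSum, Finset.mul_sum]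
  · apply Finset.sum_congr rfl
    intro m _
    rw [intervalIntegral.integral_finsetSum, Finset.mul_sum]
    · apply Finset.sum_congr rfl
      intro n _
      rw [intervalIntegral.integral_const_mul, ← mul_assoc, mul_comm (1 / (2 * Real.pi) : ℂ), mul_assoc]
      congr 1
      unfold Kc
      by_cases h : m + n = 0
      · simp only [if_pos h]
        unfold av
        congr 1
        apply intervalIntegral.integral_congr
        intro φ _
        show ee _ * _ = _ * ee _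
        ring
      · simp only [if_neg h]
        have e : ∀ φ : ℝ, ee (((m - n : ℤ) : ℝ) * φ) * ((2 / (Complex.I * ((m + n : ℤ) : ℂ))) *
            (ee (((m + n : ℤ) : ℝ) * (ψ φ / 2)) - 1)) = (2 / (Complex.I * ((m + n : ℤ) : ℂ))) *
            (ee (((m - n : ℤ) : ℝ) * φ) * ee (((m + n : ℤ) : ℝ) * (ψ φ / 2)) -
              ee (((m - n : ℤ) : ℝ) * φ)) := fun φ => by ring
        simp_rw [e]
        rw [intervalIntegral.integral_const_mul, ← mul_assoc, mul_comm (1 / (2 * Real.pi) : ℂ), mul_assoc]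
        congr 1
        rw [intervalIntegral.integral_sub, mul_sub]
        · have h1 := av_ee (m - n)
          have h2 : (if m - n = 0 then (1 : ℂ) else 0) = if m = n then 1 else 0 := by
            by_cases hmn : m = n
            · rw [if_pos hmn, if_pos (by omega)]
            · rw [if_neg hmn, if_neg (by omega)]
          rw [h2] at h1
          unfold av at h1 ⊢
          rw [h1]
        · refine intg_of_bddC (C := 1) ((hce _).measurable.mul (continuous_ee.measurable.comp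
            (measurable_const.mul (hψ.div_const 2)))) (fun t => ?_) _ _
          show ‖ee _ * ee _‖ ≤ 1
          rw [norm_mul, norm_ee, norm_ee, one_mul]
        · exact (hce _).intervalIntegrable _ _
    · intro n _
      exact hB m n
  · intro m _
    have h1 := IntervalIntegrable.sum T fun n _ => hB m n
    rwa [Finset.sum_fn] at h1

theorem hSHL : StSHL := by
  intro f g C D P ψ hf hg pf pg hψ hP
  have hpi := Real.pi_pos
  have hP0 : 0 ≤ P := (abs_nonneg _).trans (hP 0)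
  set S : ℕ → Finset ℤ := fun N => Finset.Icc (-(N : ℤ)) N with hS
  set F : ℕ → ℝ → ℂ := fun N => tp (S N) (fc f) with hF
  set G : ℕ → ℝ → ℂ := fun N => tp (S N) (fc g) with hG
  have hFB : ∀ N, BM (F N) (∑ m ∈ S N, ‖fc f m‖) := fun N => tp_BM _ _
  have hGB : ∀ N, BM (G N) (∑ m ∈ S N, ‖fc g m‖) := fun N => tp_BM _ _
  have e1 : ∀ N : ℕ, ∑ m ∈ Finset.Icc (-(N : ℤ)) N, ∑ n ∈ Finset.Icc (-(N : ℤ)) N,
      fc f m * (starRingEnd ℂ) (fc g n) * Kc ψ m n = SH ψ (F N) (G N) := fun N =>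
    (SH_tp hψ hP (S N) (S N) (fc f) (fc g)).symm
  simp_rw [e1]
  have hsub : ∀ N, SH ψ f g - SH ψ (F N) (G N) =
      SH ψ (fun t => f t - F N t) g + SH ψ (F N) (fun t => g t - G N t) := by
    intro N
    rw [SH_sub_left hf (hFB N) hg hψ hP, SH_sub_right (hFB N) hg (hGB N) hψ hP]
    ring
  have hmsF : ∀ N, ms (F N) ≤ ms f := by
    intro N
    have h1 := pars (hFB N)
    have h2 : HasSum (fun n => ‖fc (F N) n‖ ^ 2) (∑ n ∈ S N, ‖fc f n‖ ^ 2) := by
      have h4 : HasSum (fun n => ‖fc (F N) n‖ ^ 2) (∑ n ∈ S N, ‖fc (F N) n‖ ^ 2) :=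
        hasSum_sum_of_ne_finset_zero (fun n hn => by rw [hF]; simp [fc_tp, hn])
      have h5 : ∑ n ∈ S N, ‖fc (F N) n‖ ^ 2 = ∑ n ∈ S N, ‖fc f n‖ ^ 2 :=
        Finset.sum_congr rfl fun n hn => by rw [hF]; simp [fc_tp, hn]
      rwa [h5] at h4
    have h3 : ms (F N) = ∑ n ∈ S N, ‖fc f n‖ ^ 2 := h1.unique h2
    have h4 := ms_nonneg (fun t => f t - tp (S N) (fc f) t)
    rw [ms_section hf] at h4
    linarith
  have hbound : ∀ N, ‖SH ψ f g - SH ψ (F N) (G N)‖ ≤
      2 * P * (Real.sqrt (ms (fun t => f t - F N t)) * Real.sqrt (ms g)) +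
      2 * P * (Real.sqrt (ms f) * Real.sqrt (ms (fun t => g t - G N t))) := by
    intro N
    rw [hsub]
    refine (norm_add_le _ _).trans (add_le_add ?_ ?_)
    · exact hSHB _ _ _ _ P ψ (hf.sub (hFB N)) hg (fun t => by rw [pf, hF]; simp [tp_per]) pg hψ hP
    · refine (hSHB _ _ _ _ P ψ (hFB N) (hg.sub (hGB N)) (fun t => by rw [hF]; simp [tp_per])
        (fun t => by rw [pg, hG]; simp [tp_per]) hψ hP).trans ?_
      apply mul_le_mul_of_nonneg_left _ (by positivity)
      apply mul_le_mul_of_nonneg_right (Real.sqrt_le_sqrt (hmsF N)) (Real.sqrt_nonneg _)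
  have t1 : Tendsto (fun N => Real.sqrt (ms (fun t => f t - F N t))) atTop (𝓝 0) := by
    have := (ms_tendsto hf).sqrt
    rwa [Real.sqrt_zero] at this
  have t2 : Tendsto (fun N => Real.sqrt (ms (fun t => g t - G N t))) atTop (𝓝 0) := by
    have := (ms_tendsto hg).sqrt
    rwa [Real.sqrt_zero] at this
  have t3 : Tendsto (fun N => 2 * P * (Real.sqrt (ms (fun t => f t - F N t)) * Real.sqrt (ms g)) +
      2 * P * (Real.sqrt (ms f) * Real.sqrt (ms (fun t => g t - G N t)))) atTop (𝓝 0) := by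
    have h1 := ((t1.mul_const (Real.sqrt (ms g))).const_mul (2 * P)).add
      ((t2.const_mul (Real.sqrt (ms f))).const_mul (2 * P))
    simpa using h1
  rw [tendsto_iff_norm_sub_tendsto_zero]
  apply squeeze_zero (fun N => norm_nonneg _) _ t3
  intro N
  rw [norm_sub_rev]
  exact hbound N

/-- LINK 3 -/
theorem hL3 (hNZ : StNZ) : StL3 := by
  intro A B v C ψ h hq hψ hper hb
  have hpi := Real.pi_pos
  have key := Helper44.RCG.shiftG h hq hψ hper hb
  have B1 : BM (G1 A v) (2 * C) := ⟨Helper44.RCG.G1_meas h, Helper44.RCG.G1_le h⟩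
  have B2 : BM (G2 B v) (2 * C) := ⟨Helper44.RCG.G2_meas h, Helper44.RCG.G2_le h⟩
  have hP0 : (0 : ℝ) ≤ Real.pi / 3 := by positivity
  have e : 1 / Real.pi * (∫ φ in (0 : ℝ)..(2 * Real.pi), ∫ u in (0 : ℝ)..(ψ φ),
      (G1 A v (φ + u / 2) * (starRingEnd ℂ) (G2 B v (φ - u / 2))).im) =
      2 * (SH ψ (G1 A v) (G2 B v)).im := by
    have i1 : ∀ φ a b : ℝ, IntervalIntegrable
        (fun u => G1 A v (φ + u / 2) * (starRingEnd ℂ) (G2 B v (φ - u / 2))) volume a b := by
      intro φ a b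
      refine intg_of_bddC (C := (2 * C) * (2 * C)) ((B1.m.comp
        (measurable_const.add (measurable_id.div_const 2))).mul (B2.conj.m.comp
        (measurable_const.sub (measurable_id.div_const 2)))) (fun t => ?_) _ _
      show ‖G1 A v (φ + t / 2) * (starRingEnd ℂ) (G2 B v (φ - t / 2))‖ ≤ _
      rw [norm_mul, RCLike.norm_conj]
      exact mul_le_mul (B1.b _) (B2.b _) (norm_nonneg _) B1.C0
    have e1 : ∀ φ : ℝ, ∫ u in (0 : ℝ)..(ψ φ),
        (G1 A v (φ + u / 2) * (starRingEnd ℂ) (G2 B v (φ - u / 2))).im =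
        (∫ u in (0 : ℝ)..(ψ φ), G1 A v (φ + u / 2) * (starRingEnd ℂ) (G2 B v (φ - u / 2))).im := by
      intro φ
      exact Complex.imCLM.intervalIntegral_comp_comm (i1 φ _ _)
    simp_rw [e1]
    have i2 : IntervalIntegrable (fun φ => ∫ u in (0 : ℝ)..(ψ φ),
        G1 A v (φ + u / 2) * (starRingEnd ℂ) (G2 B v (φ - u / 2))) volume 0 (2 * Real.pi) := by
      have e2 : (fun φ => ∫ u in (0 : ℝ)..(ψ φ),
          G1 A v (φ + u / 2) * (starRingEnd ℂ) (G2 B v (φ - u / 2))) =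
          fun φ => ∫ u in (-(Real.pi / 3))..(Real.pi / 3), hh ψ (G1 A v) (G2 B v) φ u := by
        funext φ
        exact wn_int (hb φ) _
      rw [e2]
      exact intg_of_bddC (inner_meas B1 B2 hψ hP0) (fun φ => inner_bd B1 B2 φ hP0) _ _
    have e3 : ∫ φ in (0 : ℝ)..(2 * Real.pi), (∫ u in (0 : ℝ)..(ψ φ),
        G1 A v (φ + u / 2) * (starRingEnd ℂ) (G2 B v (φ - u / 2))).im =
        (∫ φ in (0 : ℝ)..(2 * Real.pi), ∫ u in (0 : ℝ)..(ψ φ),
          G1 A v (φ + u / 2) * (starRingEnd ℂ) (G2 B v (φ - u / 2))).im :=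
      Complex.imCLM.intervalIntegral_comp_comm i2
    rw [e3]
    unfold SH
    have e4 : (1 / (2 * Real.pi) : ℂ) = ((1 / (2 * Real.pi) : ℝ) : ℂ) := by push_cast; rfl
    rw [e4, Complex.im_ofReal_mul]
    generalize (∫ φ in (0 : ℝ)..(2 * Real.pi), ∫ u in (0 : ℝ)..(ψ φ),
          G1 A v (φ + u / 2) * (starRingEnd ℂ) (G2 B v (φ - u / 2))) = Z
    field_simp
  rw [e] at key
  refine ⟨N0 A B v - 2 * (SH ψ (G1 A v) (G2 B v)).im, ?_, key⟩
  have h1 : Tendsto (fun N : ℕ => ∑ m ∈ Finset.Icc (-(N : ℤ)) N,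
      ‖fc (G1 A v) m + fc (G2 B v) m‖ ^ 2 / (m : ℝ)) atTop (𝓝 (N0 A B v)) :=
    (hNZ A B v C h).comp tendsto_Icc_int
  have h2 := hSHL (G1 A v) (G2 B v) (2 * C) (2 * C) (Real.pi / 3) ψ B1 B2
    (Helper44.RCG.G1_per h) (Helper44.RCG.G2_per h) hψ hb
  have h3 := (Complex.continuous_im.tendsto _).comp h2
  exact h1.sub (h3.const_mul 2)

end Helper95.RC
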